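import Pool.Agent.Lib.HS21.LDefs

/-! Statements of the rows of the linear theory and of the theorem of Aubin. -/

open scoped Classical Topology ContDiff ComplexOrder Matrix SchwartzMap
open Set Filter Complex Metric MeasureTheory

set_option linter.unusedVariables false

noncomputable section

namespace Pool.Agent.Lib.HS21

open Pool.Agent.Lib.SV (E)
open Pool.Agent.Lib.HS32

/-! ### Rows in coordinates -/

/-- Algebra of the Hölder classes. -/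
structure St_HK (n : ℕ) : Prop where
  mono : ∀ k (S S' : Set (E n)) f M M', S' ⊆ S → M ≤ M' → HO k S f M → HO k S' f M'
  anti : ∀ k j (S : Set (E n)) f M, j ≤ k → HO k S f M → HO j S f M
  congr : ∀ k (S : Set (E n)) f g M, (∀ x ∈ S, f =ᶠ[𝓝 x] g) → HO k S f M → HO k S g M
  closed : ∀ k (S : Set (E n)) f M, (∀ ε, 0 < ε → HO k S f (M + ε)) → HO k S f M
  zero : ∀ k (S : Set (E n)) M, 0 ≤ M → HO k S (fun _ => 0) M
  const : ∀ k (S : Set (E n)) (c : ℂ), HO k S (fun _ => c) ‖c‖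
  add : ∀ k (S : Set (E n)) f g M M', SmO S f → SmO S g → HO k S f M → HO k S g M' →
    HO k S (fun x => f x + g x) (M + M')
  sub : ∀ k (S : Set (E n)) f g M M', SmO S f → SmO S g → HO k S f M → HO k S g M' →
    HO k S (fun x => f x - g x) (M + M')
  smul : ∀ k (S : Set (E n)) (c : ℂ) f M, SmO S f → HO k S f M →
    HO k S (fun x => c * f x) (‖c‖ * M)
  sum : ∀ k (S : Set (E n)) (ι : Type) (s : Finset ι) (f : ι → E n → ℂ) (M : ι → ℝ),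
    (∀ i ∈ s, SmO S (f i)) → (∀ i ∈ s, HO k S (f i) (M i)) →
    HO k S (fun x => ∑ i ∈ s, f i x) (∑ i ∈ s, M i)
  mul : ∀ k (S : Set (E n)) f g M M', SmO S f → SmO S g → HO k S f M → HO k S g M' →
    HO k S (fun x => f x * g x) (2 ^ (k + 1) * M * M')
  lin : ∀ k (S : Set (E n)) (φ : ℂ →L[ℝ] ℂ) f M, SmO S f → HO k S f M →
    HO k S (fun x => φ (f x)) (‖φ‖ * M)
  smD : ∀ (S : Set (E n)) f i, SmO S f → SmO S (D i f)
  comm : ∀ (f : E n → ℂ) x i j, ContDiffAt ℝ ∞ f x → D i (D j f) x = D j (D i f) x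
  succ : ∀ k j (S : Set (E n)) f M i, HO (k + 1 + j) S f M → HO (k + j) S (D i f) M
  lip : ∃ C, 0 ≤ C ∧ ∀ (S : Set (E n)) f M, Convex ℝ S → SmO S f → Su S f M →
    (∀ i, Su S (D i f) M) → HO 0 S f (C * M)
  decD : ∀ (w : E n → ℂ) i, Dec w → Dec (D i w)
  decAdd : ∀ w w' : E n → ℂ, Dec w → Dec w' → Dec fun x => w x + w' x
  decMul : ∀ a w : E n → ℂ, ContDiff ℝ ∞ a → (∀ k, ∃ M, HO k univ a M) → Dec w →
    Dec fun x => a x * w x
  decHO : ∀ (w : E n → ℂ) k, Dec w → ∃ M, 0 < M ∧ HO k univ w M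
  decCs : ∀ w : E n → ℂ, ContDiff ℝ ∞ w → HasCompactSupport w → Dec w
  decSch : ∀ w : 𝓢(E n, ℂ), Dec w

/-- Interpolation. -/
structure St_INTP (n : ℕ) : Prop where
  ip0 : ∀ (ε r : ℝ), 0 < ε → 0 < r → ∃ C, 0 ≤ C ∧ ∀ (f : E n → ℂ) i x M B,
    SmO (closedBall x r) f → Ho (closedBall x r) (D i f) M → Su (closedBall x r) f B → 0 ≤ M →
    ‖D i f x‖ ≤ ε * M + C * B
  ip1 : ∀ (ε r : ℝ), 0 < ε → 0 < r → ∃ C, 0 ≤ C ∧ ∀ (S S' : Set (E n)) f M B,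
    (∀ x ∈ S, closedBall x r ⊆ S') → SmO S' f → HO 2 S' f M → Su S' f B →
    HO 1 S f (ε * M + C * B)
  ipk : ∀ (k : ℕ) (ε r : ℝ), 0 < ε → 0 < r → ∃ C, 0 ≤ C ∧ ∀ (S S' : Set (E n)) f M B,
    (∀ x ∈ S, closedBall x r ⊆ S') → SmO S' f → HO (k + 2) S' f M → HO k S' f B →
    HO (k + 1) S f (ε * M + C * B)

/-- Schauder estimate for constant coefficients, uniform in the coefficients. -/
def St_T2 (n : ℕ) : Prop := ∀ κ K : ℝ, 0 < κ → ∃ C, 0 ≤ C ∧ ∀ a : Ix n → Ix n → ℝ, Ell κ a →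
  (∀ i j, |a i j| ≤ K) → ∀ (w : E n → ℂ) M, ContDiff ℝ ∞ w → (∃ M0, HO 2 univ w M0) → 0 ≤ M →
    Ho univ (L0 (fun _ => a) w) M → ∀ i j, Ho univ (D i (D j w)) (C * M)

/-- Schauder estimate for variable coefficients. -/
def St_V0 (n : ℕ) : Prop := ∀ κ K : ℝ, 0 < κ → ∃ C, 0 ≤ C ∧ ∀ A : E n → Ix n → Ix n → ℝ,
  (∀ x, Ell κ (A x)) → (∀ i j, HO 0 univ (fun x => (A x i j : ℂ)) K) →
    ∀ (w : E n → ℂ) M, ContDiff ℝ ∞ w → (∃ M0, HO 2 univ w M0) →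
      HO 0 univ (L0 A w) M → HO 1 univ w M → HO 2 univ w (C * M)

/-- First and second order conditions at a maximum of the real part. -/
def St_MAXP (n : ℕ) : Prop := ∀ (w : E n → ℂ) (x : E n), ContDiffAt ℝ ∞ w x →
  IsLocalMax (fun y => (w y).re) x → (∀ i, (D i w x).re = 0) ∧
    ∀ A : E n → Ix n → Ix n → ℝ, Ell 0 (A x) → (L0 A w x).re ≤ 0

/-- Estimate of the resolvent. -/
def St_RES (n : ℕ) : Prop := ∀ (k : ℕ) (κ K : ℝ), 0 < κ → ∃ C, 0 ≤ C ∧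
  ∀ A : E n → Ix n → Ix n → ℝ, (∀ x, Ell κ (A x)) → (∀ i j, ContDiff ℝ ∞ fun x => (A x i j : ℂ)) →
    (∀ i j, HO k univ (fun x => (A x i j : ℂ)) K) → ∀ τ : ℝ, 1 ≤ τ → ∀ (w : E n → ℂ) M, Dec w →
      HO k univ (fun x => τ * w x - L0 A w x) M →
        HO (k + 2) univ w (C * M) ∧ HO k univ w (C * M / τ)

/-- Abstract lemmas on dense range. -/
structure St_DENS : Prop where
  approx : ∀ (V W : Type) [AddCommGroup V] [AddCommGroup W] (CV : AddSubgroup V)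
    (CW : AddSubgroup W) (Q : W → ℝ → Prop) (T : V → W) (θ : ℝ), Siz CW Q → Lin CV CW Q T →
    θ < 1 → (∀ f ∈ CW, ∀ M, 0 < M → Q f M → ∃ v ∈ CV, Q (T v - f) (θ * M)) → Dns CV CW Q T
  cont : ∀ (V W : Type) [AddCommGroup V] [AddCommGroup W] (CV : AddSubgroup V)
    (CW : AddSubgroup W) (Q : W → ℝ → Prop) (T : ℝ → V → W) (a b K : ℝ), Siz CW Q →
    (∀ s ∈ Icc a b, Lin CV CW Q (T s)) →
    (∀ s ∈ Icc a b, ∀ r ∈ Icc a b, ∀ v ∈ CV, ∀ M, 0 < M → Q (T s v) M →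
      Q (T s v - T r v) (K * |s - r| * M)) →
    ∀ s ∈ Icc a b, ∀ r ∈ Icc a b, Dns CV CW Q (T s) → Dns CV CW Q (T r)

/-- Approximate solvability on the whole space. -/
def St_DENSE (n : ℕ) : Prop := ∀ (k : ℕ) (κ : ℝ) (A : E n → Ix n → Ix n → ℝ), 0 < κ →
  (∀ x, Ell κ (A x)) → (∀ i j, ContDiff ℝ ∞ fun x => (A x i j : ℂ)) →
  (∀ i j, HasCompactSupport fun x => A x i j - if i = j then 1 else 0) →
  ∀ τ : ℝ, 1 ≤ τ → ∀ f : E n → ℂ, ContDiff ℝ ∞ f → HasCompactSupport f → ∀ ε, 0 < ε →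
    ∃ w, Dec w ∧ HO k univ (fun x => τ * w x - L0 A w x - f x) ε

/-- Calculus of bounded families, first part. -/
structure St_FAM (n : ℕ) : Prop where
  fix : ∀ (T : Type) k (z : E n) g, ContDiffAt ℝ ∞ g z → (∀ᶠ w in 𝓝 z, ContDiffAt ℝ ∞ g w) →
    LB k z fun _ : T => g
  scal : ∀ (T : Type) k (z : E n) (c : T → ℂ) B, (∀ t, ‖c t‖ ≤ B) → LB k z fun t _ => c t
  add : ∀ (T : Type) k (z : E n) (f g : T → E n → ℂ), LB k z f → LB k z g →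
    LB k z fun t w => f t w + g t w
  sub : ∀ (T : Type) k (z : E n) (f g : T → E n → ℂ), LB k z f → LB k z g →
    LB k z fun t w => f t w - g t w
  mul : ∀ (T : Type) k (z : E n) (f g : T → E n → ℂ), LB k z f → LB k z g →
    LB k z fun t w => f t w * g t w
  lin : ∀ (T : Type) k (z : E n) (φ : ℂ →L[ℝ] ℂ) (f : T → E n → ℂ), LB k z f →
    LB k z fun t w => φ (f t w)
  sum : ∀ (T ι : Type) k (z : E n) (s : Finset ι) (f : ι → T → E n → ℂ),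
    (∀ i ∈ s, LB k z (f i)) → LB k z fun t w => ∑ i ∈ s, f i t w
  prod : ∀ (T ι : Type) k (z : E n) (s : Finset ι) (f : ι → T → E n → ℂ),
    (∀ i ∈ s, LB k z (f i)) → LB k z fun t w => ∏ i ∈ s, f i t w
  anti : ∀ (T : Type) k j (z : E n) (f : T → E n → ℂ), j ≤ k → LB k z f → LB j z f
  ls : ∀ (T : Type) k (z : E n) (f : T → E n → ℂ), LB k z f → LS z f
  der : ∀ (T : Type) k (z : E n) (f : T → E n → ℂ) i, LB (k + 1) z f → LB k z fun t => D i (f t)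
  dz : ∀ (T : Type) k (z : E n) (f : T → E n → ℂ) j, LB (k + 1) z f →
    LB k z (fun t => dz j (f t)) ∧ LB k z fun t => dzb j (f t)
  hess : ∀ (T : Type) k (z : E n) (f : T → E n → ℂ), LB (k + 2) z f →
    LBM k z fun t => hess (f t)
  base : ∀ (T : Type) (z : E n) (f : T → E n → ℂ), LS z f → (∀ i, LS z fun t => D i (f t)) →
    LB 0 z f
  succ : ∀ (T : Type) k (z : E n) (f : T → E n → ℂ), LS z f →
    (∀ i, LB k z fun t => D i (f t)) → LB (k + 1) z f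
  congr : ∀ (T : Type) k (z : E n) (f g : T → E n → ℂ), (∀ᶠ w in 𝓝 z, ∀ t, f t w = g t w) →
    LB k z f → LB k z g
  re : ∀ (T T' : Type) k (z : E n) (f : T → E n → ℂ) (φ : T' → T), LB k z f →
    LB k z fun t => f (φ t)
  near : ∀ (T : Type) k (z : E n) (f : T → E n → ℂ), LB k z f → ∀ᶠ w in 𝓝 z, LB k w f
  glue : ∀ (T : Type) k (K : Set (E n)) (f : T → E n → ℂ), IsCompact K → (∀ z ∈ K, LB k z f) →
    ∃ M, 0 < M ∧ ∀ t, SmO K (f t) ∧ HO k K (f t) M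
  cut : ∀ (T : Type) k (η : E n → ℂ) (f : T → E n → ℂ), ContDiff ℝ ∞ η → HasCompactSupport η →
    (∀ z ∈ tsupport η, LB k z f) → ∃ M, 0 < M ∧ ∀ t, ContDiff ℝ ∞ (fun w => η w * f t w) ∧
      HO k univ (fun w => η w * f t w) M

/-- Calculus of bounded families, second part: compositions, determinants, inverses. -/
structure St_FAM2 (n : ℕ) : Prop where
  comp : ∀ (T : Type) k (z : E n) (τ : E n → E n) (f : T → E n → ℂ),
    (∀ᶠ w in 𝓝 z, ContDiffAt ℝ ∞ τ w) → LB k (τ z) f → LB k z fun t w => f t (τ w)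
  compS : ∀ (T : Type) (z : E n) (τ : E n → E n) (f : T → E n → ℂ),
    (∀ᶠ w in 𝓝 z, ContDiffAt ℝ ∞ τ w) → LS (τ z) f → LS z fun t w => f t (τ w)
  post : ∀ (T : Type) k (z : E n) (φ : ℂ → ℂ) (K : Set ℂ) (f : T → E n → ℂ), IsCompact K →
    (∀ y ∈ K, ContDiffAt ℝ ∞ φ y) → (∀ᶠ w in 𝓝 z, ∀ t, f t w ∈ K) → LB k z f →
    LB k z fun t w => φ (f t w)
  mmul : ∀ (T : Type) k (z : E n) (A B : T → E n → Mat n), LBM k z A → LBM k z B →
    LBM k z fun t w => A t w * B t w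
  trace : ∀ (T : Type) k (z : E n) (A : T → E n → Mat n), LBM k z A →
    LB k z fun t w => (A t w).trace
  det : ∀ (T : Type) k (z : E n) (A : T → E n → Mat n), LBM k z A → LB k z fun t w => (A t w).det
  inv : ∀ (T : Type) k (z : E n) (A : T → E n → Mat n), LBM k z A → LE z A →
    LBM k z (fun t w => (A t w)⁻¹) ∧ LE z fun t w => (A t w)⁻¹
  ld : ∀ (T : Type) k (z : E n) (A : T → E n → Mat n), LBM k z A → LE z A →
    LB k z fun t => ld (A t)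
  leFix : ∀ (T : Type) (z : E n) (A : E n → Mat n), (∀ i j, ContinuousAt (fun w => A w i j) z) →
    (∀ᶠ w in 𝓝 z, (A w).PosDef) → LE z fun _ : T => A

/-- The operator `tr (W hess f)` in real coordinates. -/
structure St_REAL (n : ℕ) : Prop where
  eq : ∀ (W : E n → Mat n) (f : E n → ℂ) z, (W z).IsHermitian → ContDiffAt ℝ ∞ f z →
    (W z * hess f z).trace = L0 (fun w => ra (W w)) f z
  ell : ∀ (κ : ℝ) (W : Mat n), EllH κ W → Ell (κ / 4) (ra W)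
  lb : ∀ (T : Type) k (z : E n) (W : T → E n → Mat n), LBM k z W → ∀ p q,
    LB k z fun t w => (ra (W t w) p q : ℂ)
  sm : ∀ (z : E n) (W : E n → Mat n), SmM W z → ∀ p q,
    ContDiffAt ℝ ∞ (fun w => (ra (W w) p q : ℂ)) z

/-- Interior regularity for families. -/
def St_REG (n : ℕ) : Prop := ∀ (T : Type) k (z : E n) (W : T → E n → Mat n) (s : T → E n → ℂ),
  LBM k z W → LE z W → LB (k + 1) z s → LB k z (fun t w => (W t w * hess (s t) w).trace) →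
    LB (k + 2) z s

/-- Smooth limits. -/
def St_LIME (n : ℕ) : Prop := ∀ (U : Set (E n)) (f : ℕ → E n → ℂ) (g : E n → ℂ), IsOpen U →
  (∀ z ∈ U, ∀ k, ∃ N, LB k z fun j => f (N + j)) →
  (∀ z ∈ U, Tendsto (fun j => f j z) atTop (𝓝 (g z))) →
    SmO U g ∧ ∀ l, ∀ z ∈ U, Tendsto (fun j => Dl l (f j) z) atTop (𝓝 (Dl l g z))

/-! ### Rows on the manifold -/

/-- Global sizes and bounded families. -/
structure St_BR (n : ℕ) : Prop where
  toGH : ∀ (M : Mf n) (V : M.Cov) (T : Type) k (s : T → M.Fam ℂ), GB M k s →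
    ∃ B, 0 < B ∧ ∀ t, GH V k (s t) B
  toGB : ∀ (M : Mf n) (V : M.Cov) (T : Type) m k (s : T → M.Fam ℂ) B, (∀ t, M.Sec m (s t)) →
    (∀ t, GH V k (s t) B) → GB M k s
  toGB' : ∀ (M : Mf n) (T : Type) m k (s : T → M.Fam ℂ), (∀ t, M.Sec m (s t)) →
    (∀ x, ∃ e ∈ M.C, x ∈ e.source ∧ LB k (e x) fun t => s t e) → GB M k s
  toGU : ∀ (M : Mf n) (V : M.Cov) (T : Type) m (s : T → M.Fam ℂ) B, (∀ t, M.Sec m (s t)) →
    (∀ t, GS V (s t) B) → GU M s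
  toGS : ∀ (M : Mf n) (V : M.Cov) (T : Type) (s : T → M.Fam ℂ), GU M s →
    ∃ B, 0 < B ∧ ∀ t, GS V (s t) B
  fix : ∀ (M : Mf n) (T : Type) m k (s : M.Fam ℂ), M.Sec m s → GB M k fun _ : T => s
  siz : ∀ (M : Mf n) (V : M.Cov) m k, Siz (secG M m) (GH V k)
  cptH : ∀ (M : Mf n) (V : M.Cov) m k, ∀ e ∈ M.C, ∀ K ⊆ e.target, IsCompact K → ∃ C, 0 ≤ C ∧
    ∀ s B, M.Sec m s → GH V k s B → HO k K (s e) (C * B)
  cptS : ∀ (M : Mf n) (V : M.Cov) m, ∀ e ∈ M.C, ∀ K ⊆ e.target, IsCompact K → ∃ C, 0 ≤ C ∧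
    ∀ s B, M.Sec m s → GS V s B → Su K (s e) (C * B)
  ip1 : ∀ (M : Mf n) (V : M.Cov) m (ε : ℝ), 0 < ε → ∃ C, 0 ≤ C ∧ ∀ s B B', M.Sec m s →
    GH V 2 s B → GS V s B' → GH V 1 s (ε * B + C * B')
  lc : ∀ (M : Mf n) (f : M.X → ℝ), M.Sm f → M.Sec 0 (M.lc f)
  lcS : ∀ (M : Mf n) (V : M.Cov) (f : M.X → ℝ) B, GS V (M.lc f) B → ∀ x, |f x| ≤ B
  lcS' : ∀ (M : Mf n) (V : M.Cov) (f : M.X → ℝ) B, (∀ x, |f x| ≤ B) → GS V (M.lc f) B

/-- Uniform global estimate. -/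
def St_UNI (n : ℕ) : Prop := ∀ (M : Mf n) (V : M.Cov) (T : Type) m k (L : T → Op M)
  (s : T → M.Fam ℂ), OB k L → (∀ t, M.Sec m (s t)) → GU M s →
    GB M k (fun t => (L t).ap (s t)) → GB M (k + 2) s

/-- Approximate solvability for large shifts. -/
def St_PAR (n : ℕ) : Prop := ∀ (M : Mf n) (V : M.Cov) m k (L : Op M), L.Ok m →
  ∃ τ0 : ℝ, ∀ τ, τ0 ≤ τ → Dns (secG M m) (secG M m) (GH V k) (L.sh τ)

/-- The estimate for the shifted operators. -/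
def St_EST (n : ℕ) : Prop := ∀ (M : Mf n) (V : M.Cov) m k (L : Op M) (t t' : ℝ), L.Ok m →
  L.Inj V m t → ∃ C, 0 ≤ C ∧ ∀ τ ∈ Icc t t', ∀ s B, M.Sec m s → GH V k (L.sh τ s) B →
    GH V (k + 2) s (C * B)

/-- Solvability of the linear equation. -/
def St_LIN (n : ℕ) : Prop := ∀ (M : Mf n) (V : M.Cov) m (L : Op M) (t : ℝ), L.Ok m →
  L.Inj V m t → ∀ f, M.Sec m f → ∃ s, M.Sec m s ∧ M.All fun e z => L.sh t s e z = f e z

/-- Control of the uniform norm by an integral norm. -/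
def St_L2 (n : ℕ) : Prop := ∀ (M : Mf n) [M.Cpt] (V : M.Cov) m (L : Op M) (t : ℝ)
  (μ : Measure M.X) (H : M.Fam (Mat n)) (φ : M.Fam ℝ) (q : M.Fam ℂ → M.X → ℝ), L.Ok m →
  M.Met H → M.IsMu H μ → (M.All fun e z => ContinuousAt (φ e) z) →
  (∀ s, M.Sec m s → M.Rep (q s) fun e z => ‖s e z‖ ^ 2 * Real.exp (φ e z)) →
  (∃ C, ∀ τ, t ≤ τ → ∀ s, M.Sec m s → ∫ x, q s x ∂μ ≤ C * ∫ x, q (L.sh τ s) x ∂μ) →
    L.Inj V m t

/-- The real linear equation for the Laplace operator. -/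
structure St_LINR (n : ℕ) : Prop where
  ok : ∀ (M : Mf n) (G : M.Fam (Mat n)), M.Met G → (lapOp G).Ok 0
  ap : ∀ (M : Mf n) (G : M.Fam (Mat n)) (w : M.X → ℝ), M.Met G → M.Sm w →
    M.All fun e z => (lapOp G).ap (M.lc w) e z = M.lc (M.lap G w) e z
  sm : ∀ (M : Mf n) (G : M.Fam (Mat n)) (w : M.X → ℝ), M.Met G → M.Sm w → M.Sm (M.lap G w)
  mx : ∀ (M : Mf n) [M.Cpt] (G : M.Fam (Mat n)) (w : M.X → ℝ) (t B : ℝ), M.Met G → M.Sm w →
    0 < t → (∀ x, |t * w x - M.lap G w x| ≤ B) → ∀ x, |w x| ≤ B / t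
  ex : ∀ (M : Mf n) [M.Cpt] (V : M.Cov) (G : M.Fam (Mat n)) (f : M.X → ℝ) (t : ℝ), M.Met G →
    M.Sm f → 0 < t → ∃ w, M.Sm w ∧ ∀ x, t * w x - M.lap G w x = f x

/-- Basic facts on the Monge-Ampère operator and the comparison principle. -/
structure St_CMP (n : ℕ) : Prop where
  kae : ∀ (M : Mf n) (H : M.Fam (Mat n)) v, M.Kae H → Adm H v → M.Kae (gv H v)
  rep : ∀ (M : Mf n) (H : M.Fam (Mat n)) (t : ℝ) v, M.Kae H → Adm H v → M.All fun e z =>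
    M.lc (ma H t v) e z = ld (gv H v e) z - ld (H e) z - t * M.lc v e z
  sm : ∀ (M : Mf n) (H : M.Fam (Mat n)) (t : ℝ) v, M.Kae H → Adm H v → M.Sm (ma H t v)
  zero : ∀ (M : Mf n) (H : M.Fam (Mat n)) (t : ℝ), M.Kae H →
    Adm H (fun _ => 0) ∧ ma H t (fun _ => 0) = fun _ => 0
  cmp : ∀ (M : Mf n) [M.Cpt] (H : M.Fam (Mat n)) (t B : ℝ) v v', M.Kae H → 0 < t → Adm H v →
    Adm H v' → (∀ x, |ma H t v x - ma H t v' x| ≤ B) → ∀ x, |v x - v' x| ≤ B / t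
  le : ∀ (M : Mf n) (T : Type) (H : M.Fam (Mat n)) (K : ℝ) (v : T → M.X → ℝ), M.Kae H → 0 < K →
    (∀ i, Adm H (v i)) → (∀ i, Pin H K (v i)) → M.All fun e z =>
      LE z (fun i => gv H (v i) e) ∧ ∀ p q, LS z fun i w => gv H (v i) e w p q

/-- The estimate of second order. -/
def St_C2 (n : ℕ) : Prop := ∀ (M : Mf n) [M.Cpt] (V : M.Cov) (T : Type) (H : M.Fam (Mat n))
  (t : ℝ) (v : T → M.X → ℝ), M.Kae H → 0 < t → (∀ i, Adm H (v i)) →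
    GB M 2 (fun i => M.lc (ma H t (v i))) → ∃ K, 0 < K ∧ ∀ i, Pin H K (v i)

/-- The estimate of third order. -/
def St_C3 (n : ℕ) : Prop := ∀ (M : Mf n) (T : Type) (H : M.Fam (Mat n)) (t K : ℝ)
  (v : T → M.X → ℝ), M.Kae H → 0 < t → 0 < K → (∀ i, Adm H (v i)) → (∀ i, Pin H K (v i)) →
    GB M 3 (fun i => M.lc (ma H t (v i))) →
      M.All fun e z => LBM 0 z fun i => gv H (v i) e

/-- All a priori estimates. -/
def St_APR (n : ℕ) : Prop := ∀ (M : Mf n) [M.Cpt] (V : M.Cov) (T : Type) (H : M.Fam (Mat n))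
  (t : ℝ) (k : ℕ) (v : T → M.X → ℝ), M.Kae H → 0 < t → 3 ≤ k → (∀ i, Adm H (v i)) →
    GB M k (fun i => M.lc (ma H t (v i))) →
      GB M (k + 2) (fun i => M.lc (v i)) ∧ ∃ K, 0 < K ∧ ∀ i, Pin H K (v i)

/-- The uniform estimate for the linearized equation. -/
def St_UNIA (n : ℕ) : Prop := ∀ (M : Mf n) [M.Cpt] (V : M.Cov) (T : Type) (H : M.Fam (Mat n))
  (t K : ℝ) (k : ℕ) (v w : T → M.X → ℝ), M.Kae H → 0 < t → 0 < K → (∀ i, Adm H (v i)) →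
    (∀ i, Pin H K (v i)) → GB M (k + 2) (fun i => M.lc (v i)) → (∀ i, M.Sm (w i)) →
    GB M k (fun i => M.lc fun x => t * w i x - M.lap (gv H (v i)) (w i) x) →
      GB M (k + 2) fun i => M.lc (w i)

/-- The quadratic remainder. -/
def St_REM (n : ℕ) : Prop := ∀ (M : Mf n) [M.Cpt] (V : M.Cov) (T : Type) (H : M.Fam (Mat n))
  (t K : ℝ) (k : ℕ) (v w : T → M.X → ℝ), M.Kae H → 0 < K → (∀ i, Adm H (v i)) →
    (∀ i, Pin H K (v i)) → GB M (k + 2) (fun i => M.lc (v i)) → (∀ i, M.Sm (w i)) →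
    GB M (k + 2) (fun i => M.lc (w i)) → ∃ h0 C : ℝ, 0 < h0 ∧ 0 ≤ C ∧ ∀ i h, 0 < h → h ≤ h0 →
      Adm H (fun x => v i x + h * w i x) ∧
      GH V k (M.lc fun x => ma H t (fun y => v i y + h * w i y) x - ma H t (v i) x -
        h * (M.lap (gv H (v i)) (w i) x - t * w i x)) (C * h ^ 2)

/-- Approximate solutions by steps of Euler. -/
def St_EUL (n : ℕ) : Prop := ∀ (M : Mf n) [M.Cpt] (V : M.Cov) (H : M.Fam (Mat n)) (t : ℝ)
  (F : M.X → ℝ) (k : ℕ) (ε : ℝ), M.Kae H → 0 < t → M.Sm F → 0 < ε →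
    ∃ v, Adm H v ∧ GH V k (M.lc fun x => ma H t v x - F x) ε

/-- The theorem of Aubin. -/
def St_AUB (n : ℕ) : Prop := ∀ (M : Mf n) [M.Cpt] (V : M.Cov) (H : M.Fam (Mat n)) (t : ℝ)
  (F : M.X → ℝ), M.Kae H → 0 < t → M.Sm F →
    ∃ v, M.Sm v ∧ M.Kae (gv H v) ∧ ∀ x, M.dq H (gv H v) x = Real.exp (t * v x + F x)

end Pool.Agent.Lib.HS21
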