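import Pool.Agent.Lib.HS21.LBlue
import Pool.Agent.Lib.HS32.EKit
import Pool.Agent.Lib.HS32.B_COF

/-! All a priori estimates for the Monge-Ampère equation. -/

open scoped Classical Topology ContDiff ComplexOrder Matrix
open Set Filter Complex Metric

set_option linter.unusedVariables false

noncomputable section

namespace Pool.Agent.Lib.HS21

open Pool.Agent.Lib.SV (E)
open Pool.Agent.Lib.HS32

namespace APR

variable {n : ℕ}

theorem hess_dz {f : E n → ℂ} {z : E n} (h : ∀ᶠ w in 𝓝 z, ContDiffAt ℝ ∞ f w) (l : Fin n) :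
    hess (dz l f) z = dM l (hess f) z := by
  ext i j
  change dzb i (dz j (dz l f)) z = dz l (dzb i (dz j f)) z
  rw [dz_dzb (cd_dz h.self_of_nhds j)]
  exact dzb_congr (h.mono fun w hw => dz_dz hw j l)

theorem fixT (hF : St_FAM n) (T : Type) (k : ℕ) {U : Set (E n)} (hU : IsOpen U) {z : E n}
    (hz : z ∈ U) (g : E n → ℂ) (hg : ∀ w ∈ U, ContDiffAt ℝ ∞ g w) : LB k z fun _ : T => g :=
  hF.fix T k z g (hg z hz) (mem_of_superset (hU.mem_nhds hz) hg)

theorem cst (hF : St_FAM n) (T : Type) (k : ℕ) (z : E n) (c : ℂ) :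
    LB k z fun (_ : T) (_ : E n) => c :=
  hF.scal T k z (fun _ => c) ‖c‖ fun _ => le_rfl

theorem step (hF : St_FAM n) (hF2 : St_FAM2 n) (hR : St_REG n) (hC : St_CMP n) (M : Mf n)
    (T : Type) (H : M.Fam (Mat n)) (t K : ℝ) (j : ℕ) (v : T → M.X → ℝ) (hH : M.Kae H)
    (hK : 0 < K) (hA : ∀ i, Adm H (v i)) (hP : ∀ i, Pin H K (v i))
    (hm : GB M (j + 1) fun i => M.lc (ma H t (v i))) (hv : GB M (j + 2) fun i => M.lc (v i)) :
    GB M (j + 3) fun i => M.lc (v i) := by
  intro e he z hz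
  have hU : e.target ∈ 𝓝 z := e.open_target.mem_nhds hz
  have hv' : LB (j + 2) z fun i => M.lc (v i) e := hv e he z hz
  have hsm : ∀ i, ∀ w ∈ e.target, ContDiffAt ℝ ∞ (M.lc (v i) e) w := fun i w hw =>
    cd_ofReal ((hA i).1 e he w hw)
  have hHs : ∀ w ∈ e.target, SmM (H e) w := fun w hw => hH.sm e he w hw
  have hG : LBM j z fun i => gv H (v i) e := fun p q =>
    hF.add T j z _ _ (fixT hF T j e.open_target hz _ fun w hw => hHs w hw p q)
      (hF.hess T j z _ hv' p q)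
  obtain ⟨hGi, hGe⟩ := hF2.inv T j z _ hG (hC.le M T H K v hH hK hA hP e he z hz).1
  have hlH : ∀ w ∈ e.target, ContDiffAt ℝ ∞ (ld (H e)) w := fun w hw =>
    ((stCOF n (H e) w (hHs w hw)).2.2.2.2.2
      (mem_of_superset (e.open_target.mem_nhds hw) fun x hx => hH.pos e he x hx)).1
  have hld : LB (j + 1) z fun i => ld (gv H (v i) e) := by
    refine hF.congr T (j + 1) z _ _ ?_ (hF.add T (j + 1) z _ _ (hF.add T (j + 1) z _ _
      (hm e he z hz) (fixT hF T (j + 1) e.open_target hz _ hlH))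
      (hF.mul T (j + 1) z _ _ (cst hF T (j + 1) z t) (hF.anti T (j + 2) (j + 1) z _ (by omega) hv')))
    filter_upwards [hU] with w hw i
    rw [hC.rep M H t (v i) hH (hA i) e he w hw]
    ring
  have hs : ∀ l, LB (j + 2) z fun i => dz l (M.lc (v i) e) := by
    intro l
    refine hR T j z (fun i w => (gv H (v i) e w)⁻¹) _ hGi hGe (hF.dz T (j + 1) z _ l hv').1 ?_
    have h1 : LBM j z fun _ : T => dM l (H e) := fun p q =>
      fixT hF T j e.open_target hz _ fun w hw => (hHs w hw).dM l p q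
    refine hF.congr T j z _ _ ?_ (hF.sub T j z _ _ (hF.dz T j z _ l hld).1
      (hF2.trace T j z _ (hF2.mmul T j z _ _ hGi h1)))
    filter_upwards [hU] with w hw i
    have hw' : e.target ∈ 𝓝 w := e.open_target.mem_nhds hw
    have h2 : SmM (hess (M.lc (v i) e)) w := smM_hess (hsm i w hw)
    have h3 : SmM (gv H (v i) e) w := (hHs w hw).add h2
    have h4 : dM l (gv H (v i) e) w = dM l (H e) w + dM l (hess (M.lc (v i) e)) w :=
      dM_add (hHs w hw) h2
    rw [((stCOF n _ w h3).2.2.2.2.2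
      (mem_of_superset hw' fun x hx => (hA i).2 e he x hx)).2.2 l, gam, h4,
      hess_dz (mem_of_superset hw' (hsm i)), Matrix.mul_add, Matrix.trace_add]
    ring
  have hsb : ∀ l, LB (j + 2) z fun i => dzb l (M.lc (v i) e) := by
    intro l
    refine hF.congr T (j + 2) z _ _ ?_ (hF.lin T (j + 2) z (conjCLE : ℂ →L[ℝ] ℂ) _ (hs l))
    filter_upwards [hU] with w hw i
    exact star_dz_ofReal (u := fun x => v i (e.symm x)) (cd_diff (hsm i w hw))
  refine hF.succ T (j + 2) z _ (hF.ls T _ z _ hv') fun p => ?_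
  refine hF.congr T (j + 2) z _ _ ?_ (hF.sum T (Fin n) (j + 2) z Finset.univ
    (fun l i w => dz l (M.lc (v i) e) w * bs n p l + dzb l (M.lc (v i) e) w * star (bs n p l))
    fun l _ => hF.add T _ z _ _ (hF.mul T _ z _ _ (hs l) (cst hF T _ z _))
      (hF.mul T _ z _ _ (hsb l) (cst hF T _ z _)))
  exact Eventually.of_forall fun w i => (fderiv_eq_sum _ w _).symm

theorem c0 (hF : St_FAM n) (hB : St_BR n) (hC : St_CMP n) (M : Mf n) [M.Cpt] (V : M.Cov)
    (T : Type) (H : M.Fam (Mat n)) (t : ℝ) (k : ℕ) (v : T → M.X → ℝ) (hH : M.Kae H) (ht : 0 < t)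
    (hA : ∀ i, Adm H (v i)) (hm : GB M k fun i => M.lc (ma H t (v i))) :
    GU M fun i => M.lc (v i) := by
  obtain ⟨B, -, h1⟩ := hB.toGS M V T _ fun e he z hz => hF.ls T k z _ (hm e he z hz)
  obtain ⟨h2, h3⟩ := hC.zero M H t hH
  refine hB.toGU M V T 0 _ (B / t) (fun i => hB.lc M _ (hA i).1) fun i => hB.lcS' M V _ _ fun x => ?_
  have h4 := hC.cmp M H t B (v i) (fun _ => 0) hH ht (hA i) h2 (fun y => by
    rw [h3, sub_zero]
    exact hB.lcS M V _ B (h1 i) y) x
  rwa [sub_zero] at h4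

theorem c2 (hF : St_FAM n) (hF2 : St_FAM2 n) (hB : St_BR n) (hU : St_UNI n) (M : Mf n)
    (V : M.Cov) (T : Type) (H : M.Fam (Mat n)) (v : T → M.X → ℝ) (hH : M.Kae H)
    (hA : ∀ i, Adm H (v i)) (h0 : GU M fun i => M.lc (v i))
    (h3 : M.All fun e z => LBM 0 z fun i => gv H (v i) e) : GB M 2 fun i => M.lc (v i) := by
  have key : M.All fun e z => LBM 0 z (fun _ : T => H e) ∧ LBM 0 z (fun (_ : T) w => (H e w)⁻¹) ∧
      LE z fun (_ : T) w => (H e w)⁻¹ := by
    intro e he z hz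
    have h1 : LBM 0 z fun _ : T => H e := fun p q =>
      fixT hF T 0 e.open_target hz _ fun w hw => hH.sm e he w hw p q
    exact ⟨h1, hF2.inv T 0 z _ h1 (hF2.leFix T z _
      (fun p q => (hH.sm e he z hz p q).continuousAt)
      (mem_of_superset (e.open_target.mem_nhds hz) fun x hx => hH.pos e he x hx))⟩
  refine hU M V T 0 0 (fun _ => lapOp H) _ (fun e he z hz => ?_) (fun i => hB.lc M _ (hA i).1) h0
    fun e he z hz => ?_
  · exact ⟨(key e he z hz).2.1, (key e he z hz).2.2, fun _ => cst hF T 0 z 0,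
      fun _ => cst hF T 0 z 0, cst hF T 0 z 0⟩
  · have h4 : LBM 0 z fun i w => gv H (v i) e w - H e w := fun p q =>
      hF.sub T 0 z _ _ (h3 e he z hz p q) ((key e he z hz).1 p q)
    refine hF.congr T 0 z _ _ ?_
      (hF2.trace T 0 z _ (hF2.mmul T 0 z _ _ (key e he z hz).2.1 h4))
    refine Eventually.of_forall fun w i => ?_
    simp [Op.ap, lop, lapOp, gv, Mf.hs]

end APR

theorem st_APR {n : ℕ} (hF : St_FAM n) (hF2 : St_FAM2 n) (hB : St_BR n) (hR : St_REG n)
    (hU : St_UNI n) (hC : St_CMP n) (h2 : St_C2 n) (h3 : St_C3 n) : St_APR n := by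
  intro M _ V T H t k v hH ht hk hA hm
  have ha : ∀ j, j ≤ k → GB M j fun i => M.lc (ma H t (v i)) := fun j hj e he z hz =>
    hF.anti T k j z _ hj (hm e he z hz)
  obtain ⟨K, hK, hP⟩ := h2 M V T H t v hH ht hA (ha 2 (by omega))
  refine ⟨?_, K, hK, hP⟩
  have h4 : ∀ j, j ≤ k → GB M (j + 2) fun i => M.lc (v i) := by
    intro j
    induction j with
    | zero =>
      exact fun _ => APR.c2 hF hF2 hB hU M V T H v hH hA (APR.c0 hF hB hC M V T H t k v hH ht hA hm)
        (h3 M T H t K v hH ht hK hA hP (ha 3 hk))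
    | succ j ih =>
      exact fun hj => APR.step hF hF2 hR hC M T H t K j v hH hK hA hP (ha _ hj) (ih (by omega))
  exact h4 k le_rfl

end Pool.Agent.Lib.HS21
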