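import Pool.Agent.Lib.HS21.LBlue
import Pool.Agent.Lib.HS32.MKit

/-! The theorem of Aubin from approximate solutions and a priori estimates. -/

open scoped Classical Topology ContDiff ComplexOrder Matrix
open Set Filter Complex Metric MeasureTheory

set_option linter.unusedVariables false

noncomputable section

namespace Pool.Agent.Lib.HS21

open Pool.Agent.Lib.SV (E)
open Pool.Agent.Lib.HS32

namespace AUB

variable {n : ℕ}

theorem bs0 (j : Fin n) : bs n ⟨j, 0⟩ = Pi.single j 1 := by simp [bs]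

theorem bs1 (j : Fin n) : bs n ⟨j, 1⟩ = Pi.single j I := by simp [bs]

theorem hess_eq {f : E n → ℂ} {z : E n} (h : ContDiffAt ℝ ∞ f z) (i j : Fin n) :
    hess f z i j = ((Dl [⟨i, 0⟩, ⟨j, 0⟩] f z - I * Dl [⟨i, 0⟩, ⟨j, 1⟩] f z) / 2 +
      I * ((Dl [⟨i, 1⟩, ⟨j, 0⟩] f z - I * Dl [⟨i, 1⟩, ⟨j, 1⟩] f z) / 2)) / 2 := by
  rw [hess_apply, dzb, fderiv_dz h, fderiv_dz h, dz, dz]
  simp only [Dl]
  unfold D
  simp only [bs0, bs1]

theorem hess_lim {f : ℕ → E n → ℂ} {g : E n → ℂ} {z : E n} (hf : ∀ k, ContDiffAt ℝ ∞ (f k) z)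
    (hg : ContDiffAt ℝ ∞ g z) (h : ∀ l, Tendsto (fun k => Dl l (f k) z) atTop (𝓝 (Dl l g z))) :
    Tendsto (fun k => hess (f k) z) atTop (𝓝 (hess g z)) := by
  refine tendsto_pi_nhds.2 fun i => tendsto_pi_nhds.2 fun j => ?_
  simp only [hess_eq (hf _), hess_eq hg]
  exact ((((h _).sub ((h _).const_mul _)).div_const _).add
    ((((h _).sub ((h _).const_mul _)).div_const _).const_mul _)).div_const _

theorem psd_lim {A : ℕ → Mat n} {B : Mat n} (h : Tendsto A atTop (𝓝 B))
    (hA : ∀ k, (A k).PosSemidef) : B.PosSemidef := by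
  rw [Matrix.posSemidef_iff_dotProduct_mulVec]
  refine ⟨?_, fun x => ?_⟩
  · have h1 : Tendsto (fun k => (A k)ᴴ) atTop (𝓝 Bᴴ) :=
      (continuous_id.matrix_conjTranspose.tendsto B).comp h
    have h2 : (fun k => (A k)ᴴ) = A := funext fun k => (hA k).1
    rw [h2] at h1
    exact tendsto_nhds_unique h1 h
  · have h1 : Continuous fun C : Mat n => star x ⬝ᵥ C *ᵥ x :=
      continuous_const.dotProduct (continuous_id.matrix_mulVec continuous_const)
    exact ge_of_tendsto' ((h1.tendsto B).comp h) fun k => (hA k).dotProduct_mulVec_nonneg x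

theorem dq_pos {A B : Mat n} (hA : A.PosDef) (hB : B.PosDef) : 0 < (A.det / B.det).re := by
  obtain ⟨a, ha, ea⟩ : ∃ a : ℝ, 0 < a ∧ A.det = a := by
    have := Complex.pos_iff.1 hA.det_pos
    exact ⟨A.det.re, this.1, Complex.ext rfl (by simp [← this.2])⟩
  obtain ⟨b, hb, eb⟩ : ∃ a : ℝ, 0 < a ∧ B.det = a := by
    have := Complex.pos_iff.1 hB.det_pos
    exact ⟨B.det.re, this.1, Complex.ext rfl (by simp [← this.2])⟩
  rw [ea, eb, ← Complex.ofReal_div, Complex.ofReal_re]
  exact div_pos ha hb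

end AUB

open AUB

theorem st_AUB {n : ℕ} (hK : St_HK n) (hF : St_FAM n) (hB : St_BR n) (hC : St_CMP n)
    (hA : St_APR n) (hE : St_EUL n) (hL : St_LIME n) : St_AUB n := by
  intro M _ V H t F hH ht hFs
  choose u hu hg using fun k : ℕ => hE M V H t F k (1 / ((k : ℝ) + 1)) hH ht hFs
    Nat.one_div_pos_of_nat
  have h0 : ∀ k x, |ma H t (u k) x - F x| ≤ 1 / ((k : ℝ) + 1) := fun k =>
    hB.lcS M V _ _ fun a => (hK.anti k 0 _ _ _ (Nat.zero_le k) (hg k a)).1
  have hz : Tendsto (fun k : ℕ => 1 / ((k : ℝ) + 1)) atTop (𝓝 0) :=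
    tendsto_one_div_add_atTop_nhds_zero_nat
  have hc : ∀ x, ∃ y, Tendsto (fun k => u k x) atTop (𝓝 y) := by
    intro x
    refine cauchySeq_tendsto_of_complete (cauchySeq_of_le_tendsto_0'
      (fun k : ℕ => (2 * (1 / ((k : ℝ) + 1))) / t) (fun k j hkj => ?_) ?_)
    · rw [Real.dist_eq]
      refine hC.cmp M H t _ _ _ hH ht (hu k) (hu j) (fun y => ?_) x
      have h1 := abs_le.1 (h0 k y)
      have h2 := abs_le.1 (h0 j y)
      have h3 : 1 / ((j : ℝ) + 1) ≤ 1 / ((k : ℝ) + 1) := Nat.one_div_le_one_div hkj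
      rw [abs_le]
      constructor <;> linarith
    · simpa using (hz.const_mul 2).div_const t
  choose v hv using hc
  have hgb : ∀ j, GB M j fun i => M.lc (ma H t (u (j + i))) := by
    intro j
    have h1 : GB M j fun i => M.lc fun x => ma H t (u (j + i)) x - F x := by
      refine hB.toGB M V ℕ 0 j _ 1
        (fun i => hB.lc M _ ((hC.sm M H t _ hH (hu _)).sub hFs)) fun i a => ?_
      refine hK.mono j _ _ _ _ _ Subset.rfl ?_
        (hK.anti (j + i) j _ _ _ (Nat.le_add_right j i) (hg (j + i) a))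
      have : (0 : ℝ) ≤ ((j + i : ℕ) : ℝ) := Nat.cast_nonneg _
      rw [div_le_one (by linarith)]
      linarith
    have h2 : GB M j fun _ : ℕ => M.lc F := hB.fix M ℕ 0 j _ (hB.lc M _ hFs)
    intro e he z hz
    refine hF.congr ℕ j z _ _ (Eventually.of_forall fun w i => ?_)
      (hF.add ℕ j z _ _ (h1 e he z hz) (h2 e he z hz))
    simp [Mf.lc]
  have hap := fun j (hj : 3 ≤ j) => hA M V ℕ H t j (fun i => u (j + i)) hH ht hj
    (fun i => hu _) (hgb j)
  have hlim : ∀ e ∈ M.C, SmO e.target (M.lc v e) ∧ ∀ l, ∀ z ∈ e.target,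
      Tendsto (fun j => Dl l (M.lc (u j) e) z) atTop (𝓝 (Dl l (M.lc v e) z)) := by
    intro e he
    refine hL e.target (fun j => M.lc (u j) e) (M.lc v e) e.open_target (fun z hz k => ?_)
      fun z hz => ?_
    · exact ⟨k + 3, hF.anti ℕ (k + 3 + 2) k z _ (by omega) ((hap (k + 3) (by omega)).1 e he z hz)⟩
    · exact (Complex.continuous_ofReal.tendsto _).comp (hv _)
  have hvs : M.Sm v := fun e he z hz => cd_re ((hlim e he).1 z hz)
  have hgv : M.All fun e z => Tendsto (fun j => gv H (u j) e z) atTop (𝓝 (gv H v e z)) :=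
    fun e he z hz => (hess_lim (fun k => (hu k).1.lc e he z hz) ((hlim e he).1 z hz)
      fun l => (hlim e he).2 l z hz).const_add _
  obtain ⟨K, hK0, hP⟩ := (hap 3 le_rfl).2
  have hadm : Adm H v := by
    refine ⟨hvs, fun e he z hz => ?_⟩
    have h1 : Tendsto (fun i => gv H (u (3 + i)) e z) atTop (𝓝 (gv H v e z)) :=
      (hgv e he z hz).comp (tendsto_atTop_mono (fun i => Nat.le_add_left i 3) tendsto_id)
    have h2 : ((K : ℂ) • gv H v e z - H e z).PosSemidef :=
      psd_lim ((h1.const_smul (K : ℂ)).sub_const (H e z)) fun i => (hP i).1 e he z hz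
    have h3 := (Matrix.PosDef.posSemidef_add h2 (hH.pos e he z hz)).smul
      (a := ((K⁻¹ : ℝ) : ℂ)) (by exact_mod_cast inv_pos.2 hK0)
    rwa [sub_add_cancel, smul_smul, ← Complex.ofReal_mul, inv_mul_cancel₀ hK0.ne',
      Complex.ofReal_one, one_smul] at h3
  refine ⟨v, hvs, hC.kae M H v hH hadm, fun x => ?_⟩
  have hp : 0 < M.dq H (gv H v) x := dq_pos (hadm.2.ch x) (hH.pos.ch x)
  have h1 : Tendsto (fun j => M.dq H (gv H (u j)) x) atTop (𝓝 (M.dq H (gv H v) x)) :=
    (Complex.continuous_re.tendsto _).comp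
      (((continuous_id.matrix_det.tendsto _).comp (hgv.ch x)).div_const _)
  have h2 : Tendsto (fun j => ma H t (u j) x) atTop (𝓝 (ma H t v x)) :=
    (h1.log hp.ne').sub ((hv x).const_mul t)
  have h3 : Tendsto (fun j => ma H t (u j) x) atTop (𝓝 (F x)) := by
    rw [tendsto_iff_dist_tendsto_zero]
    exact squeeze_zero (fun _ => dist_nonneg) (fun k => h0 k x) hz
  have h4 : Real.log (M.dq H (gv H v) x) - t * v x = F x := tendsto_nhds_unique h2 h3
  rw [← Real.exp_log hp]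
  congr 1
  linarith

end Pool.Agent.Lib.HS21
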