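import Pool.Agent.Lib.HS21.LBlue
import Pool.Agent.Lib.HS32.EKit
import Pool.Agent.Lib.HS32.B_TR

/-! Global sizes and bounded families. -/

open scoped Classical Topology ContDiff
open Set Filter Complex Metric

noncomputable section

namespace Pool.Agent.Lib.HS21

open Pool.Agent.Lib.SV (E)
open Pool.Agent.Lib.HS32

namespace BR

variable {n : ℕ}

section euc

variable {T : Type} {z : E n} {f g : T → E n → ℂ}

theorem ho_su {k : ℕ} {S : Set (E n)} {u : E n → ℂ} {B : ℝ} (h : HO k S u B) : Su S u B := by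
  cases k with
  | zero => exact h.1
  | succ k => exact h.1.1

theorem ho_empty : ∀ (k : ℕ) (u : E n → ℂ) (B : ℝ), HO k ∅ u B
  | 0, _, _ => ⟨fun _ h => h.elim, fun _ h => h.elim⟩
  | k + 1, _, B => ⟨⟨fun _ h => h.elim, fun _ h => h.elim⟩, fun _ => ho_empty k _ B⟩

theorem ls_mul (hf : LS z f) (hg : LS z g) : LS z fun t w => f t w * g t w := by
  obtain ⟨S, hS, A, hA⟩ := hf
  obtain ⟨S', hS', B, hB⟩ := hg
  refine ⟨S ∩ S', inter_mem hS hS', A * B, fun t =>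
    ⟨fun x hx => ((hA t).1 x hx.1).mul ((hB t).1 x hx.2), fun x hx => ?_⟩⟩
  have h1 := (hA t).2 x hx.1
  rw [norm_mul]
  exact mul_le_mul h1 ((hB t).2 x hx.2) (norm_nonneg _) ((norm_nonneg _).trans h1)

theorem ls_congr (h : ∀ᶠ w in 𝓝 z, ∀ t, f t w = g t w) (hf : LS z f) : LS z g := by
  obtain ⟨S, hS, A, hA⟩ := hf
  refine ⟨S ∩ {x | ∀ᶠ w in 𝓝 x, ∀ t, f t w = g t w}, inter_mem hS h.eventually_nhds, A,
    fun t => ⟨fun x hx => ((hA t).1 x hx.1).congr_of_eventuallyEq ?_, fun x hx => ?_⟩⟩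
  · exact Eventually.mono hx.2 fun w hw => (hw t).symm
  · rw [← Eventually.self_of_nhds hx.2 t]
    exact (hA t).2 x hx.1

theorem ls_glue {K : Set (E n)} (hK : IsCompact K) (h : ∀ z ∈ K, LS z f) :
    ∃ B, 0 < B ∧ ∀ t, Su K (f t) B := by
  refine hK.induction_on (p := fun K => ∃ B, 0 < B ∧ ∀ t, Su K (f t) B)
    ⟨1, one_pos, fun _ _ h => h.elim⟩ ?_ ?_ ?_
  · rintro s t hst ⟨B, hB, H⟩
    exact ⟨B, hB, fun u x hx => H u x (hst hx)⟩
  · rintro s t ⟨A, hA, H⟩ ⟨B, -, H'⟩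
    exact ⟨max A B, lt_max_of_lt_left hA, fun u x hx => hx.elim
      (fun hx => (H u x hx).trans (le_max_left _ _)) fun hx => (H' u x hx).trans (le_max_right _ _)⟩
  · intro x hx
    obtain ⟨S, hS, A, hA⟩ := h x hx
    exact ⟨S, mem_nhdsWithin_of_mem_nhds hS, max A 1, lt_max_of_lt_right one_pos,
      fun u y hy => ((hA u).2 y hy).trans (le_max_left _ _)⟩

end euc

variable {M : Mf n} {T : Type} {m k : ℕ}

theorem chg (hC : St_CHN) {e e0 : M.Ch} (he : e ∈ M.C) (he0 : e0 ∈ M.C) {z : E n}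
    (hz : z ∈ e.target) (hx : e.symm z ∈ e0.source) (m : ℕ) :
    ∀ᶠ w in 𝓝 z, ContDiffAt ℝ ∞ (e0 ∘ e.symm) w ∧
      ContDiffAt ℝ ∞ (fun w => (jm (e0 ∘ e.symm) w).det ^ m) w ∧
      ∀ s, M.Sec m s → s e0 ((e0 ∘ e.symm) w) * (jm (e0 ∘ e.symm) w).det ^ m = s e w := by
  have h := BTR.ov_nhds hx (e.map_target hz)
  rw [e.right_inv hz] at h
  filter_upwards [h] with w hw
  have h1 := BTR.holN he0 he hw.2 (e.map_target hw.1)
  rw [e.right_inv hw.1] at h1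
  have h2 := hC n _ _ h1
  refine ⟨h2.1, h2.2.1.det.pow m, fun s hs => ?_⟩
  have h3 := hs.cmp e0 he0 e he _ hw.2 (e.map_target hw.1)
  simp only [Mf.J, e.right_inv hw.1] at h3
  exact h3.symm

theorem toGB' (hF : St_FAM n) (hF2 : St_FAM2 n) (hC : St_CHN) {s : T → M.Fam ℂ}
    (hs : ∀ t, M.Sec m (s t))
    (h : ∀ x, ∃ e ∈ M.C, x ∈ e.source ∧ LB k (e x) fun t => s t e) : GB M k s := by
  intro e he z hz
  obtain ⟨e0, he0, hx, H⟩ := h (e.symm z)
  have h1 := chg hC he he0 hz hx m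
  exact hF.congr T k z _ _ (h1.mono fun w hw t => hw.2.2 _ (hs t))
    (hF.mul T k z _ _ (hF2.comp T k z _ (fun t => s t e0) (h1.mono fun w hw => hw.1) H)
      (hF.fix T k z _ h1.self_of_nhds.2.1 (h1.mono fun w hw => hw.2.1)))

theorem toGU' (hF : St_FAM n) (hF2 : St_FAM2 n) (hC : St_CHN) {s : T → M.Fam ℂ}
    (hs : ∀ t, M.Sec m (s t))
    (h : ∀ x, ∃ e ∈ M.C, x ∈ e.source ∧ LS (e x) fun t => s t e) : GU M s := by
  intro e he z hz
  obtain ⟨e0, he0, hx, H⟩ := h (e.symm z)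
  have h1 := chg hC he he0 hz hx m
  exact ls_congr (h1.mono fun w hw t => hw.2.2 _ (hs t))
    (ls_mul (hF2.compS T z _ (fun t => s t e0) (h1.mono fun w hw => hw.1) H)
      (hF.ls T 0 z _ (hF.fix T 0 z _ h1.self_of_nhds.2.1 (h1.mono fun w hw => hw.2.1))))

variable (V : M.Cov)

theorem ball_sub (a : Fin V.r) {c : ℝ} (hc : c ≤ 4) :
    closedBall (V.c a) (c * V.ρ a) ⊆ (V.e a).target :=
  (closedBall_subset_closedBall (mul_le_mul_of_nonneg_right hc (V.pos a).le)).trans (V.sub a)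

theorem kb_sub (a : Fin V.r) : Kb V a ⊆ (V.e a).target := ball_sub V a (by norm_num)

theorem kb_cpt (a : Fin V.r) : IsCompact (Kb V a) := isCompact_closedBall _ _

theorem kb_nhds (x : M.X) : ∃ a, x ∈ (V.e a).source ∧ Kb V a ∈ 𝓝 (V.e a x) := by
  obtain ⟨a, hx, hb, -⟩ := V.cov x
  have := V.pos a
  exact ⟨a, hx, mem_of_superset (isOpen_ball.mem_nhds hb)
    (ball_subset_closedBall.trans (closedBall_subset_closedBall (by linarith)))⟩

theorem kb_nn (a : Fin V.r) {u : E n → ℂ} {B : ℝ} (h : Su (Kb V a) u B) : 0 ≤ B :=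
  (norm_nonneg _).trans (h (V.c a) (mem_closedBall_self (by linarith [V.pos a])))

theorem kb_sm {s : M.Fam ℂ} (hs : M.Sec m s) (a : Fin V.r) : SmO (Kb V a) (s (V.e a)) :=
  fun x hx => hs.sm _ (V.mem a) x (kb_sub V a hx)

theorem le_sum {r : ℕ} {B : Fin r → ℝ} (h : ∀ a, 0 ≤ B a) (a : Fin r) : B a ≤ ∑ a, B a :=
  Finset.single_le_sum (fun i _ => h i) (Finset.mem_univ a)

theorem toGH (hHK : St_HK n) (hF : St_FAM n) {s : T → M.Fam ℂ} (h : GB M k s) :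
    ∃ B, 0 < B ∧ ∀ t, GH V k (s t) B := by
  choose B hB H using fun a => hF.glue T k (Kb V a) (fun t => s t (V.e a)) (kb_cpt V a)
    fun z hz => h _ (V.mem a) z (kb_sub V a hz)
  have h0 : 0 ≤ ∑ a, B a := Finset.sum_nonneg fun a _ => (hB a).le
  exact ⟨∑ a, B a + 1, by linarith, fun t a => hHK.mono k _ _ _ _ _ Subset.rfl
    (by linarith [le_sum (fun a => (hB a).le) a]) (H a t).2⟩

theorem toGS {s : T → M.Fam ℂ} (h : GU M s) : ∃ B, 0 < B ∧ ∀ t, GS V (s t) B := by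
  choose B hB H using fun a => ls_glue (f := fun t => s t (V.e a)) (kb_cpt V a)
    fun z hz => h _ (V.mem a) z (kb_sub V a hz)
  have h0 : 0 ≤ ∑ a, B a := Finset.sum_nonneg fun a _ => (hB a).le
  exact ⟨∑ a, B a + 1, by linarith, fun t a x hx => (H a t x hx).trans
    (by linarith [le_sum (fun a => (hB a).le) a])⟩

theorem toGB (hF : St_FAM n) (hF2 : St_FAM2 n) (hC : St_CHN) {s : T → M.Fam ℂ} {B : ℝ}
    (hs : ∀ t, M.Sec m (s t)) (h : ∀ t, GH V k (s t) B) : GB M k s := by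
  refine toGB' hF hF2 hC hs fun x => ?_
  obtain ⟨a, hx, ha⟩ := kb_nhds V x
  exact ⟨_, V.mem a, hx, _, ha, B, fun t => ⟨kb_sm V (hs t) a, h t a⟩⟩

theorem toGU (hF : St_FAM n) (hF2 : St_FAM2 n) (hC : St_CHN) {s : T → M.Fam ℂ} {B : ℝ}
    (hs : ∀ t, M.Sec m (s t)) (h : ∀ t, GS V (s t) B) : GU M s := by
  refine toGU' hF hF2 hC hs fun x => ?_
  obtain ⟨a, hx, ha⟩ := kb_nhds V x
  exact ⟨_, V.mem a, hx, _, ha, B, fun t => ⟨kb_sm V (hs t) a, h t a⟩⟩

theorem fix (hF : St_FAM n) (T : Type) (k : ℕ) {s : M.Fam ℂ} (hs : M.Sec m s) :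
    GB M k fun _ : T => s := fun e he z hz =>
  hF.fix T k z _ (hs.sm e he z hz)
    (Eventually.mono (e.open_target.mem_nhds hz) fun w hw => hs.sm e he w hw)

theorem siz (hHK : St_HK n) (hF : St_FAM n) : Siz (secG M m) (GH V k) where
  ex f hf := by
    obtain ⟨B, hB, H⟩ := toGH V hHK hF (fix hF Unit k hf)
    exact ⟨B, hB, H ()⟩
  mono f _ B B' hB h a := hHK.mono k _ _ _ _ _ Subset.rfl hB (h a)
  add f hf g hg B B' h h' a := hHK.add k _ _ _ _ _ (kb_sm V hf a) (kb_sm V hg a) (h a) (h' a)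
  neg f hf B h a := by
    have h1 := hHK.smul k _ (-1) _ _ (kb_sm V hf a) (h a)
    simp only [neg_mul, one_mul, norm_neg, norm_one] at h1
    exact h1

theorem sec_smul (c : ℂ) {s : M.Fam ℂ} (hs : M.Sec m s) : M.Sec m fun e z => c * s e z :=
  ⟨fun e he z hz => contDiffAt_const.mul (hs.sm e he z hz), fun e he e' he' x hx hx' => by
    simp only [hs.cmp e he e' he' x hx hx', mul_assoc]⟩

theorem nrm_inv {B : ℝ} (hB : 0 < B) : ‖(B : ℂ)⁻¹‖ * B = 1 := by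
  rw [norm_inv, Complex.norm_real, Real.norm_of_nonneg hB.le, inv_mul_cancel₀ hB.ne']

theorem aux_le {B C ε : ℝ} (hC : 0 < C) : C * (B + ε / C) = C * B + ε := by
  field_simp

theorem cptH (hHK : St_HK n) (hF : St_FAM n) (hF2 : St_FAM2 n) (hC : St_CHN) (m k : ℕ)
    {e : M.Ch} (he : e ∈ M.C) {K : Set (E n)} (hK : K ⊆ e.target) (hc : IsCompact K) :
    ∃ C, 0 ≤ C ∧ ∀ s B, M.Sec m s → GH V k s B → HO k K (s e) (C * B) := by
  have h1 : GB M k fun (p : {p : M.Fam ℂ × ℝ // M.Sec m p.1 ∧ 0 < p.2 ∧ GH V k p.1 p.2}) e z =>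
      (p.1.2 : ℂ)⁻¹ * p.1.1 e z :=
    toGB V hF hF2 hC (B := 1) (fun p => sec_smul _ p.2.1) fun p a => by
      rw [← nrm_inv p.2.2.1]
      exact hHK.smul k _ _ _ _ (kb_sm V p.2.1 a) (p.2.2.2 a)
  obtain ⟨C, hC0, H⟩ := hF.glue _ k K _ hc fun z hz => h1 e he z (hK hz)
  have h2 : ∀ s B, M.Sec m s → 0 < B → GH V k s B → HO k K (s e) (C * B) := fun s B hs hB h => by
    have h3 := hHK.smul k K B _ _ (H ⟨(s, B), hs, hB, h⟩).1 (H ⟨(s, B), hs, hB, h⟩).2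
    have h4 : (B : ℂ) ≠ 0 := ofReal_ne_zero.2 hB.ne'
    simp only [mul_inv_cancel_left₀ h4, Complex.norm_real, Real.norm_of_nonneg hB.le] at h3
    rw [mul_comm]
    exact h3
  refine ⟨C, hC0.le, fun s B hs h => ?_⟩
  rcases K.eq_empty_or_nonempty with rfl | ⟨z, -⟩
  · exact ho_empty _ _ _
  obtain ⟨a, -⟩ := V.cov (e.symm z)
  have h0 := kb_nn V a (ho_su (h a))
  refine hHK.closed k K _ _ fun ε hε => ?_
  have h5 := div_pos hε hC0
  rw [← aux_le hC0]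
  exact h2 s _ hs (by linarith) fun a => hHK.mono k _ _ _ _ _ Subset.rfl (by linarith) (h a)

theorem cptS (hF : St_FAM n) (hF2 : St_FAM2 n) (hC : St_CHN) (m : ℕ)
    {e : M.Ch} (he : e ∈ M.C) {K : Set (E n)} (hK : K ⊆ e.target) (hc : IsCompact K) :
    ∃ C, 0 ≤ C ∧ ∀ s B, M.Sec m s → GS V s B → Su K (s e) (C * B) := by
  have h1 : GU M fun (p : {p : M.Fam ℂ × ℝ // M.Sec m p.1 ∧ 0 < p.2 ∧ GS V p.1 p.2}) e z =>
      (p.1.2 : ℂ)⁻¹ * p.1.1 e z :=
    toGU V hF hF2 hC (B := 1) (fun p => sec_smul _ p.2.1) fun p a x hx => by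
      rw [← nrm_inv p.2.2.1, norm_mul]
      exact mul_le_mul_of_nonneg_left (p.2.2.2 a x hx) (norm_nonneg _)
  obtain ⟨C, hC0, H⟩ := ls_glue hc fun z hz => h1 e he z (hK hz)
  have h2 : ∀ s B, M.Sec m s → 0 < B → GS V s B → Su K (s e) (C * B) := fun s B hs hB h z hz => by
    have h3 := H ⟨(s, B), hs, hB, h⟩ z hz
    simp only [norm_mul, norm_inv, Complex.norm_real, Real.norm_of_nonneg hB.le] at h3
    rw [mul_comm]
    exact (inv_mul_le_iff₀ hB).1 h3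
  refine ⟨C, hC0.le, fun s B hs h z hz => ?_⟩
  obtain ⟨a, -⟩ := V.cov (e.symm z)
  have h0 := kb_nn V a (h a)
  refine le_of_forall_pos_le_add fun ε hε => ?_
  have h5 := div_pos hε hC0
  rw [← aux_le hC0]
  exact h2 s _ hs (by linarith) (fun a x hx => (h a x hx).trans (by linarith)) z hz

theorem ip1 (hHK : St_HK n) (hI : St_INTP n) (hF : St_FAM n) (hF2 : St_FAM2 n) (hC : St_CHN)
    (m : ℕ) {ε : ℝ} (hε : 0 < ε) : ∃ C, 0 ≤ C ∧ ∀ s B B', M.Sec m s →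
      GH V 2 s B → GS V s B' → GH V 1 s (ε * B + C * B') := by
  have hs3 := fun a => ball_sub V a (c := 3) (by norm_num)
  choose A hA HA using fun a =>
    cptH V hHK hF hF2 hC m 2 (V.mem a) (hs3 a) (isCompact_closedBall _ _)
  choose A' hA' HA' using fun a => cptS V hF hF2 hC m (V.mem a) (hs3 a) (isCompact_closedBall _ _)
  have hp : ∀ a, 0 < A a + 1 := fun a => by linarith [hA a]
  choose C hC0 H using fun a => hI.ip1 (ε / (A a + 1)) (V.ρ a) (div_pos hε (hp a)) (V.pos a)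
  have hn : ∀ a, 0 ≤ C a * A' a := fun a => mul_nonneg (hC0 a) (hA' a)
  refine ⟨∑ a, C a * A' a, Finset.sum_nonneg fun a _ => hn a, fun s B B' hs h h' a => ?_⟩
  have hB := kb_nn V a (ho_su (h a))
  have hB' := kb_nn V a (h' a)
  refine hHK.mono 1 _ _ _ _ _ Subset.rfl ?_ (H a (Kb V a) _ (s (V.e a)) _ _ (fun x hx => ?_)
    (fun x hx => hs.sm _ (V.mem a) x (hs3 a hx)) (HA a s B hs h) (HA' a s B' hs h'))
  · refine add_le_add ?_ ?_
    · rw [← mul_assoc]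
      refine mul_le_mul_of_nonneg_right ?_ hB
      rw [div_mul_eq_mul_div, div_le_iff₀ (hp a)]
      nlinarith
    · rw [← mul_assoc]
      exact mul_le_mul_of_nonneg_right (le_sum hn a) hB'
  · refine closedBall_subset_closedBall' ?_
    have := mem_closedBall.1 hx
    linarith

end BR

open BR in
theorem st_BR {n : ℕ} (hHK : St_HK n) (hI : St_INTP n) (hF : St_FAM n) (hF2 : St_FAM2 n)
    (hC : St_CHN) : St_BR n where
  toGH _ V _ _ _ h := toGH V hHK hF h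
  toGB _ V _ _ _ _ _ hs h := toGB V hF hF2 hC hs h
  toGB' _ _ _ _ _ hs h := toGB' hF hF2 hC hs h
  toGU _ V _ _ _ _ hs h := toGU V hF hF2 hC hs h
  toGS _ V _ _ h := toGS V h
  fix _ T _ k _ hs := fix hF T k hs
  siz _ V _ _ := siz V hHK hF
  cptH _ V m k _ he _ hK hc := cptH V hHK hF hF2 hC m k he hK hc
  cptS _ V m _ he _ hK hc := cptS V hF hF2 hC m he hK hc
  ip1 _ V m _ hε := ip1 V hHK hI hF hF2 hC m hε
  lc _ f hf := ⟨fun e he z hz => cd_ofReal (hf e he z hz), fun e _ e' _ x hx hx' => by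
    simp only [Mf.lc, e.left_inv hx, e'.left_inv hx', pow_zero, mul_one]⟩
  lcS _ V f B h x := by
    obtain ⟨a, hx, ha⟩ := kb_nhds V x
    have h1 := h a _ (mem_of_mem_nhds ha)
    simpa only [Mf.lc, (V.e a).left_inv hx, Complex.norm_real, Real.norm_eq_abs] using h1
  lcS' _ V f B h a z _ := by
    simpa only [Mf.lc, Complex.norm_real, Real.norm_eq_abs] using h _

end Pool.Agent.Lib.HS21
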