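import Pool.Agent.Lib.HS21.LBlue
import Pool.Agent.Lib.HS.B_CLG

/-! The estimate of second order for the Monge-Ampère equation. -/

open scoped Topology ComplexOrder Matrix
open Set Filter Complex Metric

noncomputable section

namespace Pool.Agent.Lib.HS21

open Pool.Agent.Lib.SV (E)
open Pool.Agent.Lib.HS32 Pool.Agent.Lib.HS32.Mf Pool.Agent.Lib.HS76

namespace C2

variable {n : ℕ}

lemma qq_ge {G H : E n → Mat n} {z : E n} {C : ℝ} (hG : (G z).PosDef) (hH : (H z).PosSemidef)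
    (h : ∀ a b v w, normSq (rm H z a b v w) ≤
      C * (nq (H z) a * nq (H z) b * nq (H z) v * nq (H z) w)) :
    -(√C * ((G z)⁻¹ * H z).trace.re ^ 2) ≤ (qq G H z).re := by
  obtain ⟨W, hW⟩ := psd_eq_mul hG.inv.posSemidef
  have h0 : ∀ v, 0 ≤ nq (H z) v := fun v => (nonneg_iff.1 (hH.dotProduct_mulVec_nonneg v)).1
  have e : ∀ k l, (G z)⁻¹ k l = ∑ a, W k a * star (W l a) := fun k l => by
    rw [hW, Matrix.mul_apply]; rfl
  have e1 : qq G H z = -∑ a, ∑ b, rm H z (fun k => W k a) (fun k => W k a) (fun k => W k b)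
      fun k => W k b := by
    simp only [qq, rm, ← q4_fam, Matrix.mul_assoc]
    rw [← q2_fam, q2_eq_sum _ (fun a k => W k a) (fun a k => W k a) e e]
  have e2 : ((G z)⁻¹ * H z).trace.re = ∑ a, nq (H z) fun k => W k a := by
    rw [hW, Matrix.mul_assoc, Matrix.trace_mul_comm, Matrix.mul_assoc, Matrix.trace, re_sum]
    rfl
  rw [e1, e2, neg_re, neg_le_neg_iff, sq, Finset.sum_mul_sum, Finset.mul_sum, re_sum]
  refine Finset.sum_le_sum fun a _ => ?_
  rw [Finset.mul_sum, re_sum]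
  refine Finset.sum_le_sum fun b _ => (re_le_norm _).trans ?_
  rw [← Real.sqrt_sq (mul_nonneg (h0 _) (h0 _)), ← Real.sqrt_mul' _ (sq_nonneg _)]
  refine Real.le_sqrt_of_sq_le ?_
  rw [← normSq_eq_norm_sq]
  exact (h _ _ _ _).trans_eq (by ring)

variable {M : Mf n} {H : M.Fam (Mat n)}

lemma psd_all {T : M.Fam (Mat n)} (hT : M.Ten T)
    (h : ∀ x, ∃ e ∈ M.C, x ∈ e.source ∧ (T e (e x)).PosSemidef) :
    M.All fun e z => (T e z).PosSemidef := allOn_of_source fun e' he' x hx => by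
  obtain ⟨e, he, hx', hp⟩ := h x
  rw [hT.cmp e he e' he' x hx' hx]
  exact hp.conjTranspose_mul_mul_same _

lemma hess_bd [M.Cpt] (hF : St_FAM n) (hB : St_BR n) (hE : St_HES) (hD : St_BD) (V : M.Cov)
    (hH : M.Met H) {T : Type} {f : T → M.X → ℝ} (hs : ∀ i, M.Sm (f i))
    (hf : GB M 2 fun i => M.lc (f i)) : ∃ c : ℝ, 0 ≤ c ∧ ∀ i, M.Le (M.hs (f i)) (c • H) := by
  choose B hB0 hBb using fun p q : Fin n => hB.toGH M V T 0 (fun i e z => M.hs (f i) e z p q)
    fun e he z hz => hF.hess T 0 z _ (hf e he z hz) p q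
  have hsub : ∀ a, Kb V a ⊆ (V.e a).target := fun a =>
    (closedBall_subset_closedBall (by linarith [V.pos a])).trans (V.sub a)
  choose C hC1 hC using fun a => (hD n M H hH).2.2.1 _ (V.mem a) (Kb V a)
    (isCompact_closedBall _ _) (hsub a)
  have hC0 : ∀ a, 0 ≤ C a := fun a => zero_le_one.trans (hC1 a)
  have p1 : 0 ≤ ∑ p, ∑ q, B p q := Finset.sum_nonneg fun p _ => Finset.sum_nonneg fun q _ =>
    (hB0 p q).le
  have p2 : (0 : ℝ) ≤ Fintype.card (Fin n) * ∑ p, ∑ q, B p q := by positivity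
  refine ⟨(Fintype.card (Fin n) * ∑ p, ∑ q, B p q) * ∑ a, C a,
    mul_nonneg p2 (Finset.sum_nonneg fun a _ => hC0 a), fun i => ?_⟩
  have hc := (hE n M).1 _ (hs i)
  refine psd_all ((hH.toTen.smul _).sub hc.toTen) fun x => ?_
  obtain ⟨a, h1, h2, -⟩ := V.cov x
  have hz : V.e a x ∈ Kb V a :=
    ball_subset_closedBall (ball_subset_ball (by linarith [V.pos a]) h2)
  refine ⟨_, V.mem a, h1, ?_⟩
  have h3 := le_of_entry (hc.herm _ (V.mem a) _ (hsub a hz)) (c := ∑ p, ∑ q, B p q) fun p q =>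
    ((hBb p q i a).1 _ hz).trans ((Finset.single_le_sum (fun q _ => (hB0 p q).le)
      (Finset.mem_univ q)).trans (Finset.single_le_sum (f := fun p => ∑ q, B p q)
        (fun p _ => Finset.sum_nonneg fun q _ => (hB0 p q).le) (Finset.mem_univ p)))
  have h4 := (hH.le_smul (Finset.single_le_sum (fun a _ => hC0 a) (Finset.mem_univ a)) _ (V.mem a)
    _ (hsub a hz)).add (hC a _ hz).1
  have h5 := (psd_rsmul h4 p2).add h3
  simp only [Pi.smul_apply, sub_add_sub_cancel, smul_sub, smul_smul, coe_smul] at h5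
  exact h5

lemma last {S L g en ip q c t : ℝ} (hS : 0 < S) (h1 : L = en + ip + q) (h2 : g ≤ S * en)
    (h3 : -(c * S ^ 2) - t * S ≤ ip + q) : -(c * S) - t ≤ S⁻¹ * L + -(S ^ 2)⁻¹ * g := by
  have e : S⁻¹ * L + -(S ^ 2)⁻¹ * g - (-(c * S) - t) =
      (S * en - g + S * (ip + q - (-(c * S ^ 2) - t * S))) / S ^ 2 := by
    rw [h1]; field_simp; ring
  have : 0 ≤ (S * en - g + S * (ip + q - (-(c * S ^ 2) - t * S))) / S ^ 2 :=
    div_nonneg (add_nonneg (sub_nonneg.2 h2) (mul_nonneg hS.le (sub_nonneg.2 h3))) (sq_nonneg S)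
  linarith

lemma tr_bd [M.Cpt] (hI : St_INV) (hL : St_LAP) (hE : St_HES) (hn : 0 < n) (hH : M.Kae H)
    {v : M.X → ℝ} (hv : M.Sm v) (hG : M.Kae (gv H v)) {c C t b : ℝ} (hc : 0 ≤ c)
    (hC : M.All fun e z => ∀ a b v w, normSq (rm (H e) z a b v w) ≤
      C * (nq (H e z) a * nq (H e z) b * nq (H e z) v * nq (H e z) w))
    (hr : M.Le (-(c • H) - t • gv H v) (M.ric (gv H v))) (hb : ∀ x, |v x| ≤ b) (x : M.X) :
    M.tr (gv H v) H x ≤ (t + (c + √C + 1) * n) * Real.exp ((c + √C + 1) * (2 * b)) := by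
  obtain ⟨hS, hp, h3, -⟩ := HS.st_CLG hI hL hE n M _ H hG hH
  have hp := hp hn
  set A := c + √C + 1 with hA
  have hA0 : 0 < A := by positivity
  have hl := hS.log fun y => (hp y).ne'
  have hw := hv.const_mul A
  obtain ⟨y, hy⟩ := (hl.sub hw).exists_max
  have a1 := ((((hL n M _ _ (hl.sub hw) hv).2.2 _ hG.toMet).2.2.1 y 0).2.2.2.2.2.2.2.2.1
    (Eventually.of_forall hy)).1
  rw [(((hL n M _ _ hl hw).2.2 _ hG.toMet).2.2.1 y 0).2.2.1,
    (((hL n M _ _ hv hv).2.2 _ hG.toMet).2.2.1 y A).2.2.2.1,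
    (((hL n M _ _ hS hS).2.2 _ hG.toMet).2.2.2.1 Real.log
      (fun y => Real.contDiffAt_log.2 (hp y).ne') y).1, HS.CLG.deriv2_log, Real.deriv_log] at a1
  have a2 : M.lap (gv H v) v y = n - M.tr (gv H v) H y := by
    rw [← hG.toMet.tr_self (x := y), ← tr_sub, lap]
    exact congrFun (tr_congr (fun _ _ _ _ => rfl) fun _ _ _ _ => (add_sub_cancel_left _ _).symm) y
  obtain ⟨b1, -, b2⟩ := AllOn.ch h3 y
  rw [ch_symm] at b1 b2
  have gp := hG.toMet.ev_pos y
  have hp' := (hH.toMet.ev_pos y).posSemidef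
  have b3 : -(√C * M.tr (gv H v) H y ^ 2) ≤ _ := qq_ge (G := gv H v (M.ch y)) gp hp' (AllOn.ch hC y)
  have b4 : M.ip (gv H v) H (-(c • H) - t • gv H v) y ≤ M.ip (gv H v) H (M.ric (gv H v)) y :=
    tr_mul_mono (conj_inv_psd gp hp') (AllOn.ch hr y)
  rw [ip_sub, ← neg_smul, ip_smul, ip_smul, hG.toMet.ip_self] at b4
  have b5 := tr2_le_sq gp hp'
  rw [← mul_assoc] at b5
  have b6 : M.ip (gv H v) H H y ≤ M.tr (gv H v) H y ^ 2 := b5
  have a3 := last (c := c + √C) (t := t) (hp y) b1 b2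
    (by nlinarith [mul_le_mul_of_nonneg_left b6 hc])
  have a4 : M.tr (gv H v) H y ≤ t + A * n := by rw [a2] at a1; nlinarith
  have a5 : Real.log (M.tr (gv H v) H x) ≤ Real.log (M.tr (gv H v) H y) + A * (2 * b) := by
    nlinarith [hy x, abs_le.1 (hb x), abs_le.1 (hb y)]
  rw [Real.log_le_iff_le_exp (hp x), Real.exp_add, Real.exp_log (hp y)] at a5
  exact a5.trans (mul_le_mul_of_nonneg_right a4 (Real.exp_pos _).le)

lemma smul_mono {A B : Mat n} (hA : A.PosSemidef) {a b : ℝ} (hab : a ≤ b)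
    (h : ((a : ℂ) • A - B).PosSemidef) : ((b : ℂ) • A - B).PosSemidef := by
  have := (psd_rsmul hA (sub_nonneg.2 hab)).add h
  rwa [sub_smul, ← coe_smul, ← coe_smul, sub_add_sub_cancel] at this

end C2

theorem st_C2 {n : ℕ} (hF : St_FAM n) (hB : St_BR n) (hM : St_CMP n) (hI : St_INV) (hL : St_LAP)
    (hE : St_HES) (hD : St_BD) : St_C2 n := by
  intro M _ V T H t v hH ht hv hf
  rcases Nat.eq_zero_or_pos n with rfl | hn
  · have h0 : ∀ A : Mat 0, A.PosSemidef := fun A => Subsingleton.elim 0 A ▸ .zero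
    exact ⟨1, one_pos, fun i => ⟨fun _ _ _ _ => h0 _, fun _ _ _ _ => h0 _⟩⟩
  have hs := fun i => hM.sm M H t _ hH (hv i)
  have hG := fun i => hM.kae M H _ hH (hv i)
  obtain ⟨B, hB0, hBb⟩ := hB.toGH M V T 2 _ hf
  have hFb := fun i => hB.lcS M V _ B fun a => (hBb i a).1.1
  obtain ⟨z1, z2⟩ := hM.zero M H t hH
  have hvb : ∀ i x, |v i x| ≤ B / t := fun i x => by
    simpa using hM.cmp M H t B _ _ hH ht (hv i) z1 (by simpa [z2] using hFb i) x
  obtain ⟨c₁, hc₁, h1⟩ := C2.hess_bd hF hB hE hD V hH.toMet hs hf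
  obtain ⟨c₂, hc₂, -, h2⟩ := (hD n M H hH.toMet).1 _ ((hE n M).2.2.2.2.2.2.2.2.1 H hH.toMet).toForm
  obtain ⟨C, -, hC⟩ := (hD n M H hH.toMet).2.1
  have e1 : ∀ i, (fun x => Real.log (M.dq H (gv H (v i)) x)) =
      fun x => ma H t (v i) x + t * v i x := fun i => funext fun x => (sub_add_cancel _ _).symm
  have hr : ∀ i, M.Le (-((c₁ + c₂) • H) - t • gv H (v i)) (M.ric (gv H (v i))) :=
    fun i e he z hz => by
      have a1 := ((hE n M).2.2.2.2.2.2.2.2.2 _ H (hG i).toMet hH.toMet).2 e he z hz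
      beta_reduce at a1 ⊢
      rw [e1, ((hL n M _ _ (hs i) ((hv i).1.const_mul t)).1 0 e he z hz).2.1,
        ((hL n M _ _ (hv i).1 (hv i).1).1 t e he z hz).2.2.2.1] at a1
      have a2 := ((h1 i e he z hz).add (h2 e he z hz)).add
        (psd_rsmul (hH.pos e he z hz).posSemidef ht.le)
      rw [a1]
      simp only [Pi.neg_apply, Pi.smul_apply, Pi.sub_apply, Pi.add_apply, add_smul, gv,
        smul_add] at a2 ⊢
      refine (congrArg Matrix.PosSemidef ?_).mp a2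
      abel
  have hc : 0 ≤ c₁ + c₂ := by positivity
  have ht' := fun i => C2.tr_bd hI hL hE hn hH (hv i).1 (hG i) hc hC (hr i) (hvb i)
  set K := (t + (c₁ + c₂ + √C + 1) * n) * Real.exp ((c₁ + c₂ + √C + 1) * (2 * (B / t)))
  have hK : 0 < K := by positivity
  have p1 : ∀ i, M.Le H fun e z => (K : ℂ) • gv H (v i) e z := fun i e he z hz =>
    le_tr_smul ((hG i).pos e he z hz) (hH.pos e he z hz).posSemidef
      ((((hI n M _ (hG i).toMet).1 H hH.toTen).1 e he z hz).symm.trans_le (ht' i _))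
  have p2 : 0 ≤ Real.exp (2 * B) / K⁻¹ ^ (Fintype.card (Fin n) - 1) := by positivity
  refine ⟨K + Real.exp (2 * B) / K⁻¹ ^ (Fintype.card (Fin n) - 1), by positivity, fun i =>
    ⟨fun e he z hz => C2.smul_mono ((hG i).pos e he z hz).posSemidef (le_add_of_nonneg_right p2)
      (p1 i e he z hz), fun e he z hz => C2.smul_mono (hH.pos e he z hz).posSemidef
        (le_add_of_nonneg_left hK.le) (le_of_det_le (hH.pos e he z hz) ((hG i).herm e he z hz)
          (inv_pos.2 hK) ?_ ?_)⟩⟩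
  · have := psd_rsmul (p1 i e he z hz) (inv_pos.2 hK).le
    beta_reduce at this
    rwa [smul_sub, coe_smul, smul_smul, inv_mul_cancel₀ hK.ne', one_smul, ← coe_smul] at this
  · rw [((hI n M H hH.toMet).2.1 _ (hG i).toForm e he z hz).2.2]
    refine mul_le_mul_of_nonneg_right ?_ (pd_det_re (hH.pos e he z hz)).le
    rw [← Real.log_le_iff_le_exp
      (((hI n M H hH.toMet).2.2.2.2.2.2.2 _ (hG i).toMet).1 _), congrFun (e1 i)]
    have := (le_div_iff₀' ht).1 (abs_le.1 (hvb i (e.symm z))).2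
    linarith [(abs_le.1 (hFb i (e.symm z))).2]

end Pool.Agent.Lib.HS21
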