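import Pool.Agent.Lib.HS21.LBlue
import Pool.Agent.Lib.HS32.MKit
import Pool.Agent.Lib.HS76.Pt

/-! Basic facts on the Monge-Ampère operator and the comparison principle. -/

open scoped Classical Topology ContDiff ComplexOrder Matrix
open Set Filter Complex Metric

noncomputable section

namespace Pool.Agent.Lib.HS21

open Pool.Agent.Lib.SV (E)
open Pool.Agent.Lib.HS32

namespace CMP

variable {n : ℕ} {M : Mf n} {H : M.Fam (Mat n)}

theorem kae (hHES : St_HES) {v : M.X → ℝ} (hH : M.Kae H) (hv : Adm H v) : M.Kae (gv H v) :=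
  ⟨hH.toClo.add ((hHES n M).1 v hv.1), hv.2⟩

theorem gv_zero (H : M.Fam (Mat n)) : gv H (fun _ => 0) = H := by
  funext e z
  have h : M.hs (fun _ => 0) e z = 0 := by
    have h1 : M.lc (fun _ => 0) e = fun _ => 0 := by
      funext w
      simp [Mf.lc]
    have h2 : ∀ j : Fin n, dz j (fun _ : E n => (0 : ℂ)) = fun _ => 0 := by
      intro j
      funext w
      simp [dz]
    ext i j
    simp [Mf.hs, h1, hess, h2, dzb]
  simp [gv, h]

theorem dq_eq {T : M.Fam (Mat n)} (hH : M.Met H) (hT : M.Met T) (x : M.X) :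
    M.dq H T x = (M.ev T x).det.re / (M.ev H x).det.re := by
  rw [Mf.dq, ← Mf.herm_det (hH.ev_pos x).1, ← Mf.herm_det (hT.ev_pos x).1, ← ofReal_div,
    ofReal_re, ofReal_re, ofReal_re]

theorem one_side (hHES : St_HES) (hMAXE : St_MAXE) [M.Cpt] {t B : ℝ} {v v' : M.X → ℝ}
    (hH : M.Kae H) (ht : 0 < t) (hv : Adm H v) (hv' : Adm H v')
    (hB : ∀ x, ma H t v' x - ma H t v x ≤ B) (x : M.X) : v x - v' x ≤ B / t := by
  obtain ⟨y, hy⟩ := (hv.1.sub hv'.1).exists_max
  refine (hy x).trans ?_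
  have hs := hv.1.sub hv'.1 _ (Mf.ch_mem y) _ (Mf.ch_tgt y)
  have hm : IsLocalMax ((fun x => v x - v' x) ∘ (M.ch y).symm) (M.ch y y) := by
    refine Eventually.of_forall fun w => ?_
    simp only [Function.comp, Mf.ch_symm]
    exact hy _
  have h1 := (hMAXE n _ _ hs hm).1
  have h2 : (fun w => ((((fun x => v x - v' x) ∘ (M.ch y).symm) w : ℝ) : ℂ))
      = fun w => M.lc v (M.ch y) w - M.lc v' (M.ch y) w := by
    funext w
    simp [Mf.lc]
  rw [h2, hess_sub (hv.1.lc _ (Mf.ch_mem y) _ (Mf.ch_tgt y))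
    (hv'.1.lc _ (Mf.ch_mem y) _ (Mf.ch_tgt y))] at h1
  have hk := (kae hHES hH hv).toMet
  have hk' := (kae hHES hH hv').toMet
  have h3 : (M.ev (gv H v') y - M.ev (gv H v) y).PosSemidef := by
    convert h1 using 1
    simp only [Mf.ev, gv, Mf.hs]
    abel
  have h4 := HS76.det_mono (hk.ev_pos y) h3
  have h5 := Mf.pd_det_re (hH.toMet.ev_pos y)
  have h6 := Mf.pd_det_re (hk.ev_pos y)
  have h7 : Real.log (M.dq H (gv H v) y) ≤ Real.log (M.dq H (gv H v') y) := by
    rw [dq_eq hH.toMet hk, dq_eq hH.toMet hk']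
    exact Real.log_le_log (div_pos h6 h5) (div_le_div_of_nonneg_right h4 h5.le)
  have h8 := hB y
  simp only [ma] at h8
  rw [le_div_iff₀ ht]
  nlinarith

theorem re_smul (K : ℝ) (A : Mat n) (u : E n) :
    (star u ⬝ᵥ ((K : ℂ) • A) *ᵥ u).re = K * (star u ⬝ᵥ A *ᵥ u).re := by
  rw [Matrix.smul_mulVec, dotProduct_smul, smul_eq_mul, re_ofReal_mul]

theorem ell_of_le {κ K : ℝ} {A G : Mat n} (hK : 0 < K) (hA : EllH κ A) (hG : G.IsHermitian)
    (h : ((K : ℂ) • G - A).PosSemidef) : EllH (κ / K) G := by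
  refine ⟨hG, fun u => ?_⟩
  have h1 := (Complex.nonneg_iff.1 (h.dotProduct_mulVec_nonneg u)).1
  rw [Matrix.sub_mulVec, dotProduct_sub, sub_re, re_smul] at h1
  have h2 := hA.2 u
  rw [div_mul_eq_mul_div, div_le_iff₀ hK]
  linarith

theorem entry_le {K : ℝ} {A G : Mat n} (hG : G.PosSemidef) (h : ((K : ℂ) • A - G).PosSemidef)
    (p q : Fin n) : ‖G p q‖ ≤ K * A.trace.re := by
  refine (HS76.entry_le_trace hG p q).trans ?_
  have h1 := (Complex.nonneg_iff.1 h.trace_nonneg).1
  rw [Matrix.trace_sub, Matrix.trace_smul, sub_re, smul_eq_mul, re_ofReal_mul] at h1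
  linarith

end CMP

open CMP in
theorem st_CMP {n : ℕ} (hINV : St_INV) (hHES : St_HES) (hMAXE : St_MAXE) (hFAM2 : St_FAM2 n) :
    St_CMP n where
  kae := fun M H v hH hv => kae hHES hH hv
  rep := fun M H t v hH hv e he z hz => by
    have hk := (kae hHES hH hv).toMet
    have hI := hINV n M H hH.toMet
    have h1 := (hI.2.1 _ hk.toForm e he z hz).2.2
    have h2 := (hI.2.2.2.2.2.2.2 _ hk).1 (e.symm z)
    have h3 := Mf.pd_det_re (hH.pos e he z hz)
    simp only [Mf.lc, ma, ld]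
    rw [h1, Real.log_mul h2.ne' h3.ne']
    push_cast
    ring
  sm := fun M H t v hH hv =>
    ((hHES n M).2.2.2.2.2.2.2.2.2 _ _ (kae hHES hH hv).toMet hH.toMet).1.sub (hv.1.const_mul t)
  zero := fun M H t hH => by
    refine ⟨⟨Mf.sm_const 0, ?_⟩, ?_⟩
    · rw [gv_zero]
      exact hH.pos
    · funext x
      simp [ma, gv_zero, hH.toMet.dq_self]
  cmp := fun M _ H t B v v' hH ht hv hv' hB x => by
    rw [abs_le]
    refine ⟨?_, one_side hHES hMAXE hH ht hv hv' (fun y => ?_) x⟩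
    · have := one_side hHES hMAXE hH ht hv' hv (fun y => (abs_le.1 (hB y)).2) x
      linarith
    · have := (abs_le.1 (hB y)).1
      linarith
  le := fun M T H K v hH hK hv hP e he z hz => by
    have hT : e.target ∈ 𝓝 z := e.open_target.mem_nhds hz
    constructor
    · obtain ⟨κ, hκ, S, hS, h⟩ := hFAM2.leFix Unit z (H e)
        (fun i j => (hH.sm e he z hz i j).continuousAt) (hH.pos.ev he hz)
      refine ⟨κ / K, div_pos hκ hK, S ∩ e.target, inter_mem hS hT, fun i w hw => ?_⟩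
      exact ell_of_le hK (h () w hw.1) ((hv i).2 e he w hw.2).1 ((hP i).1 e he w hw.2)
    · intro p q
      have hc : ContinuousAt (fun w => (H e w).trace.re) z :=
        (cd_re (hH.sm e he z hz).trace).continuousAt
      have hS : ∀ᶠ w in 𝓝 z, (H e w).trace.re < (H e z).trace.re + 1 :=
        hc.eventually_lt continuousAt_const (lt_add_one _)
      refine ⟨{w | (H e w).trace.re < (H e z).trace.re + 1} ∩ e.target, inter_mem hS hT,
        K * ((H e z).trace.re + 1), fun i => ⟨fun w hw => ?_, fun w hw => ?_⟩⟩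
      · exact (kae hHES hH (hv i)).sm e he w hw.2 p q
      · exact (entry_le ((hv i).2 e he w hw.2).posSemidef ((hP i).2 e he w hw.2) p q).trans
          (mul_le_mul_of_nonneg_left (le_of_lt hw.1) hK.le)

end Pool.Agent.Lib.HS21
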