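import Pool.Agent.Lib.HS21.LBlue

/-! Abstract lemmas on dense range. -/

open Set

noncomputable section

namespace Pool.Agent.Lib.HS21

namespace DENS

theorem approx {V W : Type} [AddCommGroup V] [AddCommGroup W] (CV : AddSubgroup V)
    (CW : AddSubgroup W) (Q : W → ℝ → Prop) (T : V → W) (θ : ℝ) (hS : Siz CW Q)
    (hL : Lin CV CW Q T) (hθ : θ < 1)
    (h : ∀ f ∈ CW, ∀ M, 0 < M → Q f M → ∃ v ∈ CV, Q (T v - f) (θ * M)) : Dns CV CW Q T := by
  intro f hf ε hε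
  obtain ⟨M, hM, hQ⟩ := hS.ex f hf
  obtain ⟨a, ha0, ha1, hθa⟩ : ∃ a : ℝ, 0 < a ∧ a < 1 ∧ θ < a :=
    ⟨(1 + max θ 0) / 2, by have := le_max_right θ 0; linarith,
      by have := max_lt hθ (zero_lt_one' ℝ); linarith, by have := le_max_left θ 0; linarith⟩
  have key : ∀ j : ℕ, ∃ v ∈ CV, Q (T v - f) (a ^ j * M) := by
    intro j
    induction j with
    | zero =>
      obtain ⟨v, hv, hq⟩ := h f hf M hM hQ
      refine ⟨v, hv, hS.mono _ (CW.sub_mem (hL.mem v hv) hf) _ _ ?_ hq⟩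
      rw [pow_zero]
      exact mul_le_mul_of_nonneg_right hθ.le hM.le
    | succ j ih =>
      obtain ⟨v, hv, hq⟩ := ih
      have hp : 0 < a ^ j * M := mul_pos (pow_pos ha0 j) hM
      have hm : T v - f ∈ CW := CW.sub_mem (hL.mem v hv) hf
      obtain ⟨v', hv', hq'⟩ := h (-(T v - f)) (CW.neg_mem hm) _ hp (hS.neg _ hm _ hq)
      have h1 := hL.add v hv v' hv' ((a - θ) * (a ^ j * M)) (mul_pos (sub_pos.2 hθa) hp)
      have hm1 : T (v + v') - (T v + T v') ∈ CW :=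
        CW.sub_mem (hL.mem _ (CV.add_mem hv hv')) (CW.add_mem (hL.mem v hv) (hL.mem v' hv'))
      have hm2 : T v' - -(T v - f) ∈ CW := CW.sub_mem (hL.mem v' hv') (CW.neg_mem hm)
      have h2 := hS.add _ hm1 _ hm2 _ _ h1 hq'
      refine ⟨v + v', CV.add_mem hv hv', ?_⟩
      have e1 : T (v + v') - (T v + T v') + (T v' - -(T v - f)) = T (v + v') - f := by abel
      have e2 : (a - θ) * (a ^ j * M) + θ * (a ^ j * M) = a ^ (j + 1) * M := by ring
      rw [e1, e2] at h2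
      exact h2
  obtain ⟨j, hj⟩ := exists_pow_lt_of_lt_one (div_pos hε hM) ha1
  obtain ⟨v, hv, hq⟩ := key j
  exact ⟨v, hv, hS.mono _ (CW.sub_mem (hL.mem v hv) hf) _ _ ((lt_div_iff₀ hM).1 hj).le hq⟩

theorem step {V W : Type} [AddCommGroup V] [AddCommGroup W] (CV : AddSubgroup V)
    (CW : AddSubgroup W) (Q : W → ℝ → Prop) (S T : V → W) (c : ℝ) (hS : Siz CW Q)
    (hL : Lin CV CW Q S) (hL' : Lin CV CW Q T) (hc : c ≤ 1 / 4)
    (h : ∀ v ∈ CV, ∀ M, 0 < M → Q (S v) M → Q (S v - T v) (c * M)) (hD : Dns CV CW Q S) :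
    Dns CV CW Q T := by
  refine approx CV CW Q T (9 / 16) hS hL' (by norm_num) fun f hf M hM hQ => ?_
  obtain ⟨v, hv, hq⟩ := hD f hf (M / 4) (by positivity)
  have hm : S v - f ∈ CW := CW.sub_mem (hL.mem v hv) hf
  have hm' : S v - T v ∈ CW := CW.sub_mem (hL.mem v hv) (hL'.mem v hv)
  have h1 := hS.add _ hm _ hf _ _ hq hQ
  rw [sub_add_cancel] at h1
  have h2 := h v hv _ (by positivity) h1
  have h3 := hS.add _ hm _ (CW.neg_mem hm') _ _ hq (hS.neg _ hm' _ h2)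
  have e1 : S v - f + -(S v - T v) = T v - f := by abel
  rw [e1] at h3
  refine ⟨v, hv, hS.mono _ (CW.sub_mem (hL'.mem v hv) hf) _ _ ?_ h3⟩
  have : c * (M / 4 + M) ≤ 1 / 4 * (M / 4 + M) := mul_le_mul_of_nonneg_right hc (by positivity)
  linarith

theorem cont {V W : Type} [AddCommGroup V] [AddCommGroup W] (CV : AddSubgroup V)
    (CW : AddSubgroup W) (Q : W → ℝ → Prop) (T : ℝ → V → W) (a b K : ℝ) (hS : Siz CW Q)
    (hL : ∀ s ∈ Icc a b, Lin CV CW Q (T s))
    (h : ∀ s ∈ Icc a b, ∀ r ∈ Icc a b, ∀ v ∈ CV, ∀ M, 0 < M → Q (T s v) M →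
      Q (T s v - T r v) (K * |s - r| * M)) :
    ∀ s ∈ Icc a b, ∀ r ∈ Icc a b, Dns CV CW Q (T s) → Dns CV CW Q (T r) := by
  have key : ∀ N : ℕ, ∀ s ∈ Icc a b, ∀ r ∈ Icc a b, K * |s - r| ≤ (N + 1) / 4 →
      Dns CV CW Q (T s) → Dns CV CW Q (T r) := by
    intro N
    induction N with
    | zero =>
      intro s hs r hr hK hD
      exact step CV CW Q (T s) (T r) _ hS (hL s hs) (hL r hr) (by simpa using hK) (h s hs r hr) hD
    | succ N ih =>
      intro s hs r hr hK hD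
      have hN : (0 : ℝ) < (N : ℝ) + 2 := by positivity
      obtain ⟨t, ht0, ht⟩ : ∃ t : ℝ, 0 < t ∧ t * ((N : ℝ) + 2) = 1 :=
        ⟨((N : ℝ) + 2)⁻¹, inv_pos.2 hN, inv_mul_cancel₀ hN.ne'⟩
      have hN0 : (0 : ℝ) ≤ N := Nat.cast_nonneg N
      have ht1 : 0 ≤ 1 - t := by nlinarith
      have hp : t * s + (1 - t) * r ∈ Icc a b := by
        have := (convex_Icc a b) hs hr ht0.le ht1 (by ring)
        simpa [smul_eq_mul] using this
      have e1 : |s - (t * s + (1 - t) * r)| = (1 - t) * |s - r| := by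
        rw [show s - (t * s + (1 - t) * r) = (1 - t) * (s - r) by ring, abs_mul, abs_of_nonneg ht1]
      have e2 : |t * s + (1 - t) * r - r| = t * |s - r| := by
        rw [show t * s + (1 - t) * r - r = t * (s - r) by ring, abs_mul, abs_of_pos ht0]
      push_cast at hK
      have h1 : K * |s - (t * s + (1 - t) * r)| ≤ (N + 1) / 4 := by
        rw [e1]
        have := mul_le_mul_of_nonneg_left hK ht1
        nlinarith
      have h2 : K * |t * s + (1 - t) * r - r| ≤ 1 / 4 := by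
        rw [e2]
        have := mul_le_mul_of_nonneg_left hK ht0.le
        nlinarith
      exact step CV CW Q _ (T r) _ hS (hL _ hp) (hL r hr) h2 (h _ hp r hr) (ih s hs _ hp h1 hD)
  intro s hs r hr
  obtain ⟨N, hN⟩ := exists_nat_ge (4 * (K * |s - r|))
  exact key N s hs r hr (by linarith)

end DENS

theorem st_DENS : St_DENS where
  approx := fun _ _ _ _ CV CW Q T θ => DENS.approx CV CW Q T θ
  cont := fun _ _ _ _ CV CW Q T a b K => DENS.cont CV CW Q T a b K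

end Pool.Agent.Lib.HS21
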