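import Pool.Agent.Lib.HS21.LBlue
import Pool.Agent.Lib.HS92.Solve

/-! Approximate solvability on the whole space by the method of continuity. -/

open scoped Classical Topology ContDiff SchwartzMap
open Set Filter Complex LineDeriv

noncomputable section

namespace Pool.Agent.Lib.HS21

open Pool.Agent.Lib.SV (E)

namespace DENSE

variable {n : ℕ}

/-- The functions of Schwartz class. -/
def SG (n : ℕ) : AddSubgroup (E n → ℂ) where
  carrier := {f | ∃ w : 𝓢(E n, ℂ), ⇑w = f}
  add_mem' := by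
    rintro _ _ ⟨u, rfl⟩ ⟨w, rfl⟩
    exact ⟨u + w, rfl⟩
  zero_mem' := ⟨0, rfl⟩
  neg_mem' := by
    rintro _ ⟨u, rfl⟩
    exact ⟨-u, rfl⟩

theorem sm {f : E n → ℂ} (h : f ∈ SG n) : ContDiff ℝ ∞ f := by
  obtain ⟨w, rfl⟩ := h
  exact w.smooth ⊤

theorem smo {f : E n → ℂ} (h : ContDiff ℝ ∞ f) : SmO univ f := fun _ _ => h.contDiffAt

theorem memD {f : E n → ℂ} (h : f ∈ SG n) (i : Ix n) : D i f ∈ SG n := by
  obtain ⟨w, rfl⟩ := h
  exact ⟨∂_{bs n i} w, funext fun x => SchwartzMap.lineDerivOp_apply_eq_fderiv _ _ _⟩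

theorem memC {f : E n → ℂ} (h : f ∈ SG n) (c : ℂ) : (fun x => c * f x) ∈ SG n := by
  obtain ⟨w, rfl⟩ := h
  exact ⟨c • w, rfl⟩

theorem memS {f : E n → ℂ} (h : ContDiff ℝ ∞ f) (hc : HasCompactSupport f) : f ∈ SG n :=
  ⟨hc.toSchwartzMap h, rfl⟩

theorem D_add {f g : E n → ℂ} (hf : f ∈ SG n) (hg : g ∈ SG n) (i : Ix n) :
    D i (f + g) = D i f + D i g := by
  funext x
  simp only [D, Pi.add_apply]
  rw [fderiv_add ((sm hf).differentiable (by simp) x) ((sm hg).differentiable (by simp) x)]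
  rfl

/-- The identity matrix. -/
def dl (i j : Ix n) : ℝ := if i = j then 1 else 0

theorem dl_sum (ξ : Ix n → ℝ) : ∑ i, ∑ j, dl i j * ξ i * ξ j = ∑ i, ξ i ^ 2 := by
  refine Finset.sum_congr rfl fun i _ => ?_
  simp [dl, sq]

end DENSE

open DENSE in
theorem st_DENSE {n : ℕ} (hk : St_HK n) (hr : St_RES n) (hd : St_DENS) : St_DENSE n := by
  intro k κ A hκ hE hA hc τ hτ f hf hfc ε hε
  obtain ⟨B, hB⟩ : ∃ B : Ix n → Ix n → E n → ℂ,
      B = fun i j x => ((A x i j - dl i j : ℝ) : ℂ) := ⟨_, rfl⟩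
  have Bs : ∀ i j, ContDiff ℝ ∞ (B i j) := fun i j => by
    rw [hB]
    simp only [ofReal_sub]
    exact (hA i j).sub contDiff_const
  have Bc : ∀ i j, HasCompactSupport (B i j) := fun i j => by
    rw [hB]
    exact (hc i j).comp_left (g := fun t : ℝ => (t : ℂ)) ofReal_zero
  choose KB KB0 hKB using fun i j => hk.decHO (B i j) k (hk.decCs _ (Bs i j) (Bc i j))
  obtain ⟨K, hK⟩ : ∃ K, K = ∑ i, ∑ j, KB i j := ⟨_, rfl⟩
  have hK' : ∀ i j, KB i j ≤ K := fun i j => by
    rw [hK]
    exact (Finset.single_le_sum (f := KB i) (fun j _ => (KB0 i j).le) (Finset.mem_univ j)).trans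
      (Finset.single_le_sum (f := fun i => ∑ j, KB i j)
        (fun i _ => Finset.sum_nonneg fun j _ => (KB0 i j).le) (Finset.mem_univ i))
  obtain ⟨As, hAs⟩ : ∃ As : ℝ → E n → Ix n → Ix n → ℝ,
      As = fun s x i j => dl i j + s * (A x i j - dl i j) := ⟨_, rfl⟩
  have eAs : ∀ s i j, (fun x => (As s x i j : ℂ)) = fun x => (dl i j : ℂ) + s * B i j x :=
    fun s i j => by
      rw [hAs, hB]
      funext x
      push_cast
      rfl
  have eL : ∀ s w x, L0 (As s) w x =
      ∑ i, ∑ j, ((dl i j : ℂ) * D i (D j w) x + s * (B i j x * D i (D j w) x)) := fun s w x => by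
    refine Finset.sum_congr rfl fun i _ => Finset.sum_congr rfl fun j _ => ?_
    rw [congrFun (eAs s i j) x]
    ring
  obtain ⟨C, C0, hC⟩ := hr k (min κ 1) (1 + K) (lt_min hκ one_pos)
  have hS : Siz (SG n) fun g M => HO k univ g M :=
    ⟨fun g hg => by
      obtain ⟨w, rfl⟩ := hg
      exact hk.decHO _ k (hk.decSch w),
    fun g _ M M' h1 h2 => hk.mono k _ _ g M M' subset_rfl h1 h2,
    fun g hg g' hg' M M' h1 h2 => hk.add k _ g g' M M' (smo (sm hg)) (smo (sm hg')) h1 h2,
    fun g hg M h1 => by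
      have := hk.smul k _ (-1) g M (smo (sm hg)) h1
      simp only [norm_neg, norm_one, one_mul, neg_mul] at this
      exact this⟩
  have hL : ∀ s ∈ Icc (0 : ℝ) 1, Lin (SG n) (SG n) (fun g M => HO k univ g M)
      fun w x => τ * w x - L0 (As s) w x := fun s _ =>
    ⟨fun v hv => by
      have h1 : (∑ i, ∑ j, ((fun x => (dl i j : ℂ) * D i (D j v) x) +
          fun x => s * (B i j x * D i (D j v) x))) ∈ SG n :=
        (SG n).sum_mem fun i _ => (SG n).sum_mem fun j _ =>
          (SG n).add_mem (memC (memD (memD hv j) i) _)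
            (memC (memS ((Bs i j).mul (sm (memD (memD hv j) i))) (Bc i j).mul_right) _)
      have h2 := (SG n).sub_mem (memC hv τ) h1
      refine (congrArg (· ∈ SG n) (funext fun x => ?_)).mp h2
      simp only [Pi.sub_apply, Finset.sum_apply, Pi.add_apply, eL],
    fun v hv v' hv' η hη => by
      refine (congrArg (fun g => HO k univ g η) (funext fun x => ?_)).mp (hk.zero k univ η hη.le)
      simp only [Pi.sub_apply, Pi.add_apply, L0, D_add hv hv',
        D_add (memD hv _) (memD hv' _), mul_add, Finset.sum_add_distrib]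
      ring⟩
  have hLip : ∀ s ∈ Icc (0 : ℝ) 1, ∀ r ∈ Icc (0 : ℝ) 1, ∀ v ∈ SG n, ∀ M, 0 < M →
      HO k univ (fun x => τ * v x - L0 (As s) v x) M →
      HO k univ ((fun x => τ * v x - L0 (As s) v x) - fun x => τ * v x - L0 (As r) v x)
        (2 ^ (k + 1) * K * C * |s - r| * M) := by
    intro s hs r _ v hv M hM hQ
    have hv2 : HO (k + 2) univ v (C * M) := by
      obtain ⟨w, rfl⟩ := hv
      refine (hC (As s) (fun x ξ => ?_) (fun i j => ?_) (fun i j => ?_) τ hτ w M
        (hk.decSch w) hQ).1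
      · have e : ∑ i, ∑ j, As s x i j * ξ i * ξ j =
            (1 - s) * ∑ i, ξ i ^ 2 + s * ∑ i, ∑ j, A x i j * ξ i * ξ j := by
          rw [← dl_sum, hAs]
          simp only [Finset.mul_sum, ← Finset.sum_add_distrib]
          exact Finset.sum_congr rfl fun i _ => Finset.sum_congr rfl fun j _ => by ring
        have h0 : 0 ≤ ∑ i, ξ i ^ 2 := Finset.sum_nonneg fun i _ => sq_nonneg _
        have h1 := mul_le_mul_of_nonneg_left (hE x ξ) hs.1
        have h2 := mul_le_mul_of_nonneg_right (min_le_left κ 1) h0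
        have h3 := mul_le_mul_of_nonneg_right (min_le_right κ 1) h0
        have h4 := mul_le_mul_of_nonneg_left h2 hs.1
        have h5 := mul_le_mul_of_nonneg_left h3 (sub_nonneg.2 hs.2)
        rw [e]
        linarith
      · rw [eAs]
        exact contDiff_const.add (contDiff_const.mul (Bs i j))
      · rw [eAs]
        refine hk.mono k _ _ _ _ _ subset_rfl ?_ (hk.add k _ _ _ _ _ (smo contDiff_const)
          (smo (contDiff_const.mul (Bs i j))) (hk.const k univ (dl i j : ℂ))
          (hk.smul k _ s _ _ (smo (Bs i j)) (hKB i j)))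
        have h1 : ‖(dl i j : ℂ)‖ ≤ 1 := by
          unfold dl
          split_ifs <;> simp
        have h2 : ‖(s : ℂ)‖ ≤ 1 := by
          rw [norm_real, Real.norm_of_nonneg hs.1]
          exact hs.2
        have h3 := mul_le_mul_of_nonneg_right h2 (KB0 i j).le
        have h4 := hK' i j
        linarith
    have hsm : ∀ i j, ContDiff ℝ ∞ fun x => B i j x * D i (D j v) x := fun i j =>
      (Bs i j).mul (sm (memD (memD hv j) i))
    have h1 := hk.sum k univ _ Finset.univ (fun i x => ∑ j, B i j x * D i (D j v) x)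
      (fun i => ∑ j, 2 ^ (k + 1) * KB i j * (C * M))
      (fun i _ => smo (ContDiff.sum fun j _ => hsm i j))
      (fun i _ => hk.sum k univ _ Finset.univ (fun j x => B i j x * D i (D j v) x) _
        (fun j _ => smo (hsm i j)) fun j _ => hk.mul k univ _ _ _ _ (smo (Bs i j))
          (smo (sm (memD (memD hv j) i))) (hKB i j) ((hv2.2 j).2 i))
    have h2 := hk.smul k univ ((r - s : ℝ) : ℂ) _ _
      (smo (ContDiff.sum fun i _ => ContDiff.sum fun j _ => hsm i j)) h1
    have e1 : ‖((r - s : ℝ) : ℂ)‖ * ∑ i, ∑ j, 2 ^ (k + 1) * KB i j * (C * M) =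
        2 ^ (k + 1) * K * C * |s - r| * M := by
      rw [norm_real, Real.norm_eq_abs, abs_sub_comm, hK]
      simp only [← Finset.sum_mul, ← Finset.mul_sum]
      ring
    rw [e1] at h2
    refine (congrArg (fun g => HO k univ g _) (funext fun x => ?_)).mp h2
    simp only [Pi.sub_apply, eL, Finset.sum_add_distrib, ← Finset.mul_sum]
    push_cast
    ring
  have h0 : Dns (SG n) (SG n) (fun g M => HO k univ g M)
      fun w x => τ * w x - L0 (As 0) w x := by
    rintro _ ⟨g, rfl⟩ η hη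
    obtain ⟨w, hw⟩ := HS92.solve_apply (bs n) dl
      (fun ξ => by rw [dl_sum]; exact Finset.sum_nonneg fun i _ => sq_nonneg _)
      (one_pos.trans_le hτ) g
    refine ⟨w, ⟨w, rfl⟩, (congrArg (fun g => HO k univ g η) (funext fun x => ?_)).mp
      (hk.zero k univ η hη.le)⟩
    simp only [Pi.sub_apply, eL, ofReal_zero, zero_mul, add_zero]
    exact (sub_eq_zero.2 (hw x)).symm
  obtain ⟨_, ⟨w, rfl⟩, hw⟩ := hd.cont _ _ (SG n) (SG n) _
    (fun s w x => τ * w x - L0 (As s) w x) 0 1 _ hS hL hLip 0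
    ⟨le_rfl, zero_le_one⟩ 1 ⟨zero_le_one, le_rfl⟩ h0 f (memS hf hfc) ε hε
  have e : As 1 = A := by
    rw [hAs]
    funext x i j
    ring
  rw [e] at hw
  exact ⟨w, hk.decSch w, hw⟩

end Pool.Agent.Lib.HS21
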