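import Pool.Agent.Lib.HS21.LBlue
import Pool.Agent.Lib.HS32.MKit

/-! Approximate solutions of the Monge-Ampère equation by steps of Euler. -/

open scoped Classical Topology ContDiff ComplexOrder Matrix
open Set Filter Complex Metric

noncomputable section

namespace Pool.Agent.Lib.HS21

open Pool.Agent.Lib.SV (E)
open Pool.Agent.Lib.HS32 Pool.Agent.Lib.HS32.Mf

namespace EUL

variable {n : ℕ} {M : Mf n} {V : M.Cov} {k : ℕ} {f g : M.X → ℝ} {A B : ℝ}

theorem smo (V : M.Cov) (hf : M.Sm f) (a : Fin V.r) : SmO (Kb V a) (M.lc f (V.e a)) :=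
  fun z hz => hf.lc _ (V.mem a) z
    (V.sub a (closedBall_subset_closedBall (by linarith [V.pos a]) hz))

theorem gh_mono (hK : St_HK n) {s : M.Fam ℂ} (h : GH V k s A) (hAB : A ≤ B) : GH V k s B :=
  fun a => hK.mono k _ _ _ _ _ Subset.rfl hAB (h a)

theorem gh_add (hK : St_HK n) (hf : M.Sm f) (hg : M.Sm g) (h1 : GH V k (M.lc f) A)
    (h2 : GH V k (M.lc g) B) : GH V k (M.lc fun x => f x + g x) (A + B) := fun a => by
  have e : M.lc (fun x => f x + g x) (V.e a) =
      fun z => M.lc f (V.e a) z + M.lc g (V.e a) z := by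
    funext z
    simp [Mf.lc]
  rw [e]
  exact hK.add k _ _ _ _ _ (smo V hf a) (smo V hg a) (h1 a) (h2 a)

theorem gh_smul (hK : St_HK n) (c : ℝ) (hc : 0 ≤ c) (hf : M.Sm f) (h1 : GH V k (M.lc f) A) :
    GH V k (M.lc fun x => c * f x) (c * A) := fun a => by
  have e : M.lc (fun x => c * f x) (V.e a) = fun z => (c : ℂ) * M.lc f (V.e a) z := by
    funext z
    simp [Mf.lc]
  have h2 := hK.smul k _ (c : ℂ) _ _ (smo V hf a) (h1 a)
  rw [Complex.norm_real, Real.norm_of_nonneg hc] at h2
  rw [e]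
  exact h2

end EUL

open EUL

theorem st_EUL {n : ℕ} (hK : St_HK n) (hB : St_BR n) (hC : St_CMP n) (hL : St_LINR n)
    (hA : St_APR n) (hU : St_UNIA n) (hR : St_REM n) : St_EUL n := by
  intro M _ V H t F k ε hH ht hF hε
  obtain ⟨BF, hBF, hGF⟩ := (hB.siz M V 0 (max k 3)).ex (M.lc F) (hB.lc M F hF)
  let T : Type := {v : M.X → ℝ // Adm H v ∧ GH V (max k 3) (M.lc (ma H t v)) (1 + BF)}
  have hadm : ∀ i : T, Adm H i.1 := fun i => i.2.1
  obtain ⟨hv, K, hK0, hpin⟩ := hA M V T H t (max k 3) (fun i => i.1) hH ht (le_max_right _ _) hadm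
    (hB.toGB M V T 0 _ _ (1 + BF) (fun i => hB.lc M _ (hC.sm M H t _ hH (hadm i))) fun i => i.2.2)
  choose w hw hw' using fun i : T =>
    hL.ex M V (gv H i.1) (fun x => -F x) t (hC.kae M H _ hH (hadm i)).toMet hF.neg ht
  have hgw : GB M (max k 3 + 2) fun i => M.lc (w i) := by
    refine hU M V T H t K (max k 3) (fun i => i.1) w hH ht hK0 hadm hpin hv hw ?_
    have e : (fun i : T => M.lc fun x => t * w i x - M.lap (gv H i.1) (w i) x) =
        fun _ : T => M.lc fun x => -F x := by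
      funext i
      rw [funext (hw' i)]
    rw [e]
    exact hB.fix M T 0 _ _ (hB.lc M _ hF.neg)
  obtain ⟨h0, C, hh0, hC0, hrem⟩ :=
    hR M V T H t K (max k 3) (fun i => i.1) w hH hK0 hadm hpin hv hw hgw
  obtain ⟨N, hN⟩ := exists_nat_gt (max (1 / h0) (C / min ε 1))
  have hm : 0 < min ε 1 := lt_min hε one_pos
  have hN1 : 1 / h0 < N := lt_of_le_of_lt (le_max_left _ _) hN
  have hN2 : C / min ε 1 < N := lt_of_le_of_lt (le_max_right _ _) hN
  have hN0 : (0 : ℝ) < N := lt_trans (by positivity) hN1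
  set h : ℝ := 1 / N with hh
  have hh1 : 0 < h := by positivity
  have hNh : N * h = 1 := by rw [hh]; field_simp
  have hh2 : h ≤ h0 := by
    rw [hh, div_le_iff₀ hN0]
    rw [div_lt_iff₀ hh0] at hN1
    linarith
  have hh3 : N * (C * h ^ 2) ≤ min ε 1 := by
    have e : N * (C * h ^ 2) = (N * h) * (C * h) := by ring
    rw [e, hNh, one_mul, hh, mul_one_div, div_le_iff₀ hN0]
    rw [div_lt_iff₀ hm] at hN2
    linarith
  have key : ∀ j : ℕ, j ≤ N → ∃ v, Adm H v ∧
      GH V (max k 3) (M.lc fun x => ma H t v x - j * h * F x) (j * (C * h ^ 2)) := by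
    intro j
    induction j with
    | zero =>
      intro _
      refine ⟨fun _ => 0, (hC.zero M H t hH).1, fun a => ?_⟩
      have e : M.lc (fun x => ma H t (fun _ => 0) x - (0 : ℕ) * h * F x) (V.e a) = fun _ => 0 := by
        funext z
        simp [Mf.lc, (hC.zero M H t hH).2]
      rw [e]
      exact hK.zero _ _ _ (by simp)
    | succ j ih =>
      intro hj
      obtain ⟨v, hv1, hv2⟩ := ih (Nat.le_of_succ_le hj)
      have hjN : (j : ℝ) ≤ N := by exact_mod_cast Nat.le_of_succ_le hj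
      have hs1 : M.Sm (ma H t v) := hC.sm M H t v hH hv1
      have hs2 : M.Sm fun x => (j * h) * F x := hF.const_mul _
      have hs3 : M.Sm fun x => ma H t v x - j * h * F x := hs1.sub hs2
      have hb : GH V (max k 3) (M.lc (ma H t v)) (1 + BF) := by
        have h1 := gh_add hK hs3 hs2 hv2 (gh_smul hK (j * h) (by positivity) hF hGF)
        have e : (fun x => ma H t v x - j * h * F x + j * h * F x) = ma H t v := by
          funext x
          ring
        rw [e] at h1
        refine gh_mono hK h1 (add_le_add ?_ ?_)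
        · exact ((mul_le_mul_of_nonneg_right hjN (by positivity)).trans hh3).trans
            (min_le_right _ _)
        · have : j * h ≤ 1 := hNh ▸ mul_le_mul_of_nonneg_right hjN hh1.le
          nlinarith
      obtain ⟨ha, hg⟩ := hrem ⟨v, hv1, hb⟩ h hh1 hh2
      refine ⟨_, ha, ?_⟩
      have hs4 := hC.sm M H t _ hH ha
      have hs5 := ((hL.sm M _ _ (hC.kae M H _ hH hv1).toMet (hw ⟨v, hv1, hb⟩)).sub
        ((hw ⟨v, hv1, hb⟩).const_mul t)).const_mul h
      have h1 := gh_add hK hs3 ((hs4.sub hs1).sub hs5) hv2 hg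
      have e : (fun x => ma H t v x - j * h * F x +
          (ma H t (fun y => v y + h * w ⟨v, hv1, hb⟩ y) x - ma H t v x -
            h * (M.lap (gv H v) (w ⟨v, hv1, hb⟩) x - t * w ⟨v, hv1, hb⟩ x))) =
          fun x => ma H t (fun y => v y + h * w ⟨v, hv1, hb⟩ y) x - ((j + 1 : ℕ) : ℝ) * h * F x := by
        funext x
        have h2 := hw' ⟨v, hv1, hb⟩ x
        have h3 : M.lap (gv H v) (w ⟨v, hv1, hb⟩) x - t * w ⟨v, hv1, hb⟩ x = F x := by
          linarith
        rw [h3]
        push_cast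
        ring
      rw [e] at h1
      refine gh_mono hK h1 (le_of_eq ?_)
      push_cast
      ring
  obtain ⟨v, hv1, hv2⟩ := key N le_rfl
  refine ⟨v, hv1, fun a => hK.anti _ _ _ _ _ (le_max_left k 3) ?_⟩
  have e : (fun x => ma H t v x - N * h * F x) = fun x => ma H t v x - F x := by
    funext x
    rw [hNh, one_mul]
  rw [e] at hv2
  exact gh_mono hK hv2 (hh3.trans (min_le_left _ _)) a

end Pool.Agent.Lib.HS21
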