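import Pool.Agent.Lib.HS21.LBlue

/-! Calculus of bounded families. -/

open scoped Topology ContDiff
open Set Filter Complex Metric

noncomputable section

namespace Pool.Agent.Lib.HS21

open Pool.Agent.Lib.SV (E)
open Pool.Agent.Lib.HS32

namespace FAM

variable {n : ℕ} {T : Type} {k : ℕ} {z : E n} {f g : T → E n → ℂ}

theorem h0 {S : Set (E n)} {u : E n → ℂ} {M : ℝ} (h : HO k S u M) : Su S u M ∧ Ho S u M := by
  cases k with
  | zero => exact h
  | succ k => exact h.1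

theorem fin {ι : Type} [Fintype ι] {p : ι → Set (E n) → ℝ → Prop}
    (hp : ∀ i S S' M M', S' ⊆ S → M ≤ M' → p i S M → p i S' M')
    (h : ∀ i, ∃ S ∈ 𝓝 z, ∃ M, p i S M) : ∃ S ∈ 𝓝 z, ∃ M, ∀ i, p i S M := by
  choose S hS M h using h
  exact ⟨⋂ i, S i, iInter_mem.2 hS, ∑ i, |M i|, fun i => hp i _ _ _ _ (iInter_subset S i)
    ((le_abs_self _).trans (Finset.single_le_sum (f := fun i => |M i|) (fun _ _ => abs_nonneg _)
      (Finset.mem_univ i))) (h i)⟩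

theorem two (K : St_HK n) (hf : LB k z f) (hg : LB k z g) : ∃ S ∈ 𝓝 z, ∃ M M', ∀ t,
    SmO S (f t) ∧ SmO S (g t) ∧ HO k S (f t) M ∧ HO k S (g t) M' := by
  obtain ⟨S, hS, M, h⟩ := hf
  obtain ⟨S', hS', M', h'⟩ := hg
  exact ⟨S ∩ S', inter_mem hS hS', M, M', fun t => ⟨fun x hx => (h t).1 x hx.1,
    fun x hx => (h' t).1 x hx.2, K.mono _ _ _ _ _ _ inter_subset_left le_rfl (h t).2,
    K.mono _ _ _ _ _ _ inter_subset_right le_rfl (h' t).2⟩⟩

theorem scal (K : St_HK n) {c : T → ℂ} {B : ℝ} (h : ∀ t, ‖c t‖ ≤ B) : LB k z fun t _ => c t :=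
  ⟨univ, univ_mem, B, fun t => ⟨fun _ _ => contDiffAt_const,
    K.mono _ _ _ _ _ _ Subset.rfl (h t) (K.const k _ _)⟩⟩

theorem cst (K : St_HK n) (c : ℂ) : LB k z fun (_ : T) _ => c := scal K fun _ => le_rfl

theorem add (K : St_HK n) (hf : LB k z f) (hg : LB k z g) : LB k z fun t w => f t w + g t w := by
  obtain ⟨S, hS, M, M', h⟩ := two K hf hg
  exact ⟨S, hS, _, fun t => ⟨fun x hx => ((h t).1 x hx).add ((h t).2.1 x hx),
    K.add _ _ _ _ _ _ (h t).1 (h t).2.1 (h t).2.2.1 (h t).2.2.2⟩⟩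

theorem sub (K : St_HK n) (hf : LB k z f) (hg : LB k z g) : LB k z fun t w => f t w - g t w := by
  obtain ⟨S, hS, M, M', h⟩ := two K hf hg
  exact ⟨S, hS, _, fun t => ⟨fun x hx => ((h t).1 x hx).sub ((h t).2.1 x hx),
    K.sub _ _ _ _ _ _ (h t).1 (h t).2.1 (h t).2.2.1 (h t).2.2.2⟩⟩

theorem mul (K : St_HK n) (hf : LB k z f) (hg : LB k z g) : LB k z fun t w => f t w * g t w := by
  obtain ⟨S, hS, M, M', h⟩ := two K hf hg
  exact ⟨S, hS, _, fun t => ⟨fun x hx => ((h t).1 x hx).mul ((h t).2.1 x hx),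
    K.mul _ _ _ _ _ _ (h t).1 (h t).2.1 (h t).2.2.1 (h t).2.2.2⟩⟩

theorem lin (K : St_HK n) (φ : ℂ →L[ℝ] ℂ) (hf : LB k z f) : LB k z fun t w => φ (f t w) := by
  obtain ⟨S, hS, M, h⟩ := hf
  exact ⟨S, hS, _, fun t => ⟨fun x hx => φ.contDiff.contDiffAt.comp x ((h t).1 x hx),
    K.lin _ _ _ _ _ (h t).1 (h t).2⟩⟩

theorem sum (K : St_HK n) {ι : Type} (s : Finset ι) {f : ι → T → E n → ℂ}
    (h : ∀ i ∈ s, LB k z (f i)) : LB k z fun t w => ∑ i ∈ s, f i t w := by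
  classical
  induction s using Finset.induction_on with
  | empty => simpa only [Finset.sum_empty] using cst K 0
  | insert a s ha ih =>
    simpa only [Finset.sum_insert ha] using add K (h a (Finset.mem_insert_self _ _))
      (ih fun i hi => h i (Finset.mem_insert_of_mem hi))

theorem prod (K : St_HK n) {ι : Type} (s : Finset ι) {f : ι → T → E n → ℂ}
    (h : ∀ i ∈ s, LB k z (f i)) : LB k z fun t w => ∏ i ∈ s, f i t w := by
  classical
  induction s using Finset.induction_on with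
  | empty => simpa only [Finset.prod_empty] using cst K 1
  | insert a s ha ih =>
    simpa only [Finset.prod_insert ha] using mul K (h a (Finset.mem_insert_self _ _))
      (ih fun i hi => h i (Finset.mem_insert_of_mem hi))

theorem ls (hf : LB k z f) : LS z f := by
  obtain ⟨S, hS, M, h⟩ := hf
  exact ⟨S, hS, M, fun t => ⟨(h t).1, (h0 (h t).2).1⟩⟩

theorem der (K : St_HK n) (i : Ix n) (hf : LB (k + 1) z f) : LB k z fun t => D i (f t) := by
  obtain ⟨S, hS, M, h⟩ := hf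
  exact ⟨S, hS, M, fun t => ⟨K.smD _ _ _ (h t).1, (h t).2.2 i⟩⟩

theorem wir (K : St_HK n) (j : Fin n) (hf : LB (k + 1) z f) :
    LB k z (fun t => dz j (f t)) ∧ LB k z fun t => dzb j (f t) := by
  have a := der K ⟨j, 0⟩ hf
  have b := mul K (cst K I) (der K ⟨j, 1⟩ hf)
  have c := mul K (sub K a b) (cst K 2⁻¹)
  have d := mul K (add K a b) (cst K 2⁻¹)
  simp only [D, bs, Pi.basis_apply, Complex.coe_basisOneI, Matrix.cons_val_zero,
    Matrix.cons_val_one] at c d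
  exact ⟨c, d⟩

theorem base (K : St_HK n) (hf : LS z f) (hd : ∀ i, LS z fun t => D i (f t)) : LB 0 z f := by
  obtain ⟨C, -, hC⟩ := K.lip
  obtain ⟨S, hS, M, h⟩ := hf
  obtain ⟨S', hS', M', h'⟩ := fin (p := fun i S M => ∀ t, Su S (D i (f t)) M)
    (fun i S S' M M' a b c t x hx => (c t x (a hx)).trans b)
    fun i => (hd i).imp fun S h => ⟨h.1, h.2.imp fun M h t => (h t).2⟩
  obtain ⟨r, hr, hb⟩ := Metric.mem_nhds_iff.1 (inter_mem hS hS')
  have s : ∀ t, SmO (ball z r) (f t) := fun t x hx => (h t).1 x (hb hx).1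
  exact ⟨_, ball_mem_nhds z hr, _, fun t => ⟨s t, hC _ _ (max M M') (convex_ball z r) (s t)
    (fun x hx => ((h t).2 x (hb hx).1).trans (le_max_left _ _))
    fun i x hx => (h' i t x (hb hx).2).trans (le_max_right _ _)⟩⟩

theorem succ (K : St_HK n) (hf : LS z f) (hd : ∀ i, LB k z fun t => D i (f t)) :
    LB (k + 1) z f := by
  obtain ⟨S, hS, M, h⟩ := base K hf fun i => ls (hd i)
  obtain ⟨S', hS', M', h'⟩ := fin (p := fun i S M => ∀ t, HO k S (D i (f t)) M)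
    (fun i S S' M M' a b c t => K.mono _ _ _ _ _ _ a b (c t))
    fun i => (hd i).imp fun S h => ⟨h.1, h.2.imp fun M h t => (h t).2⟩
  exact ⟨S ∩ S', inter_mem hS hS', max M M', fun t => ⟨fun x hx => (h t).1 x hx.1,
    K.mono 0 _ _ _ _ _ inter_subset_left (le_max_left _ _) (h t).2,
    fun i => K.mono _ _ _ _ _ _ inter_subset_right (le_max_right _ _) (h' i t)⟩⟩

theorem cgr (K : St_HK n) (e : ∀ᶠ w in 𝓝 z, ∀ t, f t w = g t w) (hf : LB k z f) : LB k z g := by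
  obtain ⟨S, hS, M, h⟩ := hf
  refine ⟨_, inter_mem hS e.eventually_nhds, M, fun t => ⟨fun x hx => ?_, ?_⟩⟩
  · exact ((h t).1 x hx.1).congr_of_eventuallyEq (hx.2.mono fun w hw => (hw t).symm)
  · exact K.congr _ _ (f t) _ _ (fun x hx => hx.2.mono fun w hw => hw t)
      (K.mono _ _ _ _ _ _ inter_subset_left le_rfl (h t).2)

theorem lsFix {u : E n → ℂ} (h : ∀ᶠ w in 𝓝 z, ContDiffAt ℝ ∞ u w) : LS z fun _ : T => u :=
  ⟨_, inter_mem h (h.self_of_nhds.continuousAt.norm.eventually (Iic_mem_nhds (lt_add_one _))),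
    ‖u z‖ + 1, fun _ => ⟨fun _ hx => hx.1, fun _ hx => hx.2⟩⟩

theorem fix (K : St_HK n) : ∀ (k : ℕ) {u : E n → ℂ}, (∀ᶠ w in 𝓝 z, ContDiffAt ℝ ∞ u w) →
    LB k z fun _ : T => u := by
  have d : ∀ {u : E n → ℂ} i, (∀ᶠ w in 𝓝 z, ContDiffAt ℝ ∞ u w) →
      ∀ᶠ w in 𝓝 z, ContDiffAt ℝ ∞ (D i u) w :=
    fun {u} i h => h.mono (K.smD {w | ContDiffAt ℝ ∞ u w} u i fun _ hx => hx)
  intro k
  induction k with
  | zero => exact fun h => base K (lsFix h) fun i => lsFix (d i h)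
  | succ k ih => exact fun h => succ K (lsFix h) fun i => ih (d i h)

/-- From balls of a fixed radius to the set of their centres. -/
theorem loc {A : Set (E n)} {δ m : ℝ} (hδ : 0 < δ) (hm : 0 ≤ m) : ∀ (k : ℕ) {u : E n → ℂ},
    (∀ x ∈ A, HO k (ball x δ) u m) → HO k A u (m + 2 * m / √δ) := by
  have p : 0 < √δ := Real.sqrt_pos.2 hδ
  have q : 0 ≤ 2 * m / √δ := by positivity
  have b : ∀ {k : ℕ} {u : E n → ℂ}, (∀ x ∈ A, HO k (ball x δ) u m) →
      Su A u (m + 2 * m / √δ) ∧ Ho A u (m + 2 * m / √δ) := fun {k u} h => by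
    have s : Su A u m := fun x hx => (h0 (h x hx)).1 x (mem_ball_self hδ)
    refine ⟨fun x hx => (s x hx).trans (le_add_of_nonneg_right q), fun x hx y hy => ?_⟩
    have r := Real.sqrt_nonneg ‖x - y‖
    rw [add_mul]
    rcases lt_or_ge ‖x - y‖ δ with c | c
    · exact ((h0 (h y hy)).2 x (mem_ball_iff_norm.2 c) y (mem_ball_self hδ)).trans
        (le_add_of_nonneg_right (mul_nonneg q r))
    · have h1 : 2 * m / √δ * √δ ≤ 2 * m / √δ * √‖x - y‖ := by gcongr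
      rw [div_mul_cancel₀ _ p.ne'] at h1
      linarith [norm_sub_le (u x) (u y), s x hx, s y hy, mul_nonneg hm r]
  intro k
  induction k with
  | zero => exact b
  | succ k ih => exact fun h => ⟨b h, fun i => ih fun x hx => (h x hx).2 i⟩

theorem unif (K : St_HK n) {A : Set (E n)} (hA : IsCompact A) (h : ∀ z ∈ A, LB k z f) :
    ∃ δ, 0 < δ ∧ ∃ m, 0 ≤ m ∧ ∀ x ∈ A, ∀ t, SmO (ball x δ) (f t) ∧ HO k (ball x δ) (f t) m := by
  refine hA.induction_on (p := fun A => ∃ δ, 0 < δ ∧ ∃ m, 0 ≤ m ∧ ∀ x ∈ A, ∀ t,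
    SmO (ball x δ) (f t) ∧ HO k (ball x δ) (f t) m) ⟨1, one_pos, 0, le_rfl, by simp⟩
    (fun s t hs ⟨δ, a, m, b, c⟩ => ⟨δ, a, m, b, fun x hx => c x (hs hx)⟩) ?_ fun z hz => ?_
  · rintro s t ⟨δ, a, m, b, c⟩ ⟨δ', a', m', -, c'⟩
    refine ⟨min δ δ', lt_min a a', max m m', le_max_of_le_left b, ?_⟩
    rintro x (hx | hx) i
    · have e := ball_subset_ball (x := x) (min_le_left δ δ')
      exact ⟨fun y hy => (c x hx i).1 y (e hy),
        K.mono _ _ _ _ _ _ e (le_max_left _ _) (c x hx i).2⟩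
    · have e := ball_subset_ball (x := x) (min_le_right δ δ')
      exact ⟨fun y hy => (c' x hx i).1 y (e hy),
        K.mono _ _ _ _ _ _ e (le_max_right _ _) (c' x hx i).2⟩
  · obtain ⟨S, hS, M, h⟩ := h z hz
    obtain ⟨r, hr, hb⟩ := Metric.mem_nhds_iff.1 hS
    refine ⟨ball z (r / 2), mem_nhdsWithin_of_mem_nhds (ball_mem_nhds _ (half_pos hr)), r / 2,
      half_pos hr, |M|, abs_nonneg _, fun x hx t => ?_⟩
    have e : ball x (r / 2) ⊆ S :=
      (ball_subset_ball' (by linarith [mem_ball.1 hx])).trans hb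
    exact ⟨fun y hy => (h t).1 y (e hy), K.mono _ _ _ _ _ _ e (le_abs_self _) (h t).2⟩

theorem glue (K : St_HK n) {A : Set (E n)} (hA : IsCompact A) (h : ∀ z ∈ A, LB k z f) :
    ∃ M, 0 < M ∧ ∀ t, SmO A (f t) ∧ HO k A (f t) M := by
  obtain ⟨δ, a, m, b, c⟩ := unif K hA h
  exact ⟨m + 2 * m / √δ + 1, by positivity, fun t => ⟨fun x hx => (c x hx t).1 x (mem_ball_self a),
    K.mono _ _ _ _ _ _ Subset.rfl (lt_add_one _).le (loc a b k fun x hx => (c x hx t).2)⟩⟩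

theorem cut (K : St_HK n) {η : E n → ℂ} (hη : ContDiff ℝ ∞ η) (hc : HasCompactSupport η)
    (h : ∀ z ∈ tsupport η, LB k z f) : ∃ M, 0 < M ∧ ∀ t, ContDiff ℝ ∞ (fun w => η w * f t w) ∧
      HO k univ (fun w => η w * f t w) M := by
  obtain ⟨δ, a, m, b, c⟩ := unif K hc h
  obtain ⟨m', b', c'⟩ := K.decHO η k (K.decCs η hη hc)
  have e : ∀ t x, x ∉ tsupport η → (fun _ => (0 : ℂ)) =ᶠ[𝓝 x] fun w => η w * f t w :=
    fun t x hx => (notMem_tsupport_iff_eventuallyEq.1 hx).mono fun w hw => by simp [hw]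
  have p : 0 ≤ 2 ^ (k + 1) * m' * m := by positivity
  refine ⟨2 ^ (k + 1) * m' * m + 2 * (2 ^ (k + 1) * m' * m) / √(δ / 2) + 1, by positivity,
    fun t => ⟨contDiff_iff_contDiffAt.2 fun x => ?_, K.mono _ _ _ _ _ _ Subset.rfl
      (lt_add_one _).le (loc (half_pos a) p k fun x _ => ?_)⟩⟩
  · by_cases hx : x ∈ tsupport η
    · exact hη.contDiffAt.mul ((c x hx t).1 x (mem_ball_self a))
    · exact contDiffAt_const.congr_of_eventuallyEq (e t x hx).symm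
  · by_cases hx : ∃ y ∈ ball x (δ / 2), y ∈ tsupport η
    · obtain ⟨y, hy, hy'⟩ := hx
      refine K.mono _ (ball y δ) _ _ _ _ (ball_subset_ball' ?_) le_rfl (K.mul _ _ _ _ _ _
        (fun _ _ => hη.contDiffAt) (c y hy' t).1
        (K.mono _ _ _ _ _ _ (subset_univ _) le_rfl c') (c y hy' t).2)
      linarith [mem_ball'.1 hy]
    · exact K.congr _ _ _ _ _ (fun y hy => e t y fun h' => hx ⟨y, hy, h'⟩) (K.zero _ _ _ p)

end FAM

open FAM in
theorem st_FAM {n : ℕ} (K : St_HK n) : St_FAM n where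
  fix _ k _ _ _ h := fix K k h
  scal _ _ _ _ _ := scal K
  add _ _ _ _ _ := add K
  sub _ _ _ _ _ := sub K
  mul _ _ _ _ _ := mul K
  lin _ _ _ φ _ := lin K φ
  sum _ _ _ _ s _ := sum K s
  prod _ _ _ _ s _ := prod K s
  anti _ _ _ _ _ hj := fun ⟨S, hS, M, h⟩ =>
    ⟨S, hS, M, fun t => ⟨(h t).1, K.anti _ _ _ _ _ hj (h t).2⟩⟩
  ls _ _ _ _ := ls
  der _ _ _ _ := der K
  dz _ _ _ _ := wir K
  hess _ _ _ _ h i j := (wir K i (wir K j h).1).2
  base _ _ _ := base K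
  succ _ _ _ _ := succ K
  congr _ _ _ _ _ := cgr K
  re _ _ _ _ _ φ := fun ⟨S, hS, M, h⟩ => ⟨S, hS, M, fun t => h (φ t)⟩
  near _ _ _ _ := fun ⟨S, hS, M, h⟩ =>
    (eventually_mem_nhds_iff.2 hS).mono fun _ hw => ⟨S, hw, M, h⟩
  glue _ _ _ _ := glue K
  cut _ _ _ _ := cut K

end Pool.Agent.Lib.HS21
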