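import Pool.Agent.Lib.HS21.LBlue
import Pool.Agent.Lib.HS76.Diag

/-! Calculus of bounded families: compositions, determinants, inverses. -/

open scoped Classical Topology ContDiff ComplexOrder Matrix
open Set Filter Complex Metric

noncomputable section

namespace Pool.Agent.Lib.HS21

open Pool.Agent.Lib.SV (E)
open Pool.Agent.Lib.HS32

namespace FAM2

variable {n : ℕ} {T : Type} {z : E n}

theorem le_mul_add {M a : ℝ} (hM : 0 ≤ M) (ha : 0 ≤ a) : M ≤ M * (1 + a) := by nlinarith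

theorem compS {τ : E n → E n} {f : T → E n → ℂ} (hτ : ∀ᶠ w in 𝓝 z, ContDiffAt ℝ ∞ τ w)
    (h : LS (τ z) f) : LS z fun t w => f t (τ w) := by
  obtain ⟨S, hS, M, h⟩ := h
  refine ⟨_, inter_mem hτ (hτ.self_of_nhds.continuousAt.preimage_mem_nhds hS), M, fun t =>
    ⟨fun x hx => ((h t).1 _ hx.2).comp x hx.1, fun x hx => (h t).2 _ hx.2⟩⟩

theorem comp0 {τ : E n → E n} {f : T → E n → ℂ} (hτ : ∀ᶠ w in 𝓝 z, ContDiffAt ℝ ∞ τ w)
    (h : LB 0 (τ z) f) : LB 0 z fun t w => f t (τ w) := by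
  obtain ⟨S, hS, M, h⟩ := h
  obtain ⟨L, U, hU, hL⟩ := (hτ.self_of_nhds.of_le (m := 1) (by norm_cast)).exists_lipschitzOnWith
  refine ⟨_, inter_mem hU (inter_mem hτ (hτ.self_of_nhds.continuousAt.preimage_mem_nhds hS)),
    M * (1 + √L), fun t => ?_⟩
  have hM : 0 ≤ M := (norm_nonneg _).trans ((h t).2.1 _ (mem_of_mem_nhds hS))
  refine ⟨fun x hx => ((h t).1 _ hx.2.2).comp x hx.2.1, fun x hx =>
    ((h t).2.1 _ hx.2.2).trans (le_mul_add hM (Real.sqrt_nonneg _)), fun x hx y hy => ?_⟩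
  refine ((h t).2.2 _ hx.2.2 _ hy.2.2).trans ?_
  have h1 : √‖τ x - τ y‖ ≤ √L * √‖x - y‖ := by
    rw [← Real.sqrt_mul L.coe_nonneg]
    exact Real.sqrt_le_sqrt (hL.norm_sub_le hx.1 hy.1)
  have h2 := Real.sqrt_nonneg ‖x - y‖
  nlinarith [mul_le_mul_of_nonneg_left h1 hM, mul_nonneg hM h2]

/-- A real coordinate, with complex values. -/
def co (p : Ix n) : E n →L[ℝ] ℂ := ofRealCLM.comp ((bs n).coord p).toContinuousLinearMap

theorem expand (A : E n →L[ℝ] ℂ) (v : E n) : A v = ∑ p, co p v * A (bs n p) := by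
  conv_lhs => rw [← (bs n).sum_repr v, map_sum]
  simp [co]

theorem comp (hF : St_FAM n) {τ : E n → E n} (hτ : ∀ᶠ w in 𝓝 z, ContDiffAt ℝ ∞ τ w) (k : ℕ) :
    ∀ f : T → E n → ℂ, LB k (τ z) f → LB k z fun t w => f t (τ w) := by
  induction k with
  | zero => exact fun f => comp0 hτ
  | succ k ih =>
    intro f h
    refine hF.succ T k z _ (compS hτ (hF.ls T _ _ f h)) fun i => ?_
    have hc : ∀ p, ∀ᶠ w in 𝓝 z, ContDiffAt ℝ ∞ (fun w => co p (fderiv ℝ τ w (bs n i))) w :=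
      fun p => hτ.mono fun w hw => (co p).contDiff.contDiffAt.comp w
        ((hw.fderiv_right (m := ∞) (by norm_cast)).clm_apply contDiffAt_const)
    refine hF.congr T k z (fun t w => ∑ p, co p (fderiv ℝ τ w (bs n i)) * D p (f t) (τ w)) _ ?_
      (hF.sum T _ k z _ _ fun p _ => hF.mul T k z _ _
        (hF.fix T k z _ (hc p).self_of_nhds (hc p)) (ih _ (hF.der T k _ f p h)))
    obtain ⟨S, hS, M, h⟩ := h
    filter_upwards [hτ, hτ.self_of_nhds.continuousAt.preimage_mem_nhds hS] with w h1 h2 t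
    have := (((h t).1 _ h2).differentiableAt (by simp)).hasFDerivAt.comp w
      (h1.differentiableAt (by simp)).hasFDerivAt
    rw [D, show (fun w => f t (τ w)) = f t ∘ τ from rfl, this.fderiv,
      ContinuousLinearMap.comp_apply, expand]
    rfl

theorem post0 {φ : ℂ → ℂ} {K : Set ℂ} {f : T → E n → ℂ} (hK : IsCompact K)
    (hφ : ∀ y ∈ K, ContDiffAt ℝ ∞ φ y) (hf : ∀ᶠ w in 𝓝 z, ∀ t, f t w ∈ K) (h : LB 0 z f) :
    LB 0 z fun t w => φ (f t w) := by
  obtain ⟨S, hS, M, h⟩ := h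
  obtain ⟨L, hL⟩ : ∃ L, LipschitzOnWith L φ K :=
    LocallyLipschitzOn.exists_lipschitzOnWith_of_compact hK fun y hy => by
      obtain ⟨L, U, hU, hL⟩ := ((hφ y hy).of_le (m := 1) (by norm_cast)).exists_lipschitzOnWith
      exact ⟨L, U, mem_nhdsWithin_of_mem_nhds hU, hL⟩
  obtain ⟨B, hB⟩ := hK.exists_bound_of_continuousOn hL.continuousOn
  refine ⟨_, inter_mem hS hf, max B (L * M), fun t => ⟨fun x hx =>
    (hφ _ (hx.2 t)).comp x ((h t).1 _ hx.1), fun x hx => (hB _ (hx.2 t)).trans (le_max_left _ _),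
    fun x hx y hy => (hL.norm_sub_le (hx.2 t) (hy.2 t)).trans ?_⟩⟩
  refine (mul_le_mul_of_nonneg_left ((h t).2.2 _ hx.1 _ hy.1) L.2).trans ?_
  rw [← mul_assoc]
  exact mul_le_mul_of_nonneg_right (le_max_right _ _) (Real.sqrt_nonneg _)

theorem expandC (A : ℂ →L[ℝ] ℂ) (v : ℂ) :
    A v = A 1 * (ofRealCLM.comp reCLM) v + A I * (ofRealCLM.comp imCLM) v := by
  have : v = v.re • (1 : ℂ) + v.im • I := by simp
  conv_lhs => rw [this, map_add, map_smul, map_smul]
  simp [mul_comm]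

theorem post (hF : St_FAM n) {K : Set ℂ} {f : T → E n → ℂ} (hK : IsCompact K)
    (hf : ∀ᶠ w in 𝓝 z, ∀ t, f t w ∈ K) (k : ℕ) : ∀ φ : ℂ → ℂ, (∀ y ∈ K, ContDiffAt ℝ ∞ φ y) →
    LB k z f → LB k z fun t w => φ (f t w) := by
  induction k with
  | zero => exact fun φ hφ => post0 hK hφ hf
  | succ k ih =>
    intro φ hφ h
    refine hF.succ T k z _
      (hF.ls T 0 _ _ (post0 hK hφ hf (hF.anti T _ 0 z f (Nat.zero_le _) h))) fun i => ?_
    have hk := hF.anti T _ k z f (Nat.le_succ k) h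
    have hc : ∀ v : ℂ, LB k z fun t w => fderiv ℝ φ (f t w) v := fun v =>
      ih (fun y => fderiv ℝ φ y v) (fun y hy =>
        ((hφ y hy).fderiv_right (m := ∞) (by norm_cast)).clm_apply contDiffAt_const) hk
    have hd := hF.der T k z f i h
    refine hF.congr T k z _ _ ?_ (hF.add T k z _ _
      (hF.mul T k z _ _ (hc 1) (hF.lin T k z (ofRealCLM.comp reCLM) _ hd))
      (hF.mul T k z _ _ (hc I) (hF.lin T k z (ofRealCLM.comp imCLM) _ hd)))
    obtain ⟨S, hS, M, h⟩ := h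
    filter_upwards [hf, hS] with w h1 h2 t
    have := ((hφ _ (h1 t)).differentiableAt (by simp)).hasFDerivAt.comp w
      (((h t).1 _ h2).differentiableAt (by simp)).hasFDerivAt
    rw [← expandC, D, D, show (fun w => φ (f t w)) = φ ∘ f t from rfl, this.fderiv]
    rfl

theorem cst (hF : St_FAM n) (k : ℕ) (c : ℂ) : LB k z fun (_ : T) (_ : E n) => c :=
  hF.scal T k z (fun _ => c) ‖c‖ fun _ => le_rfl

theorem det (hF : St_FAM n) {k : ℕ} {A : T → E n → Mat n} (h : LBM k z A) :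
    LB k z fun t w => (A t w).det := by
  simp only [Matrix.det_apply']
  exact hF.sum T _ k z _ _ fun σ _ => hF.mul T k z _ _ (cst hF k _)
    (hF.prod T _ k z _ (fun i t w => A t w (σ i) i) fun i _ => h _ _)

theorem trace (hF : St_FAM n) {k : ℕ} {A : T → E n → Mat n} (h : LBM k z A) :
    LB k z fun t w => (A t w).trace :=
  hF.sum T _ k z _ (fun i t w => A t w i i) fun i _ => h i i

theorem adj (hF : St_FAM n) {k : ℕ} {A : T → E n → Mat n} (h : LBM k z A) :
    LBM k z fun t w => (A t w).adjugate := fun i j => by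
  simp only [Matrix.adjugate_apply]
  refine det hF fun p q => ?_
  simp only [Matrix.updateRow_apply]
  split_ifs
  · exact cst hF k _
  · exact h p q

theorem quad (c : ℝ) (W : Mat n) (v : E n) : star v ⬝ᵥ (W - (c : ℂ) • (1 : Mat n)) *ᵥ v =
    star v ⬝ᵥ W *ᵥ v - ((c * ∑ i, ‖v i‖ ^ 2 : ℝ) : ℂ) := by
  rw [Matrix.sub_mulVec, dotProduct_sub, Matrix.smul_mulVec, Matrix.one_mulVec, dotProduct_smul]
  simp [dotProduct, conj_mul']

theorem herm (c : ℝ) : ((c : ℂ) • (1 : Mat n)).IsHermitian := by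
  simp [Matrix.IsHermitian]

theorem psd {κ : ℝ} {W : Mat n} (h : EllH κ W) : (W - (κ : ℂ) • (1 : Mat n)).PosSemidef := by
  have hh := h.1.sub (herm κ)
  refine .of_dotProduct_mulVec_nonneg hh fun v => ?_
  refine Complex.nonneg_iff.2 ⟨?_, (hh.im_star_dotProduct_mulVec_self v).symm⟩
  rw [quad, sub_re, ofReal_re, sub_nonneg]
  exact h.2 v

theorem pd {κ : ℝ} {W : Mat n} (hκ : 0 < κ) (h : EllH κ W) : W.PosDef := by
  have := (Matrix.PosDef.one.smul (zero_lt_real.2 hκ)).add_posSemidef (psd h)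
  rwa [add_sub_cancel] at this

theorem ell_of_tr {c : ℝ} {W : Mat n} (hc : 0 < c) (hW : W.PosDef) (h : W⁻¹.trace.re ≤ c) :
    EllH c⁻¹ W := by
  refine ⟨hW.1, fun v => ?_⟩
  have := (HS76.le_tr_smul (c := c) hW Matrix.PosSemidef.one (by rwa [mul_one])).re_dotProduct_nonneg v
  have e := quad 1 ((c : ℂ) • W) v
  rw [ofReal_one, one_smul] at e
  rw [e, Matrix.smul_mulVec, dotProduct_smul] at this
  simp only [RCLike.re_to_complex, sub_re, smul_eq_mul, re_ofReal_mul, ofReal_re, one_mul] at this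
  rw [inv_mul_le_iff₀ hc]
  linarith

theorem det_in (hF : St_FAM n) {k : ℕ} {A : T → E n → Mat n} (h : LBM k z A) (he : LE z A) :
    ∃ K : Set ℂ, IsCompact K ∧ (∀ y ∈ K, 0 < y.re) ∧ ∀ᶠ w in 𝓝 z, ∀ t, (A t w).det ∈ K := by
  obtain ⟨κ, hκ, S, hS, he⟩ := he
  obtain ⟨U, hU, M, hM⟩ := hF.ls T k z _ (det hF h)
  refine ⟨closedBall 0 M ∩ {y | κ ^ n ≤ y.re}, (isCompact_closedBall _ _).inter_right
    (isClosed_le continuous_const continuous_re), fun y hy => (pow_pos hκ n).trans_le hy.2, ?_⟩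
  filter_upwards [hS, hU] with w h1 h2 t
  refine ⟨mem_closedBall_zero_iff.2 ((hM t).2 w h2), ?_⟩
  simpa using HS76.le_det_of_le Matrix.PosDef.one (he t w h1).1 hκ.le (psd (he t w h1))

theorem inv (hF : St_FAM n) {k : ℕ} {A : T → E n → Mat n} (h : LBM k z A) (he : LE z A) :
    LBM k z (fun t w => (A t w)⁻¹) ∧ LE z fun t w => (A t w)⁻¹ := by
  constructor
  · obtain ⟨K, hK, hp, hm⟩ := det_in hF h he
    intro i j
    simp only [Matrix.inv_def, Ring.inverse_eq_inv', Matrix.smul_apply, smul_eq_mul]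
    exact hF.mul T k z _ _ (post hF hK hm k (fun y => y⁻¹) (fun y hy => contDiffAt_id.inv
      fun h0 => (hp y hy).ne' (by rw [show y = 0 from h0, zero_re])) (det hF h)) (adj hF h i j)
  · obtain ⟨κ, hκ, S, hS, he⟩ := he
    obtain ⟨U, hU, M, hM⟩ := hF.ls T k z _ (trace hF h)
    have hc : 0 < |M| + 1 := by positivity
    refine ⟨_, inv_pos.2 hc, _, inter_mem hS hU, fun t w hw => ?_⟩
    have hp := pd hκ (he t w hw.1)
    refine ell_of_tr hc hp.inv ?_
    rw [Matrix.nonsing_inv_nonsing_inv _ ((Matrix.isUnit_iff_isUnit_det _).1 hp.isUnit)]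
    linarith [re_le_norm (A t w).trace, (hM t).2 w hw.2, le_abs_self M]

theorem ld (hF : St_FAM n) {k : ℕ} {A : T → E n → Mat n} (h : LBM k z A) (he : LE z A) :
    LB k z fun t => ld (A t) := by
  obtain ⟨K, hK, hp, hm⟩ := det_in hF h he
  exact post hF hK hm k (fun y => (Real.log y.re : ℝ)) (fun y hy =>
    ofRealCLM.contDiff.contDiffAt.comp y (reCLM.contDiff.contDiffAt.log (hp y hy).ne')) (det hF h)

theorem leFix {A : E n → Mat n} (hc : ∀ i j, ContinuousAt (fun w => A w i j) z)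
    (hp : ∀ᶠ w in 𝓝 z, (A w).PosDef) : LE z fun _ : T => A := by
  have h1 : ContinuousAt A z := continuousAt_pi.2 fun i => continuousAt_pi.2 fun j => hc i j
  have h2 : ContinuousAt (fun w => (A w)⁻¹.trace.re) z := by
    refine continuous_re.continuousAt.comp (continuous_id.matrix_trace.continuousAt.comp
      ((continuousAt_matrix_inv (A z) ?_).comp h1))
    rw [Ring.inverse_eq_inv']
    exact continuousAt_inv₀ hp.self_of_nhds.det_pos.ne'
  have hc : 0 < |(A z)⁻¹.trace.re| + 1 := by positivity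
  refine ⟨_, inv_pos.2 hc, _, inter_mem hp (h2.eventually_lt continuousAt_const ?_),
    fun t w hw => ell_of_tr hc hw.1 (le_of_lt hw.2)⟩
  linarith [le_abs_self (A z)⁻¹.trace.re]

end FAM2

theorem st_FAM2 {n : ℕ} (hF : St_FAM n) : St_FAM2 n where
  comp _ k _ _ f hτ := FAM2.comp hF hτ k f
  compS _ _ _ _ := FAM2.compS
  post _ k _ φ _ _ hK hφ hf := FAM2.post hF hK hf k φ hφ
  mmul T k z A B hA hB i j := by
    simp only [Matrix.mul_apply]
    exact hF.sum T _ k z _ _ fun l _ => hF.mul T k z _ _ (hA i l) (hB l j)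
  trace _ _ _ _ := FAM2.trace hF
  det _ _ _ _ := FAM2.det hF
  inv _ _ _ _ := FAM2.inv hF
  ld _ _ _ _ := FAM2.ld hF
  leFix _ _ _ := FAM2.leFix

end Pool.Agent.Lib.HS21
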