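import Pool.Agent.Lib.HS21.LBlue
import Pool.Agent.Lib.HS33.HO

/-! Algebra of the Hoelder classes. -/

open scoped Classical Topology ContDiff SchwartzMap
open Set Filter Complex Metric

noncomputable section

namespace Pool.Agent.Lib.HS21

open Pool.Agent.Lib.SV (E)

namespace HK

variable {n : ℕ}

theorem closed (k : ℕ) (S : Set (E n)) (f : E n → ℂ) (M : ℝ)
    (h : ∀ ε, 0 < ε → HO k S f (M + ε)) : HO k S f M := by
  refine HO.of_dl fun l hl => ?_
  have h0 := fun ε hε => HO.dl (k := 0) l ((h ε hε).anti (by omega))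
  refine ⟨fun x hx => le_of_forall_pos_le_add fun ε hε => (h0 ε hε).1 x hx, fun x hx y hy => ?_⟩
  refine le_of_forall_pos_le_add fun ε hε => ?_
  have hs := Real.sqrt_nonneg ‖x - y‖
  have := (h0 (ε / (√‖x - y‖ + 1)) (by positivity)).2 x hx y hy
  have h2 : ε / (√‖x - y‖ + 1) * √‖x - y‖ ≤ ε := by
    rw [div_mul_eq_mul_div, div_le_iff₀ (by positivity)]
    nlinarith
  linarith

theorem lip : ∃ C, 0 ≤ C ∧ ∀ (S : Set (E n)) f M, Convex ℝ S → SmO S f → Su S f M →
    (∀ i, Su S (D i f) M) → HO 0 S f (C * M) := by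
  obtain ⟨C, hC, h⟩ := HO.fd_le n
  refine ⟨C + 2, by positivity, fun S f M hS sf h0 h1 => ?_⟩
  exact (HO.of_fd hS sf one_pos le_rfl h0 fun x hx => h f M x ((norm_nonneg _).trans (h0 x hx))
    fun i => h1 i x hx).mono (le_of_eq (by ring))

theorem Dl_sm (l : List (Ix n)) {w : E n → ℂ} (h : ContDiff ℝ ∞ w) : ContDiff ℝ ∞ (Dl l w) :=
  ((SmO.of_cd h univ).dl l).cd

theorem D_sm {w : E n → ℂ} (h : ContDiff ℝ ∞ w) (i : Ix n) : ContDiff ℝ ∞ (D i w) := Dl_sm [i] h

theorem decD {w : E n → ℂ} (i : Ix n) (h : Dec w) : Dec (D i w) :=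
  ⟨D_sm h.1 i, fun l => h.2 (i :: l)⟩

theorem Dl_add (l : List (Ix n)) : ∀ {f g : E n → ℂ}, ContDiff ℝ ∞ f → ContDiff ℝ ∞ g →
    Dl l (fun x => f x + g x) = fun x => Dl l f x + Dl l g x := by
  induction l with
  | nil => exact fun _ _ => rfl
  | cons i l ih =>
    intro f g sf sg
    have e : D i (fun x => f x + g x) = fun x => D i f x + D i g x := HS33.Dv_add sf sg _
    simp only [Dl, e]
    exact ih (D_sm sf i) (D_sm sg i)

theorem decAdd {w w' : E n → ℂ} (h : Dec w) (h' : Dec w') : Dec fun x => w x + w' x :=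
  ⟨h.1.add h'.1, fun l => by
    rw [Dl_add l h.1 h'.1]
    simpa using (h.2 l).add (h'.2 l)⟩

theorem decMul_aux (l : List (Ix n)) : ∀ {a w : E n → ℂ}, ContDiff ℝ ∞ a →
    (∀ k, ∃ M, HO k univ a M) → Dec w →
      Tendsto (Dl l fun x => a x * w x) (cocompact (E n)) (𝓝 0) := by
  induction l with
  | nil =>
    intro a w _ ha hw
    obtain ⟨M, hM⟩ := ha 0
    exact isBoundedUnder_le_mul_tendsto_zero
      ⟨M, Eventually.of_forall (f := cocompact (E n)) fun x => hM.su x trivial⟩ (hw.2 [])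
  | cons i l ih =>
    intro a w sa ha hw
    have e : D i (fun x => a x * w x) = fun x => D i a x * w x + a x * D i w x :=
      HS33.Dv_mul sa hw.1 _
    simp only [Dl, e]
    rw [Dl_add l ((D_sm sa i).mul hw.1) (sa.mul (D_sm hw.1 i))]
    simpa using (ih (D_sm sa i) (fun k => (ha (k + 1)).imp fun M h => h.d i) hw).add
      (ih sa ha (decD i hw))

theorem dec_su {w : E n → ℂ} (h : Dec w) : ∃ M, 0 < M ∧ Su univ w M := by
  obtain ⟨K, hK, hs⟩ := mem_cocompact.1 ((h.2 []).eventually (ball_mem_nhds (0 : ℂ) one_pos))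
  obtain ⟨A, hA⟩ := hK.exists_bound_of_continuousOn h.1.continuous.continuousOn
  refine ⟨|A| + 1, by positivity, fun x _ => ?_⟩
  have := abs_nonneg A
  by_cases hx : x ∈ K
  · linarith [hA x hx, le_abs_self A]
  · have h1 : ‖w x‖ < 1 := by simpa [Dl] using hs hx
    linarith

theorem decHO (k : ℕ) : ∀ {w : E n → ℂ}, Dec w → ∃ M, 0 < M ∧ HO k univ w M := by
  have h0 : ∀ {w : E n → ℂ}, Dec w → ∃ M, 0 < M ∧ HO 0 univ w M := fun {w} h => by
    obtain ⟨C, hC, hl⟩ := lip (n := n)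
    obtain ⟨A, hA, h1⟩ := dec_su h
    choose B hB h2 using fun i => dec_su (decD i h)
    have hs : 0 ≤ ∑ i, B i := Finset.sum_nonneg fun i _ => (hB i).le
    refine ⟨C * (A + ∑ i, B i) + 1, by positivity, (hl univ w (A + ∑ i, B i) convex_univ
      (SmO.of_cd h.1 _)
      (fun x hx => (h1 x hx).trans (by linarith)) fun i x hx => (h2 i x hx).trans ?_).mono
      (by linarith)⟩
    linarith [Finset.single_le_sum (fun i _ => (hB i).le) (Finset.mem_univ i)]
  induction k with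
  | zero => exact h0
  | succ k ih =>
    intro w h
    obtain ⟨A, hA, h1⟩ := h0 h
    choose B hB h2 using fun i => ih (decD i h)
    have hs : 0 ≤ ∑ i, B i := Finset.sum_nonneg fun i _ => (hB i).le
    refine ⟨A + ∑ i, B i, by positivity, HO.succ (h1.mono (by linarith)) fun i => (h2 i).mono ?_⟩
    linarith [Finset.single_le_sum (fun i _ => (hB i).le) (Finset.mem_univ i)]

theorem Dl_cs (l : List (Ix n)) : ∀ {w : E n → ℂ}, HasCompactSupport w →
    HasCompactSupport (Dl l w) := by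
  induction l with
  | nil => exact fun h => h
  | cons i l ih => exact fun h => ih (HS33.Dv_cs h _)

theorem decSch (l : List (Ix n)) : ∀ w : 𝓢(E n, ℂ), Tendsto (Dl l w) (cocompact (E n)) (𝓝 0) := by
  induction l with
  | nil => exact fun w => w.tendsto_cocompact
  | cons i l ih =>
    intro w
    exact ih (LineDeriv.lineDerivOp (bs n i) w)

end HK

theorem st_HK {n : ℕ} : St_HK n where
  mono _ _ _ _ _ _ hS hM h := (h.subset hS).mono hM
  anti _ _ _ _ _ hj h := h.anti hj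
  congr _ _ _ _ _ e h := h.congr e
  closed := HK.closed
  zero k S _ hM := HO.const k S 0 (by rwa [norm_zero])
  const k S c := HO.const k S c le_rfl
  add _ _ _ _ _ _ := HO.add
  sub _ _ _ _ _ _ := HO.sub
  smul _ _ c _ _ := HO.const_mul c
  sum _ _ _ s _ _ := HO.sum s
  mul _ _ _ _ _ _ := HO.mul
  lin _ _ φ _ _ := HO.clm φ (norm_nonneg _) φ.le_opNorm
  smD _ _ i h := h.d i
  comm _ _ i j h := (D_comm h i j).eq_of_nhds
  succ k j _ _ _ i h := HO.d (by rwa [Nat.add_right_comm] at h) i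
  lip := HK.lip
  decD _ := HK.decD
  decAdd _ _ := HK.decAdd
  decMul _ _ sa ha hw := ⟨sa.mul hw.1, fun l => HK.decMul_aux l sa ha hw⟩
  decHO _ k := HK.decHO k
  decCs _ h hc := ⟨h, fun l => (HK.Dl_cs l hc).is_zero_at_infty⟩
  decSch w := ⟨w.smooth', fun l => HK.decSch l w⟩

end Pool.Agent.Lib.HS21
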