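import Pool.Agent.Lib.HS21.LBlue

/-! Interpolation inequalities for the Hölder classes. -/

open scoped Classical Topology ContDiff
open Set Filter Complex Metric

set_option linter.unusedVariables false

noncomputable section

namespace Pool.Agent.Lib.HS21

open Pool.Agent.Lib.SV (E)

namespace INTP

variable {n : ℕ}

theorem norm_bs (i : Ix n) : ‖bs n i‖ = 1 := by
  obtain ⟨j, a⟩ := i
  unfold bs
  rw [Pi.basis_apply, Pi.norm_single]
  fin_cases a <;> simp

theorem h0 {k : ℕ} {S : Set (E n)} {f : E n → ℂ} {M : ℝ} (h : HO k S f M) :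
    Su S f M ∧ Ho S f M := by
  cases k with
  | zero => exact h
  | succ k => exact h.1

theorem diff {S : Set (E n)} {f : E n → ℂ} (h : SmO S f) {x : E n} (hx : x ∈ S) :
    DifferentiableAt ℝ f x := (h x hx).differentiableAt (by simp)

/-- The derivative is controlled by the derivatives along the basis. -/
theorem fd_le (n : ℕ) : ∃ c, 0 < c ∧ ∀ (f : E n → ℂ) (z : E n) (M : ℝ), 0 ≤ M →
    (∀ i, ‖D i f z‖ ≤ M) → ‖fderiv ℝ f z‖ ≤ c * M := by
  refine ⟨(∑ i, ‖LinearMap.toContinuousLinearMap ((bs n).coord i)‖) + 1, by positivity, ?_⟩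
  intro f z M hM h
  refine ContinuousLinearMap.opNorm_le_bound _ (by positivity) fun v => ?_
  have hv : fderiv ℝ f z v = ∑ i, (bs n).repr v i • D i f z := by
    conv_lhs => rw [← (bs n).sum_repr v]
    rw [map_sum]
    simp [D]
  rw [hv]
  have h1 : ∀ i, ‖(bs n).repr v i • D i f z‖ ≤
      ‖LinearMap.toContinuousLinearMap ((bs n).coord i)‖ * (M * ‖v‖) := by
    intro i
    rw [norm_smul]
    have := (LinearMap.toContinuousLinearMap ((bs n).coord i)).le_opNorm v
    have e : LinearMap.toContinuousLinearMap ((bs n).coord i) v = (bs n).repr v i := by simp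
    rw [e] at this
    calc _ ≤ (‖LinearMap.toContinuousLinearMap ((bs n).coord i)‖ * ‖v‖) * M :=
          mul_le_mul this (h i) (norm_nonneg _) (by positivity)
      _ = _ := by ring
  calc _ ≤ ∑ i, ‖(bs n).repr v i • D i f z‖ := norm_sum_le _ _
    _ ≤ ∑ i, ‖LinearMap.toContinuousLinearMap ((bs n).coord i)‖ * (M * ‖v‖) :=
        Finset.sum_le_sum fun i _ => h1 i
    _ = (∑ i, ‖LinearMap.toContinuousLinearMap ((bs n).coord i)‖) * (M * ‖v‖) := by
        rw [Finset.sum_mul]
    _ ≤ _ := by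
        have : 0 ≤ M * ‖v‖ := by positivity
        nlinarith

theorem ip0 (ε r : ℝ) (hε : 0 < ε) (hr : 0 < r) : ∃ C, 0 ≤ C ∧ ∀ (f : E n → ℂ) i x M B,
    SmO (closedBall x r) f → Ho (closedBall x r) (D i f) M → Su (closedBall x r) f B → 0 ≤ M →
    ‖D i f x‖ ≤ ε * M + C * B := by
  set h := min r (ε ^ 2) with hh
  have h0 : 0 < h := lt_min hr (by positivity)
  have hr' : h ≤ r := min_le_left _ _
  have he : √h ≤ ε := by
    rw [Real.sqrt_le_left hε.le]; exact min_le_right _ _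
  refine ⟨2 / h, by positivity, ?_⟩
  intro f i x M B sf ho su hM
  have mem : ∀ s ∈ Icc (0 : ℝ) h, x + s • bs n i ∈ closedBall x r := by
    intro s hs
    rw [mem_closedBall, dist_eq_norm, add_sub_cancel_left, norm_smul, norm_bs, mul_one,
      Real.norm_eq_abs, abs_of_nonneg hs.1]
    exact hs.2.trans hr'
  have der : ∀ s ∈ Icc (0 : ℝ) h, HasDerivWithinAt (fun s : ℝ => f (x + s • bs n i) - s • D i f x)
      (D i f (x + s • bs n i) - D i f x) (Icc 0 h) s := by
    intro s hs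
    have h1 : HasDerivAt (fun s : ℝ => x + s • bs n i) (bs n i) s := by
      simpa using ((hasDerivAt_id s).smul_const (bs n i)).const_add x
    have h2 := (diff sf (mem s hs)).hasFDerivAt.comp_hasDerivAt s h1
    have h3 : HasDerivAt (fun s : ℝ => s • D i f x) (D i f x) s := by
      simpa using (hasDerivAt_id s).smul_const (D i f x)
    exact (h2.sub h3).hasDerivWithinAt
  have bd : ∀ s ∈ Ico (0 : ℝ) h, ‖D i f (x + s • bs n i) - D i f x‖ ≤ M * ε := by
    intro s hs
    have := ho _ (mem s (Ico_subset_Icc_self hs)) x (mem_closedBall_self hr.le)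
    rw [add_sub_cancel_left, norm_smul, norm_bs, mul_one, Real.norm_eq_abs,
      abs_of_nonneg hs.1] at this
    refine this.trans (mul_le_mul_of_nonneg_left ?_ hM)
    exact (Real.sqrt_le_sqrt hs.2.le).trans he
  have mv := norm_image_sub_le_of_norm_deriv_le_segment' der bd h ⟨h0.le, le_rfl⟩
  simp only [zero_smul, add_zero, sub_zero] at mv
  have b1 := su _ (mem h ⟨h0.le, le_rfl⟩)
  have b2 := su x (mem_closedBall_self hr.le)
  have e : h • D i f x = f (x + h • bs n i) - f x - (f (x + h • bs n i) - h • D i f x - f x) := by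
    ring
  have h4 : h * ‖D i f x‖ ≤ 2 * B + M * ε * h := by
    have h5 : ‖h • D i f x‖ = h * ‖D i f x‖ := by
      rw [norm_smul, Real.norm_eq_abs, abs_of_pos h0]
    rw [← h5, e]
    have := norm_sub_le (f (x + h • bs n i) - f x) (f (x + h • bs n i) - h • D i f x - f x)
    have := norm_sub_le (f (x + h • bs n i)) (f x)
    linarith
  have e2 : ε * M + 2 / h * B = (2 * B + M * ε * h) / h := by field_simp; ring
  rw [e2, le_div_iff₀ h0]
  linarith

/-- Near points use the derivative, far points use the uniform bound. -/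
theorem hoNF (ε r : ℝ) (hε : 0 < ε) (hr : 0 < r) : ∃ c, 0 < c ∧ ∀ (S S' : Set (E n)) g M N,
    (∀ x ∈ S, closedBall x r ⊆ S') → SmO S' g → (∀ i, Su S' (D i g) M) → Su S g N → 0 ≤ M →
    Ho S g (ε * M + c * N) := by
  obtain ⟨c, hc, hfd⟩ := fd_le n
  set δ := min r ((ε / c) ^ 2) with hδ
  have d0 : 0 < δ := lt_min hr (by positivity)
  have dr : δ ≤ r := min_le_left _ _
  have de : √δ ≤ ε / c := by
    rw [Real.sqrt_le_left (by positivity)]; exact min_le_right _ _
  have s0 : 0 < √δ := Real.sqrt_pos.2 d0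
  refine ⟨2 / √δ, by positivity, ?_⟩
  intro S S' g M N hS sg hD su hM x hx y hy
  have hN : 0 ≤ N := (norm_nonneg _).trans (su x hx)
  have t0 : 0 ≤ √‖x - y‖ := Real.sqrt_nonneg _
  have c1 : 0 ≤ 2 / √δ * N := by positivity
  have c2 : 0 ≤ ε * M := by positivity
  rcases le_total ‖x - y‖ δ with h | h
  · have hyb : y ∈ closedBall x r := by
      rw [mem_closedBall, dist_comm, dist_eq_norm]; exact h.trans dr
    have mv := (convex_closedBall x r).norm_image_sub_le_of_norm_fderiv_le (𝕜 := ℝ) (f := g)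
      (C := c * M) (fun z hz => diff sg (hS x hx hz))
      (fun z hz => hfd g z M hM fun i => hD i z (hS x hx hz)) hyb (mem_closedBall_self hr.le)
    have h1 : √‖x - y‖ ≤ ε / c := (Real.sqrt_le_sqrt h).trans de
    have h2 : c * √‖x - y‖ ≤ ε := by rwa [le_div_iff₀ hc, mul_comm] at h1
    have h3 : ‖x - y‖ = √‖x - y‖ * √‖x - y‖ := (Real.mul_self_sqrt (norm_nonneg _)).symm
    calc _ ≤ c * M * ‖x - y‖ := mv
      _ = (c * √‖x - y‖) * (M * √‖x - y‖) := by
          conv_lhs => rw [h3]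
          ring
      _ ≤ ε * (M * √‖x - y‖) := mul_le_mul_of_nonneg_right h2 (by positivity)
      _ ≤ _ := by nlinarith [mul_nonneg c1 t0]
  · have h1 : √δ ≤ √‖x - y‖ := Real.sqrt_le_sqrt h
    have h2 := norm_sub_le (g x) (g y)
    have h3 := su x hx
    have h4 := su y hy
    have e : 2 * N = 2 / √δ * N * √δ := by field_simp
    calc _ ≤ 2 * N := by linarith
      _ = 2 / √δ * N * √δ := e
      _ ≤ 2 / √δ * N * √‖x - y‖ := mul_le_mul_of_nonneg_left h1 c1
      _ ≤ _ := by nlinarith [mul_nonneg c2 t0]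

theorem ip1 (hk : St_HK n) (ε r : ℝ) (hε : 0 < ε) (hr : 0 < r) : ∃ C, 1 ≤ C ∧
    ∀ (S S' : Set (E n)) f M B, (∀ x ∈ S, closedBall x r ⊆ S') → SmO S' f → HO 2 S' f M →
      Su S' f B → HO 1 S f (ε * M + C * B) := by
  obtain ⟨c, hc, hNF⟩ := hoNF (n := n) (ε / 2) r (by positivity) hr
  obtain ⟨C, hC, h0'⟩ := ip0 (n := n) (ε / (2 * (c + 1))) r (by positivity) hr
  refine ⟨(c + 1) * (C + 1), by nlinarith, ?_⟩
  intro S S' f M B hS sf h2 su
  rcases S.eq_empty_or_nonempty with rfl | ⟨x0, hx0⟩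
  · exact ⟨⟨fun x hx => hx.elim, fun x hx => hx.elim⟩,
      fun i => ⟨fun x hx => hx.elim, fun x hx => hx.elim⟩⟩
  have sub : S ⊆ S' := fun x hx => hS x hx (mem_closedBall_self hr.le)
  have hM : 0 ≤ M := (norm_nonneg _).trans (h2.1.1 x0 (sub hx0))
  have hB : 0 ≤ B := (norm_nonneg _).trans (su x0 (sub hx0))
  have suS : Su S f B := fun x hx => su x (sub hx)
  have sD : ∀ i, Su S (D i f) (ε / (2 * (c + 1)) * M + C * B) := fun i x hx =>
    h0' f i x M B (fun z hz => sf z (hS x hx hz))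
      (fun z hz w hw => (h2.2 i).1.2 z (hS x hx hz) w (hS x hx hw))
      (fun z hz => su z (hS x hx hz)) hM
  have p1 : 0 ≤ ε * M := by positivity
  have p2 : 0 ≤ c * B := by positivity
  have p3 : 0 ≤ C * B := by positivity
  have p4 : 0 ≤ c * (C * B) := by positivity
  have q : 0 ≤ ε / (2 * (c + 1)) * M := by positivity
  have e : (c + 1) * (ε / (2 * (c + 1)) * M) = ε / 2 * M := by field_simp
  have p5 : 0 ≤ c * (ε / (2 * (c + 1)) * M) := by positivity
  have mo : ∀ (g : E n → ℂ) (a b : ℝ), a ≤ b → Ho S g a → Ho S g b := fun g a b hab h x hx y hy =>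
    (h x hx y hy).trans (mul_le_mul_of_nonneg_right hab (Real.sqrt_nonneg _))
  refine ⟨⟨fun x hx => (suS x hx).trans (by nlinarith), ?_⟩, fun i => ⟨fun x hx => ?_, ?_⟩⟩
  · exact mo _ _ _ (by nlinarith) (hNF S S' f M B hS sf (fun i => (h2.2 i).1.1) suS hM)
  · exact (sD i x hx).trans (by nlinarith)
  · exact mo _ _ _ (by nlinarith) (hNF S S' (D i f) M _ hS (hk.smD _ _ i sf)
      (fun j => ((h2.2 i).2 j).1) (sD i) hM)

theorem ipk (hk : St_HK n) (ε r : ℝ) (hε : 0 < ε) (hr : 0 < r) : ∃ C, 1 ≤ C ∧ ∀ (k : ℕ)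
    (S S' : Set (E n)) f M B, (∀ x ∈ S, closedBall x r ⊆ S') → SmO S' f → HO (k + 2) S' f M →
      HO k S' f B → HO (k + 1) S f (ε * M + C * B) := by
  obtain ⟨C, hC, h1⟩ := ip1 hk ε r hε hr
  refine ⟨C, hC, fun k => ?_⟩
  induction k with
  | zero => exact fun S S' f M B hS sf hM hB => h1 S S' f M B hS sf hM hB.1
  | succ k ih =>
    intro S S' f M B hS sf hM hB
    have sub : S ⊆ S' := fun x hx => hS x hx (mem_closedBall_self hr.le)
    have le : ∀ x ∈ S, B ≤ ε * M + C * B := by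
      intro x hx
      have a : 0 ≤ M := (norm_nonneg _).trans (hM.1.1 x (sub hx))
      have b : 0 ≤ B := (norm_nonneg _).trans (hB.1.1 x (sub hx))
      nlinarith [mul_nonneg hε.le a]
    refine ⟨⟨fun x hx => (hB.1.1 x (sub hx)).trans (le x hx), fun x hx y hy => ?_⟩, fun i => ?_⟩
    · exact (hB.1.2 x (sub hx) y (sub hy)).trans
        (mul_le_mul_of_nonneg_right (le x hx) (Real.sqrt_nonneg _))
    · exact ih S S' (D i f) M B hS (hk.smD _ _ i sf) (hM.2 i) (hB.2 i)

end INTP

theorem st_INTP {n : ℕ} (hk : St_HK n) : St_INTP n where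
  ip0 := fun ε r hε hr => INTP.ip0 ε r hε hr
  ip1 := fun ε r hε hr => by
    obtain ⟨C, hC, h⟩ := INTP.ip1 hk ε r hε hr
    exact ⟨C, by linarith, h⟩
  ipk := fun k ε r hε hr => by
    obtain ⟨C, hC, h⟩ := INTP.ipk hk ε r hε hr
    exact ⟨C, by linarith, h k⟩

end Pool.Agent.Lib.HS21
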