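import Pool.Agent.Lib.HS21.LBlue
import Pool.Agent.Lib.HS32.MKit

open scoped Classical Topology ContDiff ComplexOrder Matrix ENNReal
open Set Filter Complex Metric MeasureTheory

noncomputable section

namespace Pool.Agent.Lib.HS21

open Pool.Agent.Lib.SV (E)
open Pool.Agent.Lib.HS32

namespace L2

variable {n : ℕ} {M : Mf n}

theorem mu_img [M.Cpt] {H : M.Fam (Mat n)} {μ : Measure M.X} (h : M.IsMu H μ) {e : M.Ch}
    (he : e ∈ M.C) {K : Set (E n)} (hK : IsCompact K) (hs : K ⊆ e.target) :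
    MeasurableSet (e.symm '' K) ∧
      μ (e.symm '' K) = ∫⁻ z in K, ENNReal.ofReal (H e z).det.re := by
  have hm : MeasurableSet (e.symm '' K) :=
    (hK.image_of_continuousOn (e.continuousOn_symm.mono hs)).isClosed.measurableSet
  refine ⟨hm, ?_⟩
  have h1 : e.symm '' K ⊆ e.source := by
    rintro _ ⟨z, hz, rfl⟩
    exact e.map_target (hs hz)
  have h2 : AEMeasurable e.symm (volume.restrict e.target) :=
    e.continuousOn_symm.aemeasurable e.open_target.measurableSet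
  have h3 : e.symm ⁻¹' (e.symm '' K) ∩ e.target = K := by
    ext z
    constructor
    · rintro ⟨⟨w, hw, e1⟩, hz⟩
      rwa [← e.symm.injOn (hs hw) hz e1]
    · exact fun hz => ⟨⟨z, hz, rfl⟩, hs hz⟩
  rw [← Measure.restrict_eq_self μ h1, h e he,
    Measure.map_apply_of_aemeasurable (h2.mono_ac (withDensity_absolutelyContinuous _ _)) hm,
    withDensity_apply', Measure.restrict_restrict' e.open_target.measurableSet, h3]

theorem two_sided {K : Set (E n)} (hK : IsCompact K) {f : E n → ℝ} (hf : ContinuousOn f K)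
    (h0 : ∀ z ∈ K, 0 < f z) : ∃ c C, 0 < c ∧ 0 < C ∧ ∀ z ∈ K, c ≤ f z ∧ f z ≤ C := by
  rcases K.eq_empty_or_nonempty with rfl | hne
  · exact ⟨1, 1, one_pos, one_pos, fun z hz => hz.elim⟩
  · obtain ⟨a, ha, h1⟩ := hK.exists_isMinOn hne hf
    obtain ⟨b, hb, h2⟩ := hK.exists_isMaxOn hne hf
    exact ⟨f a, f b, h0 a ha, h0 b hb, fun z hz => ⟨h1 hz, h2 hz⟩⟩

theorem kb_sub (V : M.Cov) (a : Fin V.r) : Kb V a ⊆ (V.e a).target :=
  (closedBall_subset_closedBall (by linarith [V.pos a])).trans (V.sub a)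

theorem det_bd {H : M.Fam (Mat n)} (hH : M.Met H) (V : M.Cov) (a : Fin V.r) :
    ∃ c C, 0 < c ∧ 0 < C ∧ ∀ z ∈ Kb V a, c ≤ (H (V.e a) z).det.re ∧ (H (V.e a) z).det.re ≤ C := by
  refine two_sided (isCompact_closedBall _ _) (fun z hz => ?_) fun z hz => ?_
  · have h1 : ContinuousAt (H (V.e a)) z := continuousAt_pi.2 fun i => continuousAt_pi.2 fun j =>
      (hH.sm _ (V.mem a) z (kb_sub V a hz) i j).continuousAt
    exact (continuous_re.continuousAt.comp
      ((continuous_id.matrix_det).continuousAt.comp h1)).continuousWithinAt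
  · exact (Complex.pos_iff.1 (hH.pos _ (V.mem a) z (kb_sub V a hz)).det_pos).1

theorem cov_kb (V : M.Cov) (x : M.X) : ∃ a, ∃ z ∈ Kb V a, (V.e a).symm z = x := by
  obtain ⟨a, h1, h2, -⟩ := V.cov x
  exact ⟨a, V.e a x, (ball_subset_closedBall.trans
    (closedBall_subset_closedBall (by linarith [V.pos a]))) h2, (V.e a).left_inv h1⟩

theorem mu_fin [M.Cpt] {H : M.Fam (Mat n)} {μ : Measure M.X} (hH : M.Met H) (h : M.IsMu H μ)
    (V : M.Cov) : IsFiniteMeasure μ := by
  refine ⟨lt_of_le_of_lt (measure_mono (t := ⋃ a, (V.e a).symm '' Kb V a) fun x _ => ?_)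
    (lt_of_le_of_lt (measure_iUnion_fintype_le _ _) (ENNReal.sum_lt_top.2 fun a _ => ?_))⟩
  · obtain ⟨a, z, hz, e⟩ := cov_kb V x
    exact mem_iUnion.2 ⟨a, z, hz, e⟩
  · obtain ⟨c, C, -, -, hb⟩ := det_bd hH V a
    rw [(mu_img h (V.mem a) (K := Kb V a) (isCompact_closedBall _ _) (kb_sub V a)).2]
    refine lt_of_le_of_lt (setLIntegral_mono' (g := fun _ => ENNReal.ofReal C)
      measurableSet_closedBall fun z hz => ENNReal.ofReal_le_ofReal (hb z hz).2) ?_
    rw [setLIntegral_const]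
    exact ENNReal.mul_lt_top ENNReal.ofReal_lt_top measure_closedBall_lt_top

theorem q_cont {m : ℕ} {φ : M.Fam ℝ} {f : M.X → ℝ} {s : M.Fam ℂ}
    (hφ : M.All fun e z => ContinuousAt (φ e) z) (hs : M.Sec m s)
    (hq : M.Rep f fun e z => ‖s e z‖ ^ 2 * Real.exp (φ e z)) : Continuous f := by
  refine continuous_iff_continuousAt.2 fun x => ?_
  have h0 : ContinuousAt (fun z => ‖s (M.ch x) z‖ ^ 2 * Real.exp (φ (M.ch x) z)) (M.ch x x) :=
    ((Mf.AllOn.ch hs.sm x).continuousAt.norm.pow 2).mul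
      (Real.continuous_exp.continuousAt.comp (Mf.AllOn.ch hφ x))
  refine (h0.comp ((M.ch x).continuousAt (Mf.mem_ch x))).congr ?_
  exact ((M.ch x).open_source.eventually_mem (Mf.mem_ch x)).mono fun y hy =>
    (hq.at (Mf.ch_mem x) hy).symm

theorem sh_sec {m : ℕ} {L : Op M} (hL : L.Ok m) (τ : ℝ) {s : M.Fam ℂ} (hs : M.Sec m s) :
    M.Sec m (L.sh τ s) where
  sm := fun e he z hz =>
    (contDiffAt_const.mul (hs.sm e he z hz)).sub ((hL.sec s hs).sm e he z hz)
  cmp := fun e he e' he' x hx hx' => by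
    have h1 := hs.cmp e he e' he' x hx hx'
    have h2 := (hL.sec s hs).cmp e he e' he' x hx hx'
    simp only [Op.sh] at h1 h2 ⊢
    rw [h1, h2]
    ring

theorem small_ball {c z : E n} {R l : ℝ} (hz : z ∈ closedBall c R) (h0 : 0 ≤ l) (h1 : l ≤ 1) :
    ∀ y ∈ closedBall (z + l • (c - z)) (l * R), y ∈ closedBall c R ∧ ‖z - y‖ ≤ 2 * (l * R) := by
  intro y hy
  rw [mem_closedBall, dist_eq_norm] at hy hz ⊢
  have e1 : y - c = (y - (z + l • (c - z))) + (1 - l) • (z - c) := by module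
  have e2 : z - y = -(y - (z + l • (c - z))) + l • (z - c) := by module
  constructor
  · rw [e1]
    refine (norm_add_le _ _).trans ?_
    rw [norm_smul, Real.norm_of_nonneg (by linarith)]
    nlinarith [mul_le_mul_of_nonneg_left hz (show 0 ≤ 1 - l by linarith)]
  · rw [e2]
    refine (norm_add_le _ _).trans ?_
    rw [norm_neg, norm_smul, Real.norm_of_nonneg h0]
    nlinarith [mul_le_mul_of_nonneg_left hz h0]

/-- The local lower bound for the integral. -/
theorem low [M.Cpt] {H : M.Fam (Mat n)} {μ : Measure M.X} (hH : M.Met H) (h : M.IsMu H μ)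
    (V : M.Cov) (a : Fin V.r) {φ : M.Fam ℝ} (hφ : M.All fun e z => ContinuousAt (φ e) z)
    {ε : ℝ} (hε : 0 < ε) : ∃ κ, 0 < κ ∧ ∀ (m : ℕ) (s : M.Fam ℂ) (f : M.X → ℝ) (B : ℝ),
      M.Sec m s → (M.Rep f fun e z => ‖s e z‖ ^ 2 * Real.exp (φ e z)) → 0 ≤ B →
      Ho (Kb V a) (s (V.e a)) B → ∀ z ∈ Kb V a, ε * B ≤ ‖s (V.e a) z‖ →
        κ * (‖s (V.e a) z‖ - ε * B) ^ 2 ≤ ∫ x, f x ∂μ := by
  have := mu_fin hH h V
  obtain ⟨c, C, hc, -, hb⟩ := det_bd hH V a
  obtain ⟨c', C', hc', -, hb'⟩ := two_sided (isCompact_closedBall (V.c a) (2 * V.ρ a))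
    (f := fun z => Real.exp (φ (V.e a) z)) (fun z hz => (Real.continuous_exp.continuousAt.comp
      (hφ _ (V.mem a) z (kb_sub V a hz))).continuousWithinAt) fun z _ => Real.exp_pos _
  have hR : 0 < 2 * V.ρ a := by linarith [V.pos a]
  set l : ℝ := min 1 (ε ^ 2 / (2 * (2 * V.ρ a))) with hl
  have hl0 : 0 < l := lt_min one_pos (by positivity)
  have hl2 : 2 * (l * (2 * V.ρ a)) ≤ ε ^ 2 := by
    have := (le_div_iff₀ (by positivity)).1 (min_le_right 1 (ε ^ 2 / (2 * (2 * V.ρ a))))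
    linarith
  have hv : 0 < (volume (closedBall (0 : E n) (l * (2 * V.ρ a)))).toReal :=
    ENNReal.toReal_pos (measure_closedBall_pos _ _ (by positivity)).ne' measure_closedBall_lt_top.ne
  refine ⟨c' * (c * (volume (closedBall (0 : E n) (l * (2 * V.ρ a)))).toReal), by positivity,
    fun m s f B hs hq hB hH' z hz hle => ?_⟩
  have hsb := small_ball hz hl0.le (min_le_left _ _)
  set K := closedBall (z + l • (V.c a - z)) (l * (2 * V.ρ a)) with hK
  have hKs : K ⊆ (V.e a).target := fun y hy => kb_sub V a (hsb y hy).1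
  obtain ⟨hm, hμ⟩ := mu_img h (V.mem a) (isCompact_closedBall _ _) hKs
  have hf := q_cont hφ hs hq
  have hi : Integrable f μ := hf.integrable_of_hasCompactSupport (HasCompactSupport.of_compactSpace f)
  have hf0 : ∀ x, 0 ≤ f x := fun x => by
    rw [hq.at (Mf.ch_mem x) (Mf.mem_ch x)]
    positivity
  have h1 : c * (volume (closedBall (0 : E n) (l * (2 * V.ρ a)))).toReal ≤
      μ.real ((V.e a).symm '' K) := by
    have : ENNReal.ofReal c * volume K ≤ μ ((V.e a).symm '' K) := by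
      rw [hμ, ← setLIntegral_const]
      exact setLIntegral_mono' measurableSet_closedBall fun y hy =>
        ENNReal.ofReal_le_ofReal (hb y (hsb y hy).1).1
    have h2 := ENNReal.toReal_mono (measure_ne_top _ _) this
    rwa [ENNReal.toReal_mul, ENNReal.toReal_ofReal hc.le, hK,
      Measure.addHaar_closedBall_center] at h2
  have h3 : ∀ x ∈ (V.e a).symm '' K, (‖s (V.e a) z‖ - ε * B) ^ 2 * c' ≤ f x := by
    rintro _ ⟨y, hy, rfl⟩
    rw [hq _ (V.mem a) y (hKs hy)]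
    have h4 := hH' z hz y (hsb y hy).1
    have h5 : √‖z - y‖ ≤ ε := Real.sqrt_le_iff.2 ⟨hε.le, (hsb y hy).2.trans hl2⟩
    have h6 : ‖s (V.e a) z‖ - ε * B ≤ ‖s (V.e a) y‖ := by
      have := norm_sub_norm_le (s (V.e a) z) (s (V.e a) y)
      nlinarith [mul_le_mul_of_nonneg_left h5 hB]
    exact mul_le_mul (pow_le_pow_left₀ (by linarith) h6 2) (hb' y (hsb y hy).1).1 hc'.le
      (by positivity)
  calc _ = (‖s (V.e a) z‖ - ε * B) ^ 2 * c' *
        (c * (volume (closedBall (0 : E n) (l * (2 * V.ρ a)))).toReal) := by ring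
    _ ≤ (‖s (V.e a) z‖ - ε * B) ^ 2 * c' * μ.real ((V.e a).symm '' K) :=
        mul_le_mul_of_nonneg_left h1 (by positivity)
    _ ≤ ∫ x in (V.e a).symm '' K, f x ∂μ :=
        setIntegral_ge_of_const_le_real hm (measure_ne_top _ _) h3 hi.integrableOn
    _ ≤ ∫ x, f x ∂μ := setIntegral_le_integral hi (Eventually.of_forall hf0)

/-- The global upper bound for the integral. -/
theorem upp [M.Cpt] {H : M.Fam (Mat n)} {μ : Measure M.X} (hH : M.Met H) (h : M.IsMu H μ)
    (V : M.Cov) {φ : M.Fam ℝ} (hφ : M.All fun e z => ContinuousAt (φ e) z) :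
    ∃ C, 0 ≤ C ∧ ∀ (m : ℕ) (s : M.Fam ℂ) (f : M.X → ℝ) (B : ℝ), M.Sec m s →
      (M.Rep f fun e z => ‖s e z‖ ^ 2 * Real.exp (φ e z)) → GS V s B →
        0 ≤ ∫ x, f x ∂μ ∧ ∫ x, f x ∂μ ≤ C * B ^ 2 := by
  have := mu_fin hH h V
  have hb := fun a => two_sided (isCompact_closedBall (V.c a) (2 * V.ρ a))
    (f := fun z => Real.exp (φ (V.e a) z)) (fun z hz => (Real.continuous_exp.continuousAt.comp
      (hφ _ (V.mem a) z (kb_sub V a hz))).continuousWithinAt) fun z _ => Real.exp_pos _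
  choose c C hc hC hb using hb
  have hS : 0 ≤ ∑ a, C a := Finset.sum_nonneg fun a _ => (hC a).le
  refine ⟨μ.real univ * ∑ a, C a, by positivity, fun m s f B hs hq hB => ⟨?_, ?_⟩⟩
  · refine integral_nonneg fun x => ?_
    rw [hq.at (Mf.ch_mem x) (Mf.mem_ch x)]
    positivity
  · have hi : Integrable f μ :=
      (q_cont hφ hs hq).integrable_of_hasCompactSupport (HasCompactSupport.of_compactSpace f)
    have h1 : ∀ x, f x ≤ B ^ 2 * ∑ a, C a := fun x => by
      obtain ⟨a, z, hz, rfl⟩ := cov_kb V x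
      rw [hq _ (V.mem a) z (kb_sub V a hz)]
      exact mul_le_mul (pow_le_pow_left₀ (norm_nonneg _) (hB a z hz) 2)
        ((hb a z hz).2.trans (Finset.single_le_sum (fun a _ => (hC a).le) (Finset.mem_univ a)))
        (Real.exp_pos _).le (by positivity)
    refine (integral_mono hi (integrable_const _) h1).trans (le_of_eq ?_)
    rw [integral_const, smul_eq_mul]
    ring

end L2

theorem st_L2 {n : ℕ} : St_L2 n := by
  intro M _ V m L t μ H φ q hL hH hμ hφ hq ⟨C, hC⟩ ε hε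
  obtain ⟨C2, hC2, hu⟩ := L2.upp hH hμ V hφ
  choose κ hκ hl using fun a => L2.low hH hμ V a hφ hε
  have h0 : ∀ a, 0 ≤ √(|C| * C2 / κ a) := fun a => Real.sqrt_nonneg _
  refine ⟨∑ a, √(|C| * C2 / κ a), Finset.sum_nonneg fun a _ => h0 a,
    fun τ hτ s B B' hs hB hB' a z hz => ?_⟩
  have hc : V.c a ∈ Kb V a := mem_closedBall_self (by linarith [V.pos a])
  have hB0 : 0 ≤ B := (norm_nonneg _).trans ((hB a).1 _ hc)
  have hB0' : 0 ≤ B' := (norm_nonneg _).trans (hB' a _ hc)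
  have h1 : √(|C| * C2 / κ a) * B' ≤ (∑ a, √(|C| * C2 / κ a)) * B' :=
    mul_le_mul_of_nonneg_right (Finset.single_le_sum (fun a _ => h0 a) (Finset.mem_univ a)) hB0'
  rcases le_total (ε * B) ‖s (V.e a) z‖ with h2 | h2
  · have h3 := hl a m s (q s) B hs (hq s hs) hB0 (hB a).2 z hz h2
    have hs' := L2.sh_sec hL τ hs
    obtain ⟨h4, h5⟩ := hu m _ _ B' hs' (hq _ hs') hB'
    have h6 : κ a * (‖s (V.e a) z‖ - ε * B) ^ 2 ≤ |C| * (C2 * B' ^ 2) :=
      h3.trans ((hC τ hτ s hs).trans (mul_le_mul (le_abs_self C) h5 h4 (abs_nonneg C)))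
    have h7 : (‖s (V.e a) z‖ - ε * B) ^ 2 ≤ (√(|C| * C2 / κ a) * B') ^ 2 := by
      rw [mul_pow, Real.sq_sqrt (div_nonneg (by positivity) (hκ a).le), div_mul_eq_mul_div,
        le_div_iff₀ (hκ a)]
      linarith
    have h8 := le_of_sq_le_sq h7 (mul_nonneg (h0 a) hB0')
    linarith
  · linarith [mul_nonneg (h0 a) hB0']

end Pool.Agent.Lib.HS21
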