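import Pool.Agent.Lib.HS21.LBlue
import Pool.Agent.Lib.HS33.HO

/-! Smooth limits. -/

open scoped Classical Topology ContDiff
open Set Filter Complex Metric

noncomputable section

namespace Pool.Agent.Lib.HS21

open Pool.Agent.Lib.SV (E)

namespace LIME

variable {n : ℕ}

/-- Bounds near every point give bounds of the iterated derivatives on a compact set. -/
theorem bdd {K : Set (E n)} (hK : IsCompact K) {f : ℕ → E n → ℂ} (k : ℕ)
    (h : ∀ z ∈ K, ∃ N, LB k z fun j => f (N + j)) : ∃ C, ∀ᶠ j in atTop, SmO K (f j) ∧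
      ∀ l : List (Ix n), l.length ≤ k → Su K (Dl l (f j)) C := by
  refine hK.induction_on (p := fun S => ∃ C, ∀ᶠ j in atTop, SmO S (f j) ∧
      ∀ l : List (Ix n), l.length ≤ k → Su S (Dl l (f j)) C) ?_ ?_ ?_ ?_
  · exact ⟨0, Eventually.of_forall fun j => ⟨fun _ h => h.elim, fun _ _ _ h => h.elim⟩⟩
  · rintro s t hst ⟨C, hC⟩
    exact ⟨C, hC.mono fun j h => ⟨h.1.mono hst, fun l hl x hx => h.2 l hl x (hst hx)⟩⟩
  · rintro s t ⟨C, hC⟩ ⟨C', hC'⟩
    refine ⟨max C C', (hC.and hC').mono fun j h => ⟨fun x hx => hx.elim (h.1.1 x) (h.2.1 x),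
      fun l hl x hx => hx.elim (fun hx => (h.1.2 l hl x hx).trans (le_max_left _ _))
        fun hx => (h.2.2 l hl x hx).trans (le_max_right _ _)⟩⟩
  · intro z hz
    obtain ⟨N, S, hS, M, hM⟩ := h z hz
    refine ⟨S, mem_nhdsWithin_of_mem_nhds hS, M, (eventually_ge_atTop N).mono fun j hj => ?_⟩
    obtain ⟨i, rfl⟩ := Nat.exists_eq_add_of_le hj
    exact ⟨(hM i).1, fun l hl => (HO.dl (k := 0) l ((hM i).2.anti (by omega))).su⟩

end LIME

theorem st_LIME {n : ℕ} : St_LIME n := by
  intro U f g hU hb hg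
  have key : ∀ z ∈ U, ContDiffAt ℝ ∞ g z ∧
      ∀ l, Tendsto (fun j => Dl l (f j) z) atTop (𝓝 (Dl l g z)) := fun z hz => by
    obtain ⟨r, hr, hs⟩ := nhds_basis_closedBall.mem_iff.1 (hU.mem_nhds hz)
    have h1 := fun k => LIME.bdd (isCompact_closedBall z r) k fun w hw => hb w (hs hw) k
    have sf : ∀ᶠ j in atTop, SmO (ball z r) (f j) :=
      (h1 0).choose_spec.mono fun j h => h.1.mono ball_subset_closedBall
    have h2 : ∀ k, ∃ M, ∀ᶠ j in atTop, HO k (ball z r) (f j) M := fun k => by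
      obtain ⟨C, hC⟩ := h1 (k + 1)
      obtain ⟨C0, hC0, h0⟩ := HO.fd_le n
      refine ⟨C0 * C * 1 + 2 * C / 1, hC.mono fun j h => HO.subset ball_subset_closedBall
        (HO.of_dl fun l hl => HO.of_fd (convex_closedBall z r) (h.1.dl l) one_pos le_rfl
          (h.2 l (by omega)) fun x hx => h0 _ C x
            ((norm_nonneg _).trans (h.2 l (by omega) x hx)) fun i => ?_)⟩
      have e : ∀ (l : List (Ix n)) (u : E n → ℂ), D i (Dl l u) = Dl (l ++ [i]) u := fun l => by
        induction l with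
        | nil => exact fun _ => rfl
        | cons a l ih => exact fun u => ih (D a u)
      rw [e]
      exact h.2 _ (by simpa using hl) x hx
    have h3 := fun w hw => hg w (hs (ball_subset_closedBall hw))
    exact ⟨lim_smO isOpen_ball sf h2 h3 z (mem_ball_self hr),
      fun l => lim_Dl isOpen_ball l sf h2 h3 z (mem_ball_self hr)⟩
  exact ⟨fun z hz => (key z hz).1, fun l z hz => (key z hz).2 l⟩

end Pool.Agent.Lib.HS21
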