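import Pool.Agent.Lib.HS21.LBlue
import Pool.Agent.Lib.HS32.MKit
import Pool.Agent.Lib.HS32.MBlue

/-! The real linear equation for the Laplace operator. -/

open scoped Topology ContDiff ComplexOrder
open Set Filter Complex Metric

noncomputable section

namespace Pool.Agent.Lib.HS21

open Pool.Agent.Lib.SV (E)
open Pool.Agent.Lib.HS32
open Pool.Agent.Lib.HS32.Mf

namespace LINR

variable {n : ℕ} {M : Mf n} {G : M.Fam (Mat n)}

theorem ap_eq (s : M.Fam ℂ) (e : M.Ch) (z : E n) :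
    (lapOp G).ap s e z = ((G e z)⁻¹ * hess (s e) z).trace := by
  simp [Op.ap, lapOp, lop]

theorem ap (hI : St_INV) (hH : St_HES) (hG : M.Met G) {w : M.X → ℝ} (hw : M.Sm w) :
    M.All fun e z => (lapOp G).ap (M.lc w) e z = M.lc (M.lap G w) e z := fun e he z hz => by
  beta_reduce
  rw [ap_eq]
  exact ((hI n M G hG).2.1 _ ((hH n M).1 w hw).toForm e he z hz).1.symm

theorem sec2 {u v : M.X → ℝ} (hu : M.Sm u) (hv : M.Sm v) {s : M.Fam ℂ}
    (h : M.All fun e z => s e z = M.lc u e z + I * M.lc v e z) : M.Sec 0 s where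
  sm := fun e he z hz => ((hu.lc e he z hz).add
    (contDiffAt_const.mul (hv.lc e he z hz))).congr_of_eventuallyEq (h.ev he hz)
  cmp := fun e he e' he' x hx hx' => by
    have h1 := h.at he hx
    have h2 := h.at he' hx'
    beta_reduce at h1 h2 ⊢
    rw [h1, h2]
    simp only [Mf.lc, e.left_inv hx, e'.left_inv hx', pow_zero, mul_one]

theorem split {s : M.Fam ℂ} (hs : M.Sec 0 s) : ∃ u v : M.X → ℝ, M.Sm u ∧ M.Sm v ∧
    M.All fun e z => s e z = M.lc u e z + I * M.lc v e z := by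
  have h1 : M.Inv s := fun e he e' he' x hx hx' => by simpa using hs.cmp e he e' he' x hx hx'
  have h2 := h1.sm hs.sm
  refine ⟨fun x => (M.ev s x).re, fun x => (M.ev s x).im, h2.re,
    h2.comp (φ := Complex.im) fun _ => imCLM.contDiff.contDiffAt, fun e he z hz => ?_⟩
  simp only [Mf.lc]
  rw [h1.rep e he z hz, mul_comm, re_add_im]

theorem ap2 (hI : St_INV) (hH : St_HES) (hG : M.Met G) {u v : M.X → ℝ} (hu : M.Sm u)
    (hv : M.Sm v) {s : M.Fam ℂ} (h : M.All fun e z => s e z = M.lc u e z + I * M.lc v e z) :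
    M.All fun e z => (lapOp G).ap s e z = M.lc (M.lap G u) e z + I * M.lc (M.lap G v) e z :=
  fun e he z hz => by
    have a1 := ap hI hH hG hu e he z hz
    have a2 := ap hI hH hG hv e he z hz
    beta_reduce at a1 a2 ⊢
    rw [← a1, ← a2, ap_eq, ap_eq, ap_eq, hess_congr (h.ev he hz), hess_add (hu.lc e he z hz)
      (contDiffAt_const.mul (hv.lc e he z hz)), hess_const_mul _ (hv.lc e he z hz), mul_add,
      Matrix.trace_add, Matrix.mul_smul, Matrix.trace_smul, smul_eq_mul]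

theorem sh2 (hI : St_INV) (hH : St_HES) (hG : M.Met G) {u v : M.X → ℝ} (hu : M.Sm u)
    (hv : M.Sm v) {s : M.Fam ℂ} (h : M.All fun e z => s e z = M.lc u e z + I * M.lc v e z)
    (τ : ℝ) {e : M.Ch} (he : e ∈ M.C) {x : M.X} (hx : x ∈ e.source) :
    ((lapOp G).sh τ s e (e x)).re = τ * u x - M.lap G u x ∧
      ((lapOp G).sh τ s e (e x)).im = τ * v x - M.lap G v x := by
  have a1 := (ap2 hI hH hG hu hv h).at he hx
  have a2 := h.at he hx
  beta_reduce at a1 a2
  rw [Op.sh, a1, a2]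
  simp [Mf.lc, e.left_inv hx]

theorem mx [M.Cpt] (hL : St_LAP) (hG : M.Met G) {w : M.X → ℝ} (hw : M.Sm w) {t B : ℝ}
    (ht : 0 < t) (h : ∀ x, |t * w x - M.lap G w x| ≤ B) (x : M.X) : |w x| ≤ B / t := by
  have hl := fun y => ((hL n M w w hw hw).2.2 G hG).2.2.1 y 0
  obtain ⟨y, hy⟩ := hw.exists_max
  obtain ⟨y', hy'⟩ := hw.exists_min
  have h1 := ((hl y).2.2.2.2.2.2.2.2.1 (Eventually.of_forall hy)).1
  have h2 := ((hl y').2.2.2.2.2.2.2.2.2 (Eventually.of_forall hy')).1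
  have h3 := (abs_le.1 (h y)).2
  have h4 := (abs_le.1 (h y')).1
  have h5 := mul_le_mul_of_nonneg_left (hy x) ht.le
  have h6 := mul_le_mul_of_nonneg_left (hy' x) ht.le
  rw [le_div_iff₀ ht, ← abs_of_pos ht, ← abs_mul, abs_le]
  constructor <;> nlinarith

theorem ok (hI : St_INV) (hH : St_HES) (hL : St_LAP) (hG : M.Met G) : (lapOp G).Ok 0 where
  smW := fun e he z hz => (hG.sm e he z hz).inv (hG.det_ne e he z hz)
  pos := fun e he z hz => (hG.pos e he z hz).inv
  smb := fun _ _ _ _ _ => contDiffAt_const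
  smb' := fun _ _ _ _ _ => contDiffAt_const
  smc := fun _ _ _ _ => contDiffAt_const
  sec := fun s hs => by
    obtain ⟨u, v, hu, hv, h⟩ := split hs
    exact sec2 ((hL n M u u hu hu).2.2 G hG).1 ((hL n M v v hv hv).2.2 G hG).1
      (ap2 hI hH hG hu hv h)

theorem inj [M.Cpt] (hI : St_INV) (hH : St_HES) (hL : St_LAP) (hG : M.Met G) (V : M.Cov) {t : ℝ}
    (ht : 0 < t) : (lapOp G).Inj V 0 t := by
  refine fun ε hε => ⟨2 / t, by positivity, fun τ hτ s B B' hs h1 h2 a z hz => ?_⟩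
  obtain ⟨u, v, hu, hv, h⟩ := split hs
  have hτ0 : 0 < τ := ht.trans_le hτ
  have hb : ∀ x, |τ * u x - M.lap G u x| ≤ B' ∧ |τ * v x - M.lap G v x| ≤ B' := fun x => by
    obtain ⟨a, t1, t2, -⟩ := V.cov x
    have t3 := h2 a _ (ball_subset_closedBall.trans
      (closedBall_subset_closedBall (by linarith [V.pos a])) t2)
    obtain ⟨t4, t5⟩ := sh2 hI hH hG hu hv h τ (V.mem a) t1
    rw [← t4, ← t5]
    exact ⟨(abs_re_le_norm _).trans t3, (abs_im_le_norm _).trans t3⟩
  have hz' : z ∈ (V.e a).target :=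
    V.sub a (closedBall_subset_closedBall (by linarith [V.pos a]) hz)
  have b1 := mx hL hG hu hτ0 (fun x => (hb x).1) ((V.e a).symm z)
  have b2 := mx hL hG hv hτ0 (fun x => (hb x).2) ((V.e a).symm z)
  have b3 : 0 ≤ B := (norm_nonneg _).trans ((h1 a).1 z hz)
  have b4 : 0 ≤ B' := (abs_nonneg _).trans (hb ((V.e a).symm z)).1
  have b5 : B' / τ ≤ B' / t := by gcongr
  have b6 := h (V.e a) (V.mem a) z hz'
  beta_reduce at b6
  rw [b6]
  refine (norm_add_le _ _).trans ?_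
  simp only [Mf.lc, norm_mul, norm_I, one_mul, norm_real, Real.norm_eq_abs]
  have b7 : 2 / t * B' = B' / t + B' / t := by ring
  have b8 : 0 ≤ ε * B := by positivity
  linarith

end LINR

open LINR

theorem st_LINR {n : ℕ} (hI : St_INV) (hH : St_HES) (hL : St_LAP) (hLIN : St_LIN n) :
    St_LINR n where
  ok := fun _ _ hG => ok hI hH hL hG
  ap := fun _ _ _ hG hw => ap hI hH hG hw
  sm := fun M G w hG hw => ((hL n M w w hw hw).2.2 G hG).1
  mx := fun _ _ _ _ _ _ hG hw ht h => mx hL hG hw ht h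
  ex := fun M _ V G f t hG hf ht => by
    obtain ⟨s, hs, h⟩ := hLIN M V 0 (lapOp G) t (ok hI hH hL hG) (inj hI hH hL hG V ht) (M.lc f)
      (sec2 hf (sm_const 0) fun e _ z _ => by simp [Mf.lc])
    obtain ⟨u, v, hu, hv, h'⟩ := split hs
    refine ⟨u, hu, fun x => ?_⟩
    have a1 := h.ch x
    beta_reduce at a1
    rw [← (sh2 hI hH hG hu hv h' t (ch_mem x) (mem_ch x)).1, a1, Mf.lc, ch_symm, ofReal_re]

end Pool.Agent.Lib.HS21
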