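import Pool.Agent.Lib.HS21.LBlue
import Pool.Agent.Lib.HS32.EKit

/-! The operator `tr (W hess f)` in real coordinates. -/

open scoped Classical Topology ContDiff ComplexOrder Matrix
open Set Filter Complex Metric

noncomputable section

namespace Pool.Agent.Lib.HS21

open Pool.Agent.Lib.SV (E)
open Pool.Agent.Lib.HS32

namespace REAL

variable {n : ℕ}

theorem bs0 (j : Fin n) : bs n ⟨j, 0⟩ = Pi.single j 1 := by simp [bs]

theorem bs1 (j : Fin n) : bs n ⟨j, 1⟩ = Pi.single j I := by simp [bs]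

theorem dz_eq (j : Fin n) (f : E n → ℂ) :
    dz j f = fun w => (1 / 2 : ℂ) * D ⟨j, 0⟩ f w - (I / 2) * D ⟨j, 1⟩ f w := by
  funext w
  simp only [dz, D, bs0, bs1]
  ring

theorem dzb_eq (j : Fin n) (f : E n → ℂ) (w : E n) :
    dzb j f w = (D ⟨j, 0⟩ f w + I * D ⟨j, 1⟩ f w) / 2 := by
  simp only [dzb, D, bs0, bs1]

theorem diff_D {f : E n → ℂ} {z : E n} (hf : ContDiffAt ℝ ∞ f z) (p : Ix n) :
    DifferentiableAt ℝ (D p f) z := cd_diff (cd_fderiv hf _)

theorem hess_eq {f : E n → ℂ} {z : E n} (hf : ContDiffAt ℝ ∞ f z) (i j : Fin n) :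
    hess f z i j = ∑ a : Fin 2, ∑ b : Fin 2,
      I ^ (a : ℕ) * (-I) ^ (b : ℕ) / 4 * D ⟨i, a⟩ (D ⟨j, b⟩ f) z := by
  rw [hess, Matrix.of_apply, dz_eq, dzb_sub ((diff_D hf _).const_mul _) ((diff_D hf _).const_mul _),
    dzb_const_mul _ (diff_D hf _), dzb_const_mul _ (diff_D hf _), dzb_eq, dzb_eq]
  simp only [Fin.sum_univ_two, Fin.val_zero, Fin.val_one]
  ring

/-- The complex coefficient. -/
def cf (W : Mat n) (p q : Ix n) : ℂ := W q.1 p.1 * I ^ (p.2 : ℕ) * (-I) ^ (q.2 : ℕ) / 4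

theorem ra_eq (W : Mat n) (p q : Ix n) : ra W p q = (cf W p q).re := by
  simp only [ra, cf, div_ofNat_re]

theorem cf_add {W : Mat n} (hW : W.IsHermitian) (p q : Ix n) :
    cf W p q + cf W q p = 2 * (ra W p q : ℂ) := by
  have : cf W q p = (starRingEnd ℂ) (cf W p q) := by
    simp only [cf, map_div₀, map_mul, map_pow, map_neg, conj_I, neg_neg, map_ofNat]
    rw [← hW.apply p.1 q.1, RCLike.star_def]
    ring
  rw [this, add_conj, ra_eq]
  push_cast
  ring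

theorem sum_cf (W : Mat n) (X : Ix n → Ix n → ℂ) : ∑ p, ∑ q, cf W p q * X p q =
    ∑ j, ∑ i, W j i * ∑ a : Fin 2, ∑ b : Fin 2,
      I ^ (a : ℕ) * (-I) ^ (b : ℕ) / 4 * X ⟨i, a⟩ ⟨j, b⟩ := by
  rw [Finset.sum_comm (f := fun j i => W j i * _)]
  simp only [Fintype.sum_sigma, Fin.sum_univ_two, cf, ← Finset.sum_add_distrib]
  refine Finset.sum_congr rfl fun i _ => Finset.sum_congr rfl fun j _ => ?_
  ring

theorem sum_ra {W : Mat n} (hW : W.IsHermitian) {X : Ix n → Ix n → ℂ} (hX : ∀ p q, X p q = X q p) :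
    ∑ p, ∑ q, (ra W p q : ℂ) * X p q = ∑ p, ∑ q, cf W p q * X p q := by
  have h1 : ∑ p, ∑ q, cf W q p * X p q = ∑ p, ∑ q, cf W p q * X p q := by
    rw [Finset.sum_comm]
    simp only [hX]
  have h2 : ∑ p, ∑ q, cf W p q * X p q + ∑ p, ∑ q, cf W q p * X p q =
      2 * ∑ p, ∑ q, (ra W p q : ℂ) * X p q := by
    simp only [← Finset.sum_add_distrib, ← add_mul, cf_add hW, Finset.mul_sum, mul_assoc]
  linear_combination (h1 - h2) / 2

/-- The real linear map that gives the entries of `ra`. -/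
def ph (c : ℂ) : ℂ →L[ℝ] ℂ := ofRealCLM.comp (reCLM.comp ((ContinuousLinearMap.mul ℝ ℂ).flip c))

theorem ph_eq (W : Mat n) (p q : Ix n) :
    (ra W p q : ℂ) = ph (I ^ (p.2 : ℕ) * (-I) ^ (q.2 : ℕ) / 4) (W q.1 p.1) := by
  rw [ra_eq, cf, mul_assoc, mul_div_assoc]
  rfl

end REAL

open REAL

theorem st_REAL {n : ℕ} (hF : St_FAM n) : St_REAL n where
  eq W f z hW hf := by
    rw [L0, sum_ra hW (X := fun p q => D p (D q f) z) fun p q => fderiv_symm hf _ _, sum_cf]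
    simp only [Matrix.trace, Matrix.diag_apply, Matrix.mul_apply, hess_eq hf]
  ell κ W h ξ := by
    have h1 := h.2 fun i => ξ ⟨i, 0⟩ + I * ξ ⟨i, 1⟩
    have h2 : ∑ i, ‖(ξ ⟨i, 0⟩ : ℂ) + I * ξ ⟨i, 1⟩‖ ^ 2 = ∑ p, ξ p ^ 2 := by
      simp only [Fintype.sum_sigma, Fin.sum_univ_two, Complex.sq_norm, normSq_apply]
      refine Finset.sum_congr rfl fun i _ => ?_
      simp [sq]
    have h3 : ((∑ p, ∑ q, ra W p q * ξ p * ξ q : ℝ) : ℂ) =
        (star (fun i => ξ ⟨i, 0⟩ + I * ξ ⟨i, 1⟩ : E n) ⬝ᵥ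
          W *ᵥ fun i => ξ ⟨i, 0⟩ + I * ξ ⟨i, 1⟩) / 4 := by
      push_cast
      simp only [mul_assoc]
      rw [sum_ra h.1 (X := fun p q => (ξ p : ℂ) * ξ q) fun p q => mul_comm _ _, sum_cf]
      simp only [dotProduct, Matrix.mulVec, Finset.mul_sum, Finset.sum_div, Pi.star_apply]
      refine Finset.sum_congr rfl fun j _ => Finset.sum_congr rfl fun i _ => ?_
      simp only [Fin.sum_univ_two, Fin.val_zero, Fin.val_one, star_add, star_mul', RCLike.star_def,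
        conj_ofReal, conj_I]
      ring
    have h4 := congrArg re h3
    rw [ofReal_re, div_ofNat_re] at h4
    rw [h2] at h1
    rw [h4]
    linarith
  lb T k z W h p q := by
    simp only [ph_eq]
    exact hF.lin T k z _ _ (h q.1 p.1)
  sm z W h p q := by
    simp only [ph_eq]
    exact (ph _).contDiff.contDiffAt.comp z (h q.1 p.1)

end Pool.Agent.Lib.HS21
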