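import Pool.Agent.Lib.HS21.LBlue
import Pool.Agent.Lib.HS92.Maxp

/-! Interior regularity for families. -/

open scoped Classical Topology ContDiff ComplexOrder Matrix
open Set Filter Complex Metric

noncomputable section

namespace Pool.Agent.Lib.HS21

open Pool.Agent.Lib.SV (E)
open Pool.Agent.Lib.HS32

namespace REG

variable {n : ℕ}

theorem ell_mix {κ κ' c : ℝ} {a : Ix n → Ix n → ℝ} (h0 : 0 ≤ c) (h1 : c ≤ 1) (hk : κ' ≤ κ)
    (hk1 : κ' ≤ 1) (ha : c ≠ 0 → Ell κ a) :
    Ell κ' fun i j => c * (a i j - if i = j then 1 else 0) + if i = j then 1 else 0 := by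
  intro ξ
  have hs : 0 ≤ ∑ i, ξ i ^ 2 := Finset.sum_nonneg fun i _ => sq_nonneg _
  have e : ∑ i, ∑ j, (c * (a i j - if i = j then 1 else 0) + if i = j then 1 else 0) * ξ i * ξ j =
      c * ∑ i, ∑ j, a i j * ξ i * ξ j + (1 - c) * ∑ i, ξ i ^ 2 := by
    simp only [Finset.mul_sum, ← Finset.sum_add_distrib]
    refine Finset.sum_congr rfl fun i _ => ?_
    have : ∀ j, (c * (a i j - if i = j then 1 else 0) + if i = j then 1 else 0) * ξ i * ξ j =
        c * (a i j * ξ i * ξ j) + if i = j then (1 - c) * ξ i ^ 2 else 0 := fun j => by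
      split_ifs with h
      · subst h; ring
      · ring
    simp only [this, Finset.sum_add_distrib, Finset.sum_ite_eq, Finset.mem_univ, if_true]
  rw [e]
  by_cases hc : c = 0
  · subst hc; nlinarith
  · have := ha hc ξ
    nlinarith [mul_le_mul_of_nonneg_left this h0, mul_nonneg h0 (mul_nonneg (sub_nonneg.2 hk) hs),
      mul_nonneg (sub_nonneg.2 h1) (mul_nonneg (sub_nonneg.2 hk1) hs)]

theorem smD {f : E n → ℂ} (hf : ContDiff ℝ ∞ f) (i : Ix n) : ContDiff ℝ ∞ (D i f) :=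
  contDiff_iff_contDiffAt.2 fun _ => HS92.smD (bs n i) hf.contDiffAt

theorem D_zero {f : E n → ℂ} {x : E n} (h : f =ᶠ[𝓝 x] fun _ => 0) (i : Ix n) :
    D i f =ᶠ[𝓝 x] fun _ => 0 :=
  (HS92.D_congr (bs n i) h).trans (Eventually.of_forall fun _ => HS92.D_const _ _)

end REG

open REG

theorem st_REG {n : ℕ} (hHK : St_HK n) (hF : St_FAM n) (hR : St_REAL n) (hRES : St_RES n) :
    St_REG n := by
  intro T k z W s hW hE hs hf
  obtain ⟨κ, hκ, S, hS, hE⟩ := hE
  have h1 : ∀ᶠ x in 𝓝 z, (∀ p q, LB k x fun t w => (ra (W t w) p q : ℂ)) ∧ LB (k + 1) x s ∧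
      LB k x (fun t w => (W t w * hess (s t) w).trace) ∧ x ∈ S :=
    (eventually_all.2 fun p => eventually_all.2 fun q =>
      hF.near _ _ _ _ (hR.lb T k z W hW p q)).and
      ((hF.near _ _ _ _ hs).and ((hF.near _ _ _ _ hf).and hS))
  obtain ⟨r, hr, h1⟩ := nhds_basis_closedBall.eventually_iff.1 h1
  let b1 : ContDiffBump z := ⟨r / 2, r, by linarith, by linarith⟩
  let b : ContDiffBump z := ⟨r / 4, r / 2, by linarith, by linarith⟩
  let η1 : E n → ℂ := fun x => b1 x
  let η : E n → ℂ := fun x => b x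
  have sm : ∀ c : ContDiffBump z, ContDiff ℝ ∞ fun x => (c x : ℂ) := fun c =>
    ofRealCLM.contDiff.comp c.contDiff
  have ts : ∀ c : ContDiffBump z, tsupport (fun x => (c x : ℂ)) = closedBall z c.rOut := fun c => by
    rw [← c.tsupport_eq]; simp [tsupport, Function.support]
  have cs : ∀ c : ContDiffBump z, HasCompactSupport fun x => (c x : ℂ) := fun c => by
    rw [HasCompactSupport, ts]; exact isCompact_closedBall _ _
  have sub : closedBall z (r / 2) ⊆ closedBall z r := closedBall_subset_closedBall (by linarith)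
  have fx : ∀ (g : E n → ℂ) x, ContDiff ℝ ∞ g → LB k x fun _ : T => g := fun g x hg =>
    hF.fix T k x g hg.contDiffAt (Eventually.of_forall fun _ => hg.contDiffAt)
  let δ : Ix n → Ix n → ℝ := fun i j => if i = j then 1 else 0
  let A : T → E n → Ix n → Ix n → ℝ := fun t x i j => b1 x * (ra (W t x) i j - δ i j) + δ i j
  have hA : ∀ i j, ∃ M, 0 < M ∧ ∀ t, ContDiff ℝ ∞ (fun x => (A t x i j : ℂ)) ∧
      HO k univ (fun x => (A t x i j : ℂ)) M := fun i j => by
    obtain ⟨M, hM, h⟩ := hF.cut T k η1 (fun t w => (ra (W t w) i j : ℂ) - δ i j) (sm b1) (cs b1)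
      fun x hx => hF.sub _ _ _ _ _ ((h1 (ts b1 ▸ hx)).1 i j) (fx _ x contDiff_const)
    refine ⟨M + ‖(δ i j : ℂ)‖, by positivity, fun t => ?_⟩
    have e : (fun x => (A t x i j : ℂ)) =
        fun x => η1 x * ((ra (W t x) i j : ℂ) - δ i j) + δ i j := by
      funext x; simp [A, η1]
    rw [e]
    exact ⟨(h t).1.add contDiff_const, hHK.add _ _ _ _ _ _ (fun _ _ => (h t).1.contDiffAt)
      (fun _ _ => contDiffAt_const) (h t).2 (hHK.const _ _ _)⟩
  choose MA hMA hA using hA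
  obtain ⟨C, -, hC⟩ := hRES k (min (κ / 4) 1) (∑ i, ∑ j, MA i j) (by positivity)
  obtain ⟨M0, -, hw⟩ := hF.cut T (k + 1) η s (sm b) (cs b) fun x hx => (h1 (sub (ts b ▸ hx))).2.1
  let g : T → E n → ℂ := fun t x => η x * s t x - (η x * (W t x * hess (s t) x).trace +
    ∑ i, ∑ j, (ra (W t x) i j : ℂ) *
      (D i η x * D j (s t) x + D j η x * D i (s t) x + D i (D j η) x * s t x))
  obtain ⟨M, -, hg⟩ := hF.cut T k η1 g (sm b1) (cs b1) fun x hx => by
    obtain ⟨a1, a2, a3, -⟩ := h1 (ts b1 ▸ hx)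
    have a4 := hF.anti _ _ k _ _ (Nat.le_succ k) a2
    exact hF.sub _ _ _ _ _ (hF.mul _ _ _ _ _ (fx _ x (sm b)) a4) (hF.add _ _ _ _ _
      (hF.mul _ _ _ _ _ (fx _ x (sm b)) a3) (hF.sum _ _ _ _ _ _ fun i _ =>
        hF.sum _ _ _ _ _ _ fun j _ => hF.mul _ _ _ _ _ (a1 i j) (hF.add _ _ _ _ _
          (hF.add _ _ _ _ _ (hF.mul _ _ _ _ _ (fx _ x (smD (sm b) i)) (hF.der _ _ _ _ j a2))
            (hF.mul _ _ _ _ _ (fx _ x (smD (sm b) j)) (hF.der _ _ _ _ i a2)))
          (hF.mul _ _ _ _ _ (fx _ x (smD (smD (sm b) j) i)) a4))))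
  have key : ∀ t, (fun x => ((1 : ℝ) : ℂ) * (η x * s t x) - L0 (A t) (fun x => η x * s t x) x) =
      fun x => η1 x * g t x := fun t => by
    funext x
    by_cases hx : x ∈ closedBall z (r / 2)
    · obtain ⟨-, ⟨S', hS', M', a2⟩, -, a4⟩ := h1 (sub hx)
      have c1 : ContDiffAt ℝ ∞ (s t) x := (a2 t).1 x (mem_of_mem_nhds hS')
      have e1 : b1 x = 1 := b1.one_of_mem_closedBall hx
      have e2 : ∀ i j, D i (D j fun x => η x * s t x) x = η x * D i (D j (s t)) x +
          D i η x * D j (s t) x + D j η x * D i (s t) x + D i (D j η) x * s t x := fun i j =>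
        HS92.DD_mul (bs n i) (bs n j) (sm b).contDiffAt c1
      simp only [g, η1, hR.eq (W t) (s t) x (hE t x a4).1 c1, L0, A, e1, e2, Finset.mul_sum,
        ← Finset.sum_add_distrib]
      push_cast
      simp only [one_mul, sub_add_cancel, sub_right_inj]
      exact Finset.sum_congr rfl fun i _ => Finset.sum_congr rfl fun j _ => by ring
    · have z0 : η =ᶠ[𝓝 x] fun _ => 0 := notMem_tsupport_iff_eventuallyEq.1 (ts b ▸ hx)
      have z1 : (fun x => η x * s t x) =ᶠ[𝓝 x] fun _ => 0 := z0.mono fun y hy => by simp [hy]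
      simp [g, L0, z0.eq_of_nhds, fun i => (D_zero z0 i).eq_of_nhds,
        fun i j => (D_zero (D_zero z0 j) i).eq_of_nhds,
        fun i j => (D_zero (D_zero z1 j) i).eq_of_nhds]
  have fin : LB (k + 2) z fun t x => η x * s t x := ⟨univ, univ_mem, C * M, fun t =>
    ⟨fun _ _ => (hw t).1.contDiffAt, (hC (A t) (fun x => ell_mix b1.nonneg b1.le_one
      (min_le_left _ _) (min_le_right _ _) fun hx => hR.ell κ _ (hE t x (h1 (ball_subset_closedBall
        (b1.support_eq ▸ hx : x ∈ ball z r))).2.2.2)) (fun i j => (hA i j t).1)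
      (fun i j => hHK.mono _ _ _ _ _ _ subset_rfl
        ((Finset.single_le_sum (fun j _ => (hMA i j).le) (Finset.mem_univ j)).trans
          (Finset.single_le_sum (f := fun i => ∑ j, MA i j) (fun i _ =>
            Finset.sum_nonneg fun j _ => (hMA i j).le) (Finset.mem_univ i))) (hA i j t).2)
      1 le_rfl _ M (hHK.decCs _ (hw t).1 (cs b).mul_right) (key t ▸ (hg t).2)).1⟩⟩
  refine hF.congr _ _ _ _ _ ?_ fin
  filter_upwards [closedBall_mem_nhds z (show 0 < r / 4 by linarith)] with x hx t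
  simp [η, b.one_of_mem_closedBall hx]

end Pool.Agent.Lib.HS21
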