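import Pool.Agent.Lib.HS21.LBlue
import Pool.Agent.Lib.HS32.MBlue
import Pool.Agent.Lib.HS32.MKit

/-! The quadratic remainder of the Monge-Ampère operator. -/

open scoped Classical Topology ContDiff ComplexOrder Matrix
open Set Filter Complex Metric

set_option linter.unusedVariables false

noncomputable section

namespace Pool.Agent.Lib.HS21

open Pool.Agent.Lib.SV (E)
open Pool.Agent.Lib.HS32

namespace REM

variable {n : ℕ}

/-- Sum of the principal minors of order `k`. -/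
def cf (k : ℕ) (B : Mat n) : ℂ := ∑ s ∈ Finset.univ.powersetCard k,
  (B.submatrix (Subtype.val : s → Fin n) (Subtype.val : s → Fin n)).det

/-- The second order part of the determinant. -/
def rr (h : ℂ) (B : Mat n) : ℂ := ∑ j ∈ Finset.range (n + 1), cf (j + 2) B * ∏ _ ∈ Finset.range j, h

theorem det_exp (h : ℂ) (B : Mat n) :
    (1 + h • B).det = 1 + h * (B.trace + h * rr h B) := by
  have h1 : ∀ j, (Matrix.det (1 + (Polynomial.X : Polynomial ℂ) •
      B.map Polynomial.C)).divX.divX.coeff j = cf (j + 2) B := fun j => by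
    rw [Polynomial.coeff_divX, Polynomial.coeff_divX,
      Matrix.coeff_det_one_add_X_smul_eq_sum_minors]
    rfl
  rw [Matrix.det_one_add_smul, Polynomial.eval_eq_sum_range' (n := n + 1)]
  · simp only [h1, rr, Finset.prod_const, Finset.card_range]
    ring
  · refine Nat.lt_succ_of_le (Polynomial.natDegree_le_iff_coeff_eq_zero.2 fun N hN => ?_)
    rw [h1, cf, Finset.powersetCard_eq_empty.2 (by simp; omega), Finset.sum_empty]

theorem lb_rr (hF : St_FAM n) {T : Type} {k : ℕ} {z : E n} {B : T → E n → Mat n} {c : T → ℂ}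
    (hB : LBM k z B) (hc : ∀ t, ‖c t‖ ≤ 1) : LB k z fun t w => rr (c t) (B t w) := by
  refine hF.sum T ℕ k z _ (fun j t w => cf (j + 2) (B t w) * ∏ _ ∈ Finset.range j, c t)
    fun j _ => hF.mul T k z _ _ ?_ (hF.prod T ℕ k z _ (fun _ t _ => c t)
      fun _ _ => hF.scal T k z c 1 hc)
  refine hF.sum T _ k z _ (fun (s : Finset (Fin n)) t w =>
    ((B t w).submatrix (Subtype.val : s → Fin n) (Subtype.val : s → Fin n)).det) fun s _ => ?_
  simp only [Matrix.det_apply']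
  refine hF.sum T _ k z _ (fun (σ : Equiv.Perm s) t w => ((Equiv.Perm.sign σ : ℤ) : ℂ) *
    ∏ i, (B t w).submatrix (Subtype.val : s → Fin n) (Subtype.val : s → Fin n) (σ i) i)
    fun σ _ => hF.mul T k z _ _ (hF.scal T k z (fun _ => _) _ fun _ => le_rfl) ?_
  exact hF.prod T _ k z _ (fun (i : s) t w => B t w (σ i) i) fun i _ => hB _ _

theorem exists_g : ∃ g : ℂ → ℂ, (∀ y ∈ closedBall (0 : ℂ) (1 / 2), ContDiffAt ℝ ∞ g y) ∧
    ∀ x, log (1 + x) - x = x ^ 2 * g x := by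
  set f : ℂ → ℂ := fun x => log (1 + x) - x with hf
  have hd : ∀ x ∈ ball (0 : ℂ) 1, HasDerivAt f (1 / (1 + x) - 1) x := fun x hx =>
    (((hasDerivAt_id' x).const_add 1).clog (mem_slitPlane_of_norm_lt_one
      (mem_ball_zero_iff.1 hx))).fun_sub (hasDerivAt_id' x)
  have h1 : DifferentiableOn ℂ f (ball 0 1) := fun x hx =>
    (hd x hx).differentiableAt.differentiableWithinAt
  have hb : ball (0 : ℂ) 1 ∈ 𝓝 0 := ball_mem_nhds 0 one_pos
  have h2 := (differentiableOn_dslope hb).2 ((differentiableOn_dslope hb).2 h1)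
  refine ⟨dslope (dslope f 0) 0, fun y hy => ?_, fun x => ?_⟩
  · exact ((h2.contDiffOn isOpen_ball).contDiffAt (isOpen_ball.mem_nhds
      (closedBall_subset_ball (by norm_num) hy))).restrict_scalars ℝ
  · have h3 := sub_smul_dslope f 0 x
    have h4 := sub_smul_dslope (dslope f 0) 0 x
    rw [dslope_same, (hd 0 (mem_ball_self one_pos)).deriv] at h4
    simp only [sub_zero, smul_eq_mul, hf, add_zero, log_one, div_one, sub_self] at h3 h4
    rw [← h3, ← h4]
    ring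

theorem le_cpt {T : Type} {K : Set (E n)} (hK : IsCompact K) {W : T → E n → Mat n}
    (h : ∀ z ∈ K, LE z W) : ∃ κ, 0 < κ ∧ ∀ t, ∀ w ∈ K, EllH κ (W t w) := by
  have hm : ∀ (κ κ' : ℝ) (A : Mat n), κ' ≤ κ → EllH κ A → EllH κ' A := fun κ κ' A hle hA =>
    ⟨hA.1, fun v => le_trans (mul_le_mul_of_nonneg_right hle
      (Finset.sum_nonneg fun _ _ => sq_nonneg _)) (hA.2 v)⟩
  refine hK.induction_on (p := fun S => ∃ κ, 0 < κ ∧ ∀ t, ∀ w ∈ S, EllH κ (W t w))
    ⟨1, one_pos, fun _ _ h => h.elim⟩ ?_ ?_ fun z hz => ?_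
  · rintro S S' hS ⟨κ, h1, h2⟩
    exact ⟨κ, h1, fun t w hw => h2 t w (hS hw)⟩
  · rintro S S' ⟨κ, h1, h2⟩ ⟨κ', h3, h4⟩
    exact ⟨min κ κ', lt_min h1 h3, fun t w hw => hw.elim
      (fun hw => hm _ _ _ (min_le_left _ _) (h2 t w hw))
      fun hw => hm _ _ _ (min_le_right _ _) (h4 t w hw)⟩
  · obtain ⟨κ, h1, S, hS, h2⟩ := h z hz
    exact ⟨S, mem_nhdsWithin_of_mem_nhds hS, κ, h1, h2⟩

theorem pd_add {G A : Mat n} {κ m h : ℝ} (hG : EllH κ G) (hA : A.IsHermitian)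
    (hm : ∀ i j, ‖A i j‖ ≤ m) (h0 : 0 ≤ h) (hm0 : 0 ≤ m) (hh : h * (m * n) < κ) :
    (G + (h : ℂ) • A).PosDef := by
  have hH : (G + (h : ℂ) • A).IsHermitian := hG.1.add (Mf.herm_rsmul hA h)
  refine Matrix.PosDef.of_dotProduct_mulVec_pos hH fun v hv => ?_
  refine RCLike.pos_iff.2 ⟨?_, hH.im_star_dotProduct_mulVec_self v⟩
  have h1 : ‖star v ⬝ᵥ A *ᵥ v‖ ≤ m * (∑ i, ‖v i‖) ^ 2 := by
    simp only [dotProduct, Matrix.mulVec, Finset.mul_sum, sq, Finset.sum_mul]
    refine (norm_sum_le _ _).trans (Finset.sum_le_sum fun i _ =>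
      (norm_sum_le _ _).trans (Finset.sum_le_sum fun j _ => ?_))
    rw [norm_mul, norm_mul, Pi.star_apply, norm_star]
    have := mul_le_mul_of_nonneg_left (hm i j) (mul_nonneg (norm_nonneg (v i)) (norm_nonneg (v j)))
    linarith
  have h2 : (∑ i, ‖v i‖) ^ 2 ≤ n * ∑ i, ‖v i‖ ^ 2 := by
    simpa using sq_sum_le_card_mul_sum_sq (s := Finset.univ) (f := fun i => ‖v i‖)
  have h3 : 0 < ∑ i, ‖v i‖ ^ 2 := by
    obtain ⟨i, hi⟩ := Function.ne_iff.1 hv
    exact Finset.sum_pos' (fun _ _ => sq_nonneg _)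
      ⟨i, Finset.mem_univ i, pow_pos (norm_pos_iff.2 hi) 2⟩
  have h4 := hG.2 v
  have h5 := (abs_le.1 ((abs_re_le_norm _).trans h1)).1
  rw [Matrix.add_mulVec, dotProduct_add, Matrix.smul_mulVec, dotProduct_smul]
  simp only [RCLike.re_to_complex, add_re, smul_eq_mul, re_ofReal_mul]
  nlinarith [mul_le_mul_of_nonneg_left h5 h0, mul_le_mul_of_nonneg_left h2 (mul_nonneg h0 hm0),
    mul_lt_mul_of_pos_right hh h3]

theorem ld_sub {G A : Mat n} (h : ℂ) (hG : G.PosDef) (hG' : (G + h • A).PosDef) :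
    ((Real.log (G + h • A).det.re : ℝ) : ℂ) - (Real.log G.det.re : ℝ) =
      log (1 + h * ((G⁻¹ * A).trace + h * rr h (G⁻¹ * A))) := by
  have h1 := Mf.pd_det_re hG
  have h2 := Mf.pd_det_re hG'
  rw [← ofReal_sub, ← Real.log_div h2.ne' h1.ne', ofReal_log (div_pos h2 h1).le, ofReal_div,
    Mf.herm_det hG.1, Mf.herm_det hG'.1, ← det_exp]
  congr 1
  rw [div_eq_iff (Mf.pd_det_ne hG), mul_comm, ← Matrix.det_mul, mul_add, mul_one, mul_smul_comm,
    Matrix.mul_nonsing_inv_cancel_left _ _ (Mf.pd_det_ne hG).isUnit]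

end REM

open REM in
theorem st_REM {n : ℕ} (hHK : St_HK n) (hF : St_FAM n) (hF2 : St_FAM2 n) (hC : St_CMP n)
    (hL : St_LINR n) (hTR : St_TR) (hHES : St_HES) : St_REM n := by
  intro M _ V T H t K k v w hH hK hv hpin hvb hw hwb
  set Kc : Fin V.r → Set (E n) := fun a => closedBall (V.c a) (4 * V.ρ a)
  have hKc : ∀ a, IsCompact (Kc a) := fun a => isCompact_closedBall _ _
  have hnb : ∀ a, ∀ z ∈ Kb V a, Kc a ∈ 𝓝 z := fun a z hz =>
    mem_of_superset (isOpen_ball.mem_nhds (closedBall_subset_ball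
      (show 2 * V.ρ a < 4 * V.ρ a by linarith [V.pos a]) hz)) ball_subset_closedBall
  have hA : M.All fun e z => LBM k z fun i => M.hs (w i) e := fun e he z hz =>
    hF.hess T k z _ (hwb e he z hz)
  have hB : M.All fun e z => LBM k z fun i y => (gv H (v i) e y)⁻¹ * M.hs (w i) e y :=
    fun e he z hz => by
      refine hF2.mmul T k z _ _ (hF2.inv T k z _ (fun p q => ?_)
        (hC.le M T H K v hH hK hv hpin e he z hz).1).1 (hA e he z hz)
      exact hF.add T k z (fun _ y => H e y p q) (fun i y => M.hs (v i) e y p q)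
        (hF.fix T k z _ (hH.sm e he z hz p q) ((Mf.AllOn.ev hH.sm he hz).mono fun y hy => hy p q))
        (hF.hess T k z _ (hvb e he z hz) p q)
  have hp : ∀ (T' : Type) (φ : T' → T) (c : T' → ℂ), (∀ t, ‖c t‖ ≤ 1) → M.All fun e z =>
      LB k z (fun s y => rr (c s) ((gv H (v (φ s)) e y)⁻¹ * M.hs (w (φ s)) e y)) ∧
      LB k z fun s y => ((gv H (v (φ s)) e y)⁻¹ * M.hs (w (φ s)) e y).trace +
        c s * rr (c s) ((gv H (v (φ s)) e y)⁻¹ * M.hs (w (φ s)) e y) := fun T' φ c hc e he z hz => by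
    have h1 : LBM k z fun s y => (gv H (v (φ s)) e y)⁻¹ * M.hs (w (φ s)) e y := fun p q =>
      hF.re T T' k z _ φ (hB e he z hz p q)
    have h2 := lb_rr hF h1 hc
    exact ⟨h2, hF.add T' k z _ _ (hF2.trace T' k z _ h1)
      (hF.mul T' k z _ _ (hF.scal T' k z c 1 hc) h2)⟩
  have hsu : ∀ (j : ℕ) (S : Set (E n)) f B, HO j S f B → Su S f B := fun j S f B h =>
    (hHK.anti j 0 S f B (Nat.zero_le j) h).1
  have hIoc : ∀ s : T × Ioc (0 : ℝ) 1, ‖((s.2 : ℝ) : ℂ)‖ ≤ 1 := fun s => by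
    rw [norm_real, Real.norm_of_nonneg s.2.2.1.le]
    exact s.2.2.2
  choose P hP0 hP using fun a => hF.glue _ k (Kc a) _ (hKc a) fun z hz =>
    (hp (T × Ioc (0 : ℝ) 1) Prod.fst (fun s => ((s.2 : ℝ) : ℂ)) hIoc _ (V.mem a) z (V.sub a hz)).2
  choose m hm0 hm using fun a p q => hF.glue _ k (Kc a) _ (hKc a) fun z hz =>
    hA _ (V.mem a) z (V.sub a hz) p q
  choose κ hκ0 hκ using fun a => le_cpt (hKc a) fun z hz =>
    (hC.le M T H K v hH hK hv hpin _ (V.mem a) z (V.sub a hz)).1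
  set m' : Fin V.r → ℝ := fun a => ∑ p, ∑ q, m a p q
  have hm' : ∀ a p q, m a p q ≤ m' a := fun a p q =>
    (Finset.single_le_sum (f := fun q => m a p q) (fun q _ => (hm0 a p q).le)
      (Finset.mem_univ q)).trans (Finset.single_le_sum (f := fun p => ∑ q, m a p q)
        (fun p _ => Finset.sum_nonneg fun q _ => (hm0 a p q).le) (Finset.mem_univ p))
  have hm'0 : ∀ a, 0 ≤ m' a := fun a =>
    Finset.sum_nonneg fun p _ => Finset.sum_nonneg fun q _ => (hm0 a p q).le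
  obtain ⟨h0, hh0, hh1, hh2⟩ : ∃ h0 : ℝ, 0 < h0 ∧ h0 ≤ 1 ∧
      ∀ a, h0 * P a < 1 / 2 ∧ h0 * (m' a * n) < κ a := by
    have h1 : ∀ᶠ h : ℝ in 𝓝 0, h < 1 ∧ ∀ a, h * P a < 1 / 2 ∧ h * (m' a * n) < κ a :=
      (gt_mem_nhds one_pos).and (eventually_all.2 fun a =>
        (ContinuousAt.eventually_lt (by fun_prop) continuousAt_const (by simp)).and
          (ContinuousAt.eventually_lt (by fun_prop) continuousAt_const (by simpa using hκ0 a)))
    obtain ⟨h, h2, h3⟩ := ((h1.filter_mono nhdsWithin_le_nhds).and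
      (self_mem_nhdsWithin (s := Ioi (0 : ℝ)))).exists
    exact ⟨h, h3, h2.1.le, h2.2⟩
  have hgv : ∀ i (h : ℝ), M.All fun e z => gv H (fun x => v i x + h * w i x) e z =
      gv H (v i) e z + (h : ℂ) • M.hs (w i) e z := fun i h e he z hz => by
    have h1 := (hv i).1.lc e he z hz
    have h2 := (hw i).lc e he z hz
    have h3 : M.lc (fun x => v i x + h * w i x) e =
        fun y => M.lc (v i) e y + h * M.lc (w i) e y := by
      funext y
      simp [Mf.lc]
    simp only [gv, Mf.hs]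
    rw [h3, hess_add h1 (contDiffAt_const.mul h2), hess_const_mul _ h2, add_assoc]
  have hadm : ∀ i h, 0 < h → h ≤ h0 → Adm H fun x => v i x + h * w i x := fun i h h1 h2 => by
    have hs : M.Sm fun x => v i x + h * w i x := (hv i).1.add ((hw i).const_mul h)
    refine ⟨hs, Mf.allOn_of_source fun e he x hx => ?_⟩
    obtain ⟨a, h3, h4, -⟩ := V.cov x
    have h5 : V.e a x ∈ Kc a := ball_subset_closedBall
      (ball_subset_ball (by linarith [V.pos a]) h4)
    have h6 := (hH.toClo.toForm.toTen.add ((hHES n M).1 _ hs).toTen).cmp _ (V.mem a) e he x h3 hx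
    have h7 : (gv H (fun x => v i x + h * w i x) (V.e a) (V.e a x)).PosDef := by
      rw [hgv i h _ (V.mem a) _ (V.sub a h5)]
      refine pd_add (hκ a i _ h5) (((hHES n M).1 _ (hw i)).herm _ (V.mem a) _ (V.sub a h5))
        (fun p q => (hsu _ _ _ _ (hm a p q i).2 _ h5).trans (hm' a p q)) h1.le (hm'0 a)
        (lt_of_le_of_lt (mul_le_mul_of_nonneg_right h2 (mul_nonneg (hm'0 a) n.cast_nonneg))
          (hh2 a).2)
    rw [show gv H (fun x => v i x + h * w i x) e (e x) = _ from h6]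
    exact h7.conjTranspose_mul_mul_same (Matrix.mulVec_injective_iff_isUnit.2
      ((Matrix.isUnit_iff_isUnit_det _).2
        (((hTR n M).2.1 _ (V.mem a) e he x h3 hx).2.1).isUnit))
  obtain ⟨g, hg, hgl⟩ := exists_g
  have hIoc' : ∀ s : T × Ioc (0 : ℝ) h0, ‖((s.2 : ℝ) : ℂ)‖ ≤ 1 := fun s => by
    rw [norm_real, Real.norm_of_nonneg s.2.2.1.le]
    exact s.2.2.2.trans hh1
  set B : T → M.Fam (Mat n) := fun i e y => (gv H (v i) e y)⁻¹ * M.hs (w i) e y
  set p : T → ℝ → M.Fam ℂ := fun i h e y => (B i e y).trace + h * rr h (B i e y)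
  have hR : ∀ a, ∀ z ∈ Kb V a, LB k z fun (s : T × Ioc (0 : ℝ) h0) y =>
      p s.1 s.2 (V.e a) y * p s.1 s.2 (V.e a) y * g ((s.2 : ℝ) * p s.1 s.2 (V.e a) y) +
        rr (s.2 : ℝ) (B s.1 (V.e a) y) := fun a z hz => by
    obtain ⟨h1, h2⟩ := hp (T × Ioc (0 : ℝ) h0) Prod.fst (fun s => ((s.2 : ℝ) : ℂ)) hIoc' _
      (V.mem a) z (V.sub a (mem_of_mem_nhds (hnb a z hz)))
    refine hF.add _ k z _ _ (hF.mul _ k z _ _ (hF.mul _ k z _ _ h2 h2)
      (hF2.post _ k z g _ _ (isCompact_closedBall 0 (1 / 2)) hg ?_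
        (hF.mul _ k z _ _ (hF.scal _ k z _ 1 hIoc') h2))) h1
    filter_upwards [hnb a z hz] with y hy s
    have h3 := hsu _ _ _ _ (hP a (s.1, ⟨s.2, s.2.2.1, s.2.2.2.trans hh1⟩)).2 y hy
    rw [mem_closedBall_zero_iff, norm_mul, norm_real, Real.norm_of_nonneg s.2.2.1.le]
    exact (mul_le_mul s.2.2.2 h3 (norm_nonneg _) hh0.le).trans (hh2 a).1.le
  choose Q hQ0 hQ using fun a => hF.glue _ k (Kb V a) _ (isCompact_closedBall _ _) (hR a)
  refine ⟨h0, ∑ a, Q a, hh0, Finset.sum_nonneg fun a _ => (hQ0 a).le, fun i h h1 h2 =>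
    ⟨hadm i h h1 h2, fun a => ?_⟩⟩
  obtain ⟨h3, h4⟩ := hQ a (i, ⟨h, h1, h2⟩)
  refine hHK.mono k _ _ _ _ _ subset_rfl ?_ (hHK.congr k _ _ _ _ (fun z hz => ?_)
    (hHK.smul k _ ((h : ℂ) ^ 2) _ _ h3 h4))
  · rw [norm_pow, norm_real, Real.norm_of_nonneg h1.le, mul_comm]
    exact mul_le_mul_of_nonneg_right (Finset.single_le_sum (fun a _ => (hQ0 a).le)
      (Finset.mem_univ a)) (sq_nonneg h)
  filter_upwards [hnb a z hz] with y hy
  have he := V.mem a
  have hy' := V.sub a hy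
  have e1 := hC.rep M H t _ hH (hadm i h h1 h2) _ he y hy'
  have e2 := hC.rep M H t _ hH (hv i) _ he y hy'
  have e3 := hL.ap M _ _ (hC.kae M H _ hH (hv i)).toMet (hw i) _ he y hy'
  have e4 := (hadm i h h1 h2).2 _ he y hy'
  have e5 := hgv i h _ he y hy'
  simp only [e5] at e4
  have e6 := ld_sub h ((hv i).2 _ he y hy') e4
  have e7 := hgl (h * p i h (V.e a) y)
  simp only [Op.ap, lop, lapOp, Pi.zero_apply, zero_mul, Finset.sum_const_zero, add_zero] at e3
  simp only [ld, e5] at e1 e2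
  simp only [Mf.lc] at e1 e2 e3 ⊢
  push_cast at e1 ⊢
  simp only [p, B, Mf.hs] at e1 e6 e7 ⊢
  linear_combination -e1 + e2 - h * e3 - e6 - e7

end Pool.Agent.Lib.HS21
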