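import Pool.Agent.Lib.HS21.LBlue
import Pool.Agent.Lib.HS13.ResV

/-! The resolvent estimate. -/

open scoped ContDiff Topology
open Set

noncomputable section

namespace Pool.Agent.Lib.HS21

open Pool.Agent.Lib.SV (E)

namespace RES

theorem ho_iff {n : ℕ} (k : ℕ) : ∀ (f : E n → ℂ) (M : ℝ),
    HO k univ f M ↔ Pool.Agent.Lib.HS33.H (bs n) k f M := by
  have h0 : ∀ (f : E n → ℂ) (M : ℝ), (Su univ f M ∧ Ho univ f M) ↔ Pool.Agent.Lib.HS33.H0 f M :=
    fun f M => ⟨fun h => ⟨fun x => h.1 x trivial, fun x y => h.2 x trivial y trivial⟩,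
      fun h => ⟨fun x _ => h.1 x, fun x _ y _ => h.2 x y⟩⟩
  induction k with
  | zero => exact h0
  | succ k ih => exact fun f M => and_congr (h0 f M) (forall_congr' fun i => ih _ M)

end RES

theorem st_RES {n : ℕ} (hHK : St_HK n) : St_RES n := by
  intro k κ K hκ
  obtain ⟨C, hC, h⟩ := Pool.Agent.Lib.HS13.resv (bs n) k hκ (le_max_right K 0)
  refine ⟨C, hC, fun A hA hs hK τ hτ w M hw hf => ?_⟩
  obtain ⟨B, -, hB⟩ := hHK.decHO w (k + 2) hw
  simp only [RES.ho_iff] at hK hB hf ⊢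
  exact h A hA hs (fun i j => (hK i j).mono (le_max_left _ _)) τ hτ w B M hw.1 hB hf

end Pool.Agent.Lib.HS21
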