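import Pool.Agent.Lib.HS21.LBlue

/-! The uniform estimate for the linearized equation. -/

open scoped Classical Topology ContDiff ComplexOrder Matrix
open Set Filter Complex Metric

noncomputable section

namespace Pool.Agent.Lib.HS21

open Pool.Agent.Lib.SV (E)
open Pool.Agent.Lib.HS32

theorem st_UNIA {n : ℕ} (hF : St_FAM n) (hF2 : St_FAM2 n) (hB : St_BR n) (hU : St_UNI n)
    (hC : St_CMP n) (hL : St_LINR n) : St_UNIA n := by
  intro M _ V T H t K k v w hH ht hK hv hp hvb hw hf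
  have hm : ∀ i, M.Met (gv H (v i)) := fun i => (hC.kae M H (v i) hH (hv i)).toMet
  have hs : ∀ i, M.Sec 0 (M.lc (w i)) := fun i => hB.lc M _ (hw i)
  obtain ⟨B, -, hBd⟩ := hB.toGS M V T _ fun e he z hz => hF.ls _ _ _ _ (hf e he z hz)
  have hu : GU M fun i => M.lc (w i) := hB.toGU M V T 0 _ (B / t) hs fun i =>
    hB.lcS' M V _ _ (hL.mx M _ _ t B (hm i) (hw i) ht (hB.lcS M V _ B (hBd i)))
  refine hU M V T 0 k
    (fun i => ⟨fun e z => (gv H (v i) e z)⁻¹, 0, 0, fun _ _ => -(t : ℂ)⟩) _ ?_ hs hu ?_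
  · intro e he z hz
    have hev : ∀ᶠ y in 𝓝 z, y ∈ e.target := e.open_target.mem_nhds hz
    have h1 : LBM k z fun i => gv H (v i) e := fun p q =>
      hF.add T k z (fun _ y => H e y p q) (fun i y => hess (M.lc (v i) e) y p q)
        (hF.fix T k z _ (hH.sm e he z hz p q) (hev.mono fun y hy => hH.sm e he y hy p q))
        (hF.hess T k z _ (hvb e he z hz) p q)
    have h2 := hF2.inv T k z _ h1 (hC.le M T H K v hH hK hv hp e he z hz).1
    have h0 : LB k z fun (_ : T) (_ : E n) => (0 : ℂ) :=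
      hF.scal T k z (fun _ => 0) 0 fun _ => by simp
    exact ⟨h2.1, h2.2, fun _ => h0, fun _ => h0,
      hF.scal T k z (fun _ => -(t : ℂ)) _ fun _ => le_rfl⟩
  · intro e he z hz
    have hev : ∀ᶠ y in 𝓝 z, y ∈ e.target := e.open_target.mem_nhds hz
    refine hF.congr T k z _ _ (hev.mono fun y hy i => ?_)
      (hF.mul T k z _ _ (hF.scal T k z (fun _ => (-1 : ℂ)) _ fun _ => le_rfl) (hf e he z hz))
    have h1 := hL.ap M _ (w i) (hm i) (hw i) e he y hy
    simp only [Op.ap, lapOp, lop, Pi.zero_apply, zero_mul, Finset.sum_const_zero, add_zero] at h1 ⊢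
    rw [h1]
    simp only [Mf.lc]
    push_cast
    ring

end Pool.Agent.Lib.HS21
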