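import Pool.Agent.Lib.HS21.B_FAM2
import Pool.Agent.Lib.HS21.B_REAL
import Pool.Agent.Lib.HS.B_GRAD
import Pool.Agent.Lib.HS32.MKit

/-! The estimate of third order for the Monge-Ampère equation. -/

open scoped Topology ComplexOrder Matrix
open Set Filter Complex Metric

noncomputable section

namespace Pool.Agent.Lib.HS21

open Pool.Agent.Lib.SV (E)
open Pool.Agent.Lib.HS32 Pool.Agent.Lib.HS32.Mf
open Pool.Agent.Lib.HS78 (Bd Eb psd_smul)

namespace C3

variable {n : ℕ} {z : E n}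

lemma ls_fin {T α : Type} [Fintype α] {f : α → T → E n → ℂ} (h : ∀ a, LS z (f a)) :
    ∃ B : ℝ, 0 ≤ B ∧ ∀ᶠ w in 𝓝 z, ∀ a t, ‖f a t w‖ ≤ B := by
  choose S hS B hB using h
  refine ⟨∑ a, |B a|, Finset.sum_nonneg fun a _ => abs_nonneg _, eventually_all.2 fun a => ?_⟩
  filter_upwards [hS a] with w hw t
  exact (((hB a t).2 w hw).trans (le_abs_self _)).trans
    (Finset.single_le_sum (f := fun a => |B a|) (fun a _ => abs_nonneg _) (Finset.mem_univ a))

lemma D_le (f : E n → ℂ) (p : Ix n) (w : E n) :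
    ‖D p f w‖ ≤ ‖dz p.1 f w‖ + ‖dzb p.1 f w‖ := by
  obtain ⟨j, a⟩ := p
  have h0 : D ⟨j, 0⟩ f w = dz j f w + dzb j f w := by
    rw [REAL.dz_eq, REAL.dzb_eq]; ring
  have h1 : D ⟨j, 1⟩ f w = I * (dz j f w - dzb j f w) := by
    rw [REAL.dz_eq, REAL.dzb_eq]
    linear_combination (D ⟨j, 1⟩ f w) * I_mul_I
  fin_cases a
  · exact h0.symm ▸ norm_add_le _ _
  · refine (congrArg norm h1).trans_le ?_
    rw [norm_mul, norm_I, one_mul]
    exact norm_sub_le _ _

lemma bd_smul {G : Mat n} {κ B t K : ℝ} (h1 : EllH κ G) (h2 : ∀ p q, ‖G p q‖ ≤ B) (ht : 0 < t)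
    (k1 : K⁻¹ ≤ t * κ) (k2 : t * (Fintype.card (Fin n) * B) ≤ K) : Bd K (t • G) := by
  have one : (1 : Mat n).PosSemidef := Matrix.PosSemidef.one
  constructor
  · have := (psd_rsmul (FAM2.psd h1) ht.le).add (psd_rsmul one (sub_nonneg.2 k1))
    rwa [smul_sub, coe_smul, smul_smul, sub_smul, sub_add_sub_cancel, ← coe_smul K⁻¹] at this
  · have := (psd_rsmul one (sub_nonneg.2 k2)).add (psd_rsmul (HS76.le_of_entry h1.1 h2) ht.le)
    rwa [smul_sub, coe_smul, smul_smul, sub_smul, sub_add_sub_cancel, ← coe_smul K] at this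

end C3

theorem st_C3 {n : ℕ} (hF : St_FAM n) (hM : St_CMP n) (hL : St_LAP) (hE : St_HES)
    (hC : HS.St_CALG) : St_C3 n := by
  intro M T H t K v hH ht hK hv hp hf e he z hz
  have hG := fun i => hM.kae M H _ hH (hv i)
  have hs := fun i => hM.sm M H t _ hH (hv i)
  obtain ⟨⟨κ, hκ, S, hS, h1⟩, h2⟩ := hM.le M T H K v hH hK hv hp e he z hz
  have hR := ((hE n M).2.2.2.2.2.2.2.2.1 H hH.toMet).toTen
  have hT := fun i => (hR.sub ((hE n M).1 _ (hs i)).toTen).add (hH.toTen.smul t)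
  have hfix := hR.add (hH.toTen.smul t)
  have h3 : LBM 1 z fun i => (M.ric H - M.hs (ma H t (v i)) + t • H) e := fun p q =>
    hF.congr T 1 z _ _ (Eventually.of_forall fun w i => by
      simp only [Pi.add_apply, Pi.sub_apply, Matrix.add_apply, Matrix.sub_apply, Mf.hs]; ring)
      (hF.sub T 1 z _ _ (hF.fix T 1 z _ (hfix.sm e he z hz p q)
        ((hfix.sm.ev he hz).mono fun w hw => hw p q)) (hF.hess T 1 z _ (hf e he z hz) p q))
  obtain ⟨B₁, p1, b1⟩ := C3.ls_fin fun a : Fin n × Fin n => h2 a.1 a.2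
  obtain ⟨B₂, p2, b2⟩ := C3.ls_fin fun a : Fin n × Fin n => hF.ls T 1 z _ (h3 a.1 a.2)
  obtain ⟨B₃, p3, b3⟩ := C3.ls_fin fun a : Fin n × Fin n × Fin n =>
    hF.ls T 0 z _ (hF.dz T 0 z _ a.1 (h3 a.2.1 a.2.2)).1
  obtain ⟨r, hr, hb⟩ := Metric.eventually_nhds_iff_ball.1
    (((((e.open_target.eventually_mem hz).and hS).and b1).and b2).and b3)
  have hsub : closedBall z (r / 2) ⊆ ball z r := closedBall_subset_ball (by linarith)
  obtain ⟨C, N, -, cal⟩ := hC n _ _ isOpen_ball (isCompact_closedBall z (r / 2)) hsub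
  have q1 : 0 < (t * κ)⁻¹ := by positivity
  have q2 : 0 ≤ t * (Fintype.card (Fin n) * B₁) := by positivity
  set L := 1 + (t * κ)⁻¹ + t * (Fintype.card (Fin n) * B₁) + B₂ + B₃ with hL'
  have key : ∀ i, ∀ w ∈ closedBall z (r / 2), ∀ k,
      Eb (C * L ^ N) (dM k ((t • gv H (v i)) e) w) := fun i =>
    cal L _ ((M.ric H - M.hs (ma H t (v i)) + t • H) e) (by linarith) fun w hw => by
      obtain ⟨⟨⟨⟨c1, c2⟩, c3⟩, c4⟩, c5⟩ := hb w hw
      have hk := (hG i).smul ht
      refine ⟨hk.sm e he w c1, (hT i).sm e he w c1, hk.cl e he w c1,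
        C3.bd_smul (h1 i w c2) (fun p q => c3 (p, q) i) ht
          (inv_le_of_inv_le₀ (by positivity) (by linarith)) (by linarith), ?_,
        fun p q => (c4 (p, q) i).trans (by linarith),
        fun k p q => (c5 (k, p, q) i).trans (by linarith)⟩
      have a1 := ((hE n M).2.2.2.2.2.2.2.2.2 _ H hk.toMet hH.toMet).2 e he w c1
      have e1 : (fun x => Real.log (M.dq H (t • gv H (v i)) x)) =
          fun x => Real.log (t ^ n) + (ma H t (v i) x + t * v i x) := funext fun x => by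
        have : 0 < M.dq H (gv H (v i)) x := by
          rw [dq, ← herm_det ((hG i).toMet.ev_pos x).1, ← herm_det (hH.toMet.ev_pos x).1,
            ← ofReal_div, ofReal_re]
          exact div_pos (pd_det_re ((hG i).toMet.ev_pos x)) (pd_det_re (hH.toMet.ev_pos x))
        rw [dq_smul, Real.log_mul (pow_pos ht n).ne' this.ne', ma, sub_add_cancel]
      have s1 := (hv i).1.const_mul t
      beta_reduce at a1
      rw [e1, ((hL n M _ _ (sm_const _) ((hs i).add s1)).1 0 e he w c1).2.1,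
        ((hL n M _ _ s1 s1).1 _ e he w c1).1, ((hL n M _ _ (hs i) s1).1 0 e he w c1).2.1,
        ((hL n M _ _ (hv i).1 (hv i).1).1 t e he w c1).2.2.2.1] at a1
      refine a1.trans ?_
      simp only [Pi.add_apply, Pi.sub_apply, Pi.smul_apply, gv, smul_add]
      abel
  have key' : ∀ i, ∀ w ∈ closedBall z (r / 2), ∀ k p q,
      ‖dz k (fun x => gv H (v i) e x p q) w‖ ≤ t⁻¹ * (C * L ^ N) := fun i w hw k p q => by
    have a := key i w hw k p q
    rw [show (t • gv H (v i)) e = fun x => t • gv H (v i) e x from rfl,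
      dM_rsmul t ((hG i).sm e he w (hb w (hsub hw)).1.1.1.1), Matrix.smul_apply, norm_smul,
      Real.norm_of_nonneg ht.le] at a
    exact (le_inv_mul_iff₀ ht).2 a
  refine fun p q => hF.base T z _ (h2 p q) fun j => ⟨closedBall z (r / 2),
    closedBall_mem_nhds z (by linarith), t⁻¹ * (C * L ^ N) + t⁻¹ * (C * L ^ N), fun i =>
      ⟨fun w hw => cd_fderiv ((hG i).sm e he w (hb w (hsub hw)).1.1.1.1 p q) _, fun w hw =>
        (C3.D_le _ j w).trans (add_le_add (key' i w hw _ p q) ?_)⟩⟩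
  have c1 := (hb w (hsub hw)).1.1.1.1
  rw [dzb_congr (g := fun x => star (gv H (v i) e x q p))
    (((hG i).herm.ev he c1).mono fun x hx => (hx.apply p q).symm),
    dzb_star (((hG i).sm e he w c1).diff q p), norm_star]
  exact key' i w hw _ q p

end Pool.Agent.Lib.HS21
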