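import Pool.Agent.Lib.HS32.MDefs

/-! Hölder classes with exponent one half, families, elliptic operators. -/

open scoped Classical Topology ContDiff ComplexOrder Matrix
open Set Filter Complex Metric

set_option linter.unusedVariables false

noncomputable section

namespace Pool.Agent.Lib.HS21

open Pool.Agent.Lib.SV (E)
open Pool.Agent.Lib.HS32

/-- Index set of the real coordinates. -/
abbrev Ix (n : ℕ) : Type := (_ : Fin n) × Fin 2

/-- The real basis `e_j`, `i e_j`. -/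
def bs (n : ℕ) : Module.Basis (Ix n) ℝ (E n) := Pi.basis fun _ => Complex.basisOneI

section euc

variable {n : ℕ}

/-- Derivative along a vector of the real basis. -/
def D (i : Ix n) (f : E n → ℂ) : E n → ℂ := fun x => fderiv ℝ f x (bs n i)

/-- Iterated derivative. -/
def Dl : List (Ix n) → (E n → ℂ) → E n → ℂ
  | [], f => f
  | i :: l, f => Dl l (D i f)

/-- Hölder seminorm bound on `S`. -/
def Ho (S : Set (E n)) (f : E n → ℂ) (M : ℝ) : Prop :=
  ∀ x ∈ S, ∀ y ∈ S, ‖f x - f y‖ ≤ M * √‖x - y‖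

/-- Uniform bound on `S`. -/
def Su (S : Set (E n)) (f : E n → ℂ) (M : ℝ) : Prop := ∀ x ∈ S, ‖f x‖ ≤ M

/-- All derivatives of order at most `k` are bounded and Hölder on `S`, with constant `M`. -/
def HO : ℕ → Set (E n) → (E n → ℂ) → ℝ → Prop
  | 0, S, f, M => Su S f M ∧ Ho S f M
  | k + 1, S, f, M => (Su S f M ∧ Ho S f M) ∧ ∀ i, HO k S (D i f) M

/-- Smooth at all points of `S`. -/
def SmO (S : Set (E n)) (f : E n → ℂ) : Prop := ∀ x ∈ S, ContDiffAt ℝ ∞ f x

/-- Smooth, and all derivatives tend to zero at infinity. -/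
def Dec (w : E n → ℂ) : Prop :=
  ContDiff ℝ ∞ w ∧ ∀ l, Tendsto (Dl l w) (cocompact (E n)) (𝓝 0)

/-- A family that is smooth and uniformly bounded near `z`. -/
def LS {T : Type} (z : E n) (f : T → E n → ℂ) : Prop :=
  ∃ S ∈ 𝓝 z, ∃ M, ∀ t, SmO S (f t) ∧ Su S (f t) M

/-- A family that is smooth and uniformly bounded in the Hölder class of order `k` near `z`. -/
def LB {T : Type} (k : ℕ) (z : E n) (f : T → E n → ℂ) : Prop :=
  ∃ S ∈ 𝓝 z, ∃ M, ∀ t, SmO S (f t) ∧ HO k S (f t) M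

/-- Second order operator with real coefficients. -/
def L0 (A : E n → Ix n → Ix n → ℝ) (w : E n → ℂ) : E n → ℂ :=
  fun x => ∑ i, ∑ j, (A x i j : ℂ) * D i (D j w) x

/-- Ellipticity of a real matrix. -/
def Ell (κ : ℝ) (a : Ix n → Ix n → ℝ) : Prop :=
  ∀ ξ : Ix n → ℝ, κ * ∑ i, ξ i ^ 2 ≤ ∑ i, ∑ j, a i j * ξ i * ξ j

/-- Ellipticity of a Hermitian matrix. -/
def EllH (κ : ℝ) (W : Mat n) : Prop :=
  W.IsHermitian ∧ ∀ v : E n, κ * ∑ i, ‖v i‖ ^ 2 ≤ (star v ⬝ᵥ W *ᵥ v).re

/-- The real matrix of the operator `f ↦ tr (W hess f)`. -/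
def ra (W : Mat n) : Ix n → Ix n → ℝ :=
  fun p q => (W q.1 p.1 * I ^ (p.2 : ℕ) * (-I) ^ (q.2 : ℕ)).re / 4

/-- A family of matrices with entries in the class `LB k z`. -/
def LBM {T : Type} (k : ℕ) (z : E n) (W : T → E n → Mat n) : Prop :=
  ∀ i j, LB k z fun t w => W t w i j

/-- A family of matrices that is uniformly elliptic near `z`. -/
def LE {T : Type} (z : E n) (W : T → E n → Mat n) : Prop :=
  ∃ κ, 0 < κ ∧ ∃ S ∈ 𝓝 z, ∀ t, ∀ w ∈ S, EllH κ (W t w)

/-- The operator `tr (W hess s) + b · ∂ s + b' · ∂bar s + c s` in coordinates. -/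
def lop (W : E n → Mat n) (b b' : E n → E n) (c s : E n → ℂ) : E n → ℂ := fun z =>
  (W z * hess s z).trace + ∑ j, b z j * dz j s z + ∑ j, b' z j * dzb j s z + c z * s z

end euc

/-- The range of `T` on `CV` is dense in `CW` for the size `Q`. -/
def Dns {V W : Type} [AddCommGroup V] [AddCommGroup W] (CV : AddSubgroup V) (CW : AddSubgroup W)
    (Q : W → ℝ → Prop) (T : V → W) : Prop :=
  ∀ f ∈ CW, ∀ ε, 0 < ε → ∃ v ∈ CV, Q (T v - f) ε

/-- `Q` behaves like a bound for a seminorm on `CW`. -/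
structure Siz {W : Type} [AddCommGroup W] (CW : AddSubgroup W) (Q : W → ℝ → Prop) : Prop where
  ex : ∀ f ∈ CW, ∃ M, 0 < M ∧ Q f M
  mono : ∀ f ∈ CW, ∀ M M', M ≤ M' → Q f M → Q f M'
  add : ∀ f ∈ CW, ∀ g ∈ CW, ∀ M M', Q f M → Q g M' → Q (f + g) (M + M')
  neg : ∀ f ∈ CW, ∀ M, Q f M → Q (-f) M

/-- `T` is additive on `CV` with values in `CW`, up to the size `Q`. -/
structure Lin {V W : Type} [AddCommGroup V] [AddCommGroup W] (CV : AddSubgroup V)
    (CW : AddSubgroup W) (Q : W → ℝ → Prop) (T : V → W) : Prop where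
  mem : ∀ v ∈ CV, T v ∈ CW
  add : ∀ v ∈ CV, ∀ v' ∈ CV, ∀ ε, 0 < ε → Q (T (v + v') - (T v + T v')) ε

section mf

variable {n : ℕ} {M : Mf n}

/-- The closed ball of the covering on which sizes are measured. -/
def Kb (V : M.Cov) (a : Fin V.r) : Set (E n) := closedBall (V.c a) (2 * V.ρ a)

/-- Global Hölder bound of order `k`. -/
def GH (V : M.Cov) (k : ℕ) (s : M.Fam ℂ) (B : ℝ) : Prop := ∀ a, HO k (Kb V a) (s (V.e a)) B

/-- Global uniform bound. -/
def GS (V : M.Cov) (s : M.Fam ℂ) (B : ℝ) : Prop := ∀ a, Su (Kb V a) (s (V.e a)) B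

variable (M)

/-- A family of families that is locally bounded in the Hölder class of order `k`. -/
def GB {T : Type} (k : ℕ) (s : T → M.Fam ℂ) : Prop := M.All fun e z => LB k z fun t => s t e

/-- A family of families that is locally uniformly bounded. -/
def GU {T : Type} (s : T → M.Fam ℂ) : Prop := M.All fun e z => LS z fun t => s t e

/-- The group of smooth sections. -/
def secG (m : ℕ) : AddSubgroup (M.Fam ℂ) where
  carrier := {s | M.Sec m s}
  add_mem' := fun hs ht => ⟨fun e he z hz => (hs.sm e he z hz).add (ht.sm e he z hz),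
    fun e he e' he' x hx hx' => by
      simp only [Pi.add_apply, hs.cmp e he e' he' x hx hx', ht.cmp e he e' he' x hx hx', add_mul]⟩
  zero_mem' := ⟨fun e he z hz => contDiffAt_const, fun e he e' he' x hx hx' => by simp⟩
  neg_mem' := fun hs => ⟨fun e he z hz => (hs.sm e he z hz).neg,
    fun e he e' he' x hx hx' => by
      simp only [Pi.neg_apply, hs.cmp e he e' he' x hx hx', neg_mul]⟩

/-- Coefficients of a second order operator. -/
structure Op where
  W : M.Fam (Mat n)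
  b : M.Fam (E n)
  b' : M.Fam (E n)
  c : M.Fam ℂ

variable {M}

/-- The action of the operator. -/
def Op.ap (L : Op M) (s : M.Fam ℂ) : M.Fam ℂ :=
  fun e => lop (L.W e) (L.b e) (L.b' e) (L.c e) (s e)

/-- A family of operators, uniformly elliptic and with coefficients bounded to order `k`. -/
def OB {T : Type} (k : ℕ) (L : T → Op M) : Prop := M.All fun e z =>
  LBM k z (fun t => (L t).W e) ∧ LE z (fun t => (L t).W e) ∧
  (∀ j, LB k z fun t w => (L t).b e w j) ∧ (∀ j, LB k z fun t w => (L t).b' e w j) ∧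
  LB k z fun t => (L t).c e

/-- An elliptic operator with smooth coefficients on the sections of the `m`-th power. -/
structure Op.Ok (L : Op M) (m : ℕ) : Prop where
  smW : M.All fun e z => SmM (L.W e) z
  pos : M.All fun e z => (L.W e z).PosDef
  smb : M.All fun e z => ∀ j, ContDiffAt ℝ ∞ (fun w => L.b e w j) z
  smb' : M.All fun e z => ∀ j, ContDiffAt ℝ ∞ (fun w => L.b' e w j) z
  smc : M.All fun e z => ContDiffAt ℝ ∞ (L.c e) z
  sec : ∀ s, M.Sec m s → M.Sec m (L.ap s)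

/-- The shifted operator `τ - L`. -/
def Op.sh (L : Op M) (τ : ℝ) (s : M.Fam ℂ) : M.Fam ℂ := fun e z => τ * s e z - L.ap s e z

/-- The uniform norm is controlled by the shifted operators, for all shifts at least `t`. -/
def Op.Inj (L : Op M) (V : M.Cov) (m : ℕ) (t : ℝ) : Prop :=
  ∀ ε, 0 < ε → ∃ C, 0 ≤ C ∧ ∀ τ, t ≤ τ → ∀ s B B', M.Sec m s → GH V 0 s B →
    GS V (L.sh τ s) B' → GS V s (ε * B + C * B')

/-- The Laplace operator of a metric. -/
def lapOp (G : M.Fam (Mat n)) : Op M := ⟨fun e z => (G e z)⁻¹, 0, 0, 0⟩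

/-- The form `H + hess v`. -/
def gv (H : M.Fam (Mat n)) (v : M.X → ℝ) : M.Fam (Mat n) := fun e z => H e z + M.hs v e z

/-- Admissible potentials. -/
def Adm (H : M.Fam (Mat n)) (v : M.X → ℝ) : Prop :=
  M.Sm v ∧ M.All fun e z => (gv H v e z).PosDef

/-- The Monge-Ampère operator. -/
def ma (H : M.Fam (Mat n)) (t : ℝ) (v : M.X → ℝ) : M.X → ℝ :=
  fun x => Real.log (M.dq H (gv H v) x) - t * v x

/-- Two-sided comparison of `H + hess v` with `H`. -/
def Pin (H : M.Fam (Mat n)) (K : ℝ) (v : M.X → ℝ) : Prop :=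
  M.Le H (fun e z => (K : ℂ) • gv H v e z) ∧ M.Le (gv H v) fun e z => (K : ℂ) • H e z

end mf

theorem hs21_ldefs_rlz (f : E 0 → ℂ) : Dl [] f = f ∧ (HO 0 univ f 0 ↔ HO 0 univ f 0) := by
  simp [Dl, HO]

end Pool.Agent.Lib.HS21
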