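import Pool.Agent.Lib.HS21.Kit

/-! The parametrix. -/

open scoped Classical Topology ContDiff ComplexOrder Matrix
open Set Filter Complex Metric

set_option linter.unusedVariables false

noncomputable section

namespace Pool.Agent.Lib.HS21

open Pool.Agent.Lib.SV (E)
open Pool.Agent.Lib.HS32

namespace PAR

variable {n : ℕ} {M : Mf n} (V : M.Cov) (m : ℕ) (a : Fin V.r)

/-- The cut-off function read in its chart. -/
def ch (z : E n) : ℂ := (V.χ a ((V.e a).symm z) : ℂ)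

/-- Extension of a function of the coordinates to a section. -/
def ext (w : E n → ℂ) : M.Fam ℂ := fun e z =>
  if e.symm z ∈ (V.e a).source then
    V.χ a (e.symm z) * w (V.e a (e.symm z)) * (M.J (V.e a) e (e.symm z)).det ^ m
  else 0

/-- The compact set that contains the support. -/
def Kx : Set M.X := (V.e a).symm '' Kb V a

theorem Kx_closed : IsClosed (Kx V a) := by
  haveI := cov_t2 V
  exact ((Kb_cpt V a).image_of_continuousOn
    ((V.e a).continuousOn_symm.mono (Kb_sub V a))).isClosed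

theorem chi_zero {x : M.X} (hx : x ∉ Kx V a) : V.χ a x = 0 := by
  by_contra h
  obtain ⟨h1, h2⟩ := V.supp a x h
  exact hx ⟨V.e a x, ball_subset_closedBall h2, (V.e a).left_inv h1⟩

theorem ev_zero {e : M.Ch} {z : E n} (hz : z ∈ e.target) (hx : e.symm z ∉ Kx V a) :
    ∀ᶠ y in 𝓝 z, ∀ w, ext V m a w e y = 0 := by
  have := (e.continuousAt_symm hz).eventually ((Kx_closed V a).isOpen_compl.mem_nhds hx)
  filter_upwards [this] with y hy w
  simp [ext, chi_zero V a hy]

theorem ch_sm {z : E n} (hz : z ∈ (V.e a).target) : ContDiffAt ℝ ∞ (ch V a) z :=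
  (V.sm a).lc _ (V.mem a) z hz

theorem ext_self (hT : St_TR) (w : E n → ℂ) {z : E n} (hz : z ∈ (V.e a).target) :
    ext V m a w (V.e a) z = ch V a z * w z := by
  have h1 := (V.e a).map_target hz
  simp only [ext, if_pos h1, (V.e a).right_inv hz, (hT n M).2.2.1 _ (V.mem a) _ h1, ch,
    Matrix.det_one, one_pow, mul_one]

theorem ext_sec (hT : St_TR) (hC : St_CHN) {w : E n → ℂ}
    (hw : ∀ z ∈ (V.e a).target, ContDiffAt ℝ ∞ w z) : M.Sec m (ext V m a w) where
  sm := fun e he z hz => by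
    by_cases hx : e.symm z ∈ Kx V a
    · obtain ⟨y, hy, hyx⟩ := hx
      have hs : e.symm z ∈ (V.e a).source := hyx ▸ (V.e a).map_target (Kb_sub V a hy)
      obtain ⟨hol, -, -, hev, -⟩ := (hT n M).2.1 _ (V.mem a) e he _ hs (e.map_target hz)
      rw [e.right_inv hz] at hol hev
      obtain ⟨c1, c2, -⟩ := hC n _ _ hol
      have h3 : ContDiffAt ℝ ∞ (fun y => w ((V.e a ∘ e.symm) y)) z :=
        (hw _ ((V.e a).map_source hs)).comp z c1
      refine ((((V.sm a).lc e he z hz).mul h3).mul (c2.det.pow m)).congr_of_eventuallyEq ?_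
      filter_upwards [hev] with y hy
      simp only [ext, if_pos hy.2.1, hy.2.2.2.2.2.2, Mf.lc, Function.comp]
    · exact (contDiffAt_const (c := (0 : ℂ))).congr_of_eventuallyEq
        ((ev_zero V m a hz hx).mono fun y hy => hy w)
  cmp := fun e he e' he' x hx hx' => by
    simp only [ext, e.left_inv hx, e'.left_inv hx']
    split_ifs with h
    · rw [((hT n M).2.1 _ (V.mem a) e he x h hx).2.2.2.2 e' he' hx', Matrix.det_mul, mul_pow]
      ring
    · simp

theorem ext_sum {f : M.Fam ℂ} (hf : M.Sec m f) {g : Fin V.r → E n → ℂ}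
    (hg : ∀ a, ∀ z ∈ (V.e a).target, g a z = ch V a z * f (V.e a) z) :
    M.All fun e z => ∑ a, ext V m a (g a) e z = f e z := fun e he z hz => by
  have h1 : ∀ a, ext V m a (g a) e z = ((V.χ a (e.symm z) ^ 2 : ℝ) : ℂ) * f e z := fun a => by
    simp only [ext]
    split_ifs with h
    · have := hf.cmp _ (V.mem a) e he _ h (e.map_target hz)
      simp only [e.right_inv hz] at this
      rw [hg a _ ((V.e a).map_source h), this, ch, (V.e a).left_inv h]
      push_cast
      ring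
    · have : V.χ a (e.symm z) = 0 := by
        by_contra h0
        exact h (V.supp a _ h0).1
      simp [this]
  simp only [h1, ← Finset.sum_mul, ← Complex.ofReal_sum, V.sum]
  simp

/-- The bump function of the chart. -/
def bp : ContDiffBump (V.c a) :=
  ⟨3 * V.ρ a, 4 * V.ρ a, by have := V.pos a; positivity, by have := V.pos a; linarith⟩

theorem bp_ts : tsupport (fun x => ((bp V a x : ℝ) : ℂ)) ⊆ closedBall (V.c a) (4 * V.ρ a) := by
  refine closure_minimal (fun x hx => ?_) isClosed_closedBall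
  have : x ∈ Function.support (bp V a) := fun h => hx (by simp [h])
  rw [ContDiffBump.support_eq] at this
  exact ball_subset_closedBall this

theorem bp_cs : HasCompactSupport fun x => ((bp V a x : ℝ) : ℂ) :=
  (isCompact_closedBall _ _).of_isClosed_subset (isClosed_tsupport _) (bp_ts V a)

theorem bp_sm : ContDiff ℝ ∞ fun x => ((bp V a x : ℝ) : ℂ) :=
  ofRealCLM.contDiff.comp (bp V a).contDiff

theorem bp_one {z : E n} (hz : z ∈ closedBall (V.c a) (3 * V.ρ a)) : bp V a z = 1 :=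
  (bp V a).one_of_mem_closedBall hz

theorem bp_ch {z : E n} (hz : z ∈ (V.e a).target) : (bp V a z : ℂ) * ch V a z = ch V a z := by
  by_cases h : V.χ a ((V.e a).symm z) = 0
  · simp [ch, h]
  · have := (V.supp a _ h).2
    rw [(V.e a).right_inv hz] at this
    rw [bp_one V a (closedBall_subset_closedBall (by have := V.pos a; linarith)
      (ball_subset_closedBall this))]
    simp

/-- The coefficients extended to the whole space. -/
def co (L : Op M) (x : E n) (i j : Ix n) : ℝ :=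
  bp V a x * (ra (L.W (V.e a) x) i j - if i = j then 1 else 0) + if i = j then 1 else 0

variable {V m}

theorem co_spec (hK : St_HK n) (hF : St_FAM n) (hF2 : St_FAM2 n) (hR : St_REAL n) {L : Op M}
    (hL : L.Ok m) (k : ℕ) : ∃ κ K : ℝ, 0 < κ ∧ (∀ x, Ell κ (co V a L x)) ∧
      (∀ i j, ContDiff ℝ ∞ fun x => (co V a L x i j : ℂ)) ∧
      (∀ i j, HO k univ (fun x => (co V a L x i j : ℂ)) K) ∧
      ∀ i j, HasCompactSupport fun x => co V a L x i j - if i = j then 1 else 0 := by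
  obtain ⟨κ, hκ, He⟩ := LE.cpt (T := Unit) (A := fun _ => L.W (V.e a))
    (isCompact_closedBall (V.c a) (4 * V.ρ a)) fun z hz =>
      hF2.leFix _ z _ (fun i j => (hL.smW _ (V.mem a) z (V.sub a hz) i j).continuousAt)
        (Mf.AllOn.ev hL.pos (V.mem a) (V.sub a hz))
  have h1 : ∀ i j, ∃ B, 0 < B ∧ ∀ t : Unit, ContDiff ℝ ∞ (fun w => ((bp V a w : ℝ) : ℂ) *
      ((ra (L.W (V.e a) w) i j : ℂ) - if i = j then 1 else 0)) ∧
      HO k univ (fun w => ((bp V a w : ℝ) : ℂ) *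
      ((ra (L.W (V.e a) w) i j : ℂ) - if i = j then 1 else 0)) B := fun i j =>
    hF.cut Unit k _ (fun _ w => (ra (L.W (V.e a) w) i j : ℂ) - if i = j then 1 else 0) (bp_sm V a)
      (bp_cs V a) fun z hz => hF.fixO _ k (V.e a).open_target (V.sub a (bp_ts V a hz))
        fun w hw => (hR.sm w _ (hL.smW _ (V.mem a) w hw) i j).sub contDiffAt_const
  choose B hB H using h1
  have e1 : ∀ i j, (fun x => (co V a L x i j : ℂ)) = fun w => ((bp V a w : ℝ) : ℂ) *
      ((ra (L.W (V.e a) w) i j : ℂ) - if i = j then 1 else 0) + if i = j then 1 else 0 := by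
    intro i j
    funext x
    simp only [co]
    split_ifs <;> simp
  refine ⟨min (κ / 4) 1, ∑ i, ∑ j, B i j + 1, lt_min (by positivity) one_pos, fun x ξ => ?_,
    fun i j => ?_, fun i j => ?_, fun i j => ?_⟩
  · have e2 : ∑ i, ∑ j, co V a L x i j * ξ i * ξ j =
        bp V a x * ∑ i, ∑ j, ra (L.W (V.e a) x) i j * ξ i * ξ j + (1 - bp V a x) * ∑ i, ξ i ^ 2 := by
      simp only [co, Finset.mul_sum, ← Finset.sum_add_distrib]
      refine Finset.sum_congr rfl fun i _ => ?_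
      have : (1 - bp V a x) * ξ i ^ 2 =
          ∑ j, (1 - bp V a x) * (if i = j then 1 else 0) * ξ i * ξ j := by
        simp [Finset.sum_ite_eq, sq, mul_assoc]
      rw [this, ← Finset.sum_add_distrib]
      exact Finset.sum_congr rfl fun j _ => by ring
    have h0 : 0 ≤ ∑ i, ξ i ^ 2 := by positivity
    have b0 : 0 ≤ bp V a x := (bp V a).nonneg
    have b1 : bp V a x ≤ 1 := (bp V a).le_one
    have m1 := mul_le_mul_of_nonneg_right (min_le_left (κ / 4) 1) h0
    have m2 := mul_le_mul_of_nonneg_right (min_le_right (κ / 4) 1) h0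
    rw [e2]
    by_cases hx : bp V a x = 0
    · rw [hx]
      linarith
    · have := hR.ell κ _ (He () x (bp_ts V a (subset_tsupport _ (by simpa using hx)))) ξ
      nlinarith [mul_le_mul_of_nonneg_left (m1.trans this) b0,
        mul_le_mul_of_nonneg_left m2 (sub_nonneg.2 b1)]
  · rw [e1]
    exact (H i j ()).1.add contDiff_const
  · rw [e1]
    refine hK.mono _ _ _ _ _ _ Subset.rfl ?_ (hK.add k _ _ _ _ _ (fun x _ => (H i j ()).1.contDiffAt)
      (fun x _ => contDiffAt_const) (H i j ()).2 (hK.const k _ _))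
    have h2 : B i j ≤ ∑ i, ∑ j, B i j :=
      (Finset.single_le_sum (fun j _ => (hB i j).le) (Finset.mem_univ j)).trans
        (Finset.single_le_sum (f := fun i => ∑ j, B i j)
          (fun i _ => Finset.sum_nonneg fun j _ => (hB i j).le) (Finset.mem_univ i))
    have h3 : ‖(if i = j then 1 else 0 : ℂ)‖ ≤ 1 := by split_ifs <;> simp
    linarith
  · simp only [co, add_sub_cancel_right]
    exact (bp V a).hasCompactSupport.mul_right

theorem err (hK : St_HK n) (hF : St_FAM n) (hF2 : St_FAM2 n) (hR : St_REAL n) (hB : St_BR n)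
    (hT : St_TR) (hC : St_CHN) {L : Op M} (hL : L.Ok m) (k : ℕ) : ∃ C, 0 < C ∧
    ∀ (τ B : ℝ) (w g : E n → ℂ), 0 < B → ContDiff ℝ ∞ w → ContDiff ℝ ∞ g →
      HO k univ (fun x => τ * w x - L0 (co V a L) w x - g x) B → HO (k + 1) univ w B →
      GH V k (fun e z => L.sh τ (ext V m a w) e z - ext V m a g e z) (C * B) := by
  obtain ⟨-, -, -, -, hs, -, -⟩ := co_spec a hK hF hF2 hR hL k
  let T := {p : ℝ × ℝ × (E n → ℂ) × (E n → ℂ) // 0 < p.2.1 ∧ ContDiff ℝ ∞ p.2.2.1 ∧
    ContDiff ℝ ∞ p.2.2.2 ∧ HO k univ (fun x => p.1 * p.2.2.1 x - L0 (co V a L) p.2.2.1 x -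
      p.2.2.2 x) p.2.1 ∧ HO (k + 1) univ p.2.2.1 p.2.1}
  have sec : ∀ (τ : ℝ) (w g : E n → ℂ), ContDiff ℝ ∞ w → ContDiff ℝ ∞ g →
      M.Sec m fun e z => L.sh τ (ext V m a w) e z - ext V m a g e z := fun τ w g hw hg =>
    sec_sub (hL.sh τ (ext_sec V m a hT hC fun z _ => hw.contDiffAt))
      (ext_sec V m a hT hC fun z _ => hg.contDiffAt)
  have hG : GB M k fun (t : T) e z => ((t.1.2.1 : ℂ))⁻¹ *
      (L.sh t.1.1 (ext V m a t.1.2.2.1) e z - ext V m a t.1.2.2.2 e z) := by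
    refine hB.toGB' M T m k _ (fun t => sec_smul (sec _ _ _ t.2.2.1 t.2.2.2.1) _) fun x => ?_
    by_cases hx : x ∈ Kx V a
    · obtain ⟨y, hy, rfl⟩ := hx
      have hyt := Kb_sub V a hy
      refine ⟨V.e a, V.mem a, (V.e a).map_target hyt, ?_⟩
      rw [(V.e a).right_inv hyt]
      have fx : ∀ j (g : E n → ℂ), (∀ w ∈ (V.e a).target, ContDiffAt ℝ ∞ g w) →
          LB j y fun _ : T => g := fun j g hg => hF.fixO T j (V.e a).open_target hyt hg
      have l1 := hK.nrm (z := y) (T := T) univ_mem (fun t => t.2.1)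
        (f := fun t x => t.1.1 * t.1.2.2.1 x - L0 (co V a L) t.1.2.2.1 x - t.1.2.2.2 x)
        (fun t x _ => ((contDiffAt_const.mul t.2.2.1.contDiffAt).sub
          (L0_smooth (fun i j => (hs i j).contDiffAt) t.2.2.1.contDiffAt)).sub
            t.2.2.2.1.contDiffAt) fun t => t.2.2.2.2.1
      have l2 := hK.nrm (z := y) (T := T) univ_mem (fun t => t.2.1) (f := fun t => t.1.2.2.1)
        (fun t x _ => t.2.2.1.contDiffAt) fun t => t.2.2.2.2.2
      have l3 := hF.low hF2 (W := fun _ => L.W (V.e a)) (b := fun _ => L.b (V.e a))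
        (b' := fun _ => L.b' (V.e a))
        (fun i j => fx k _ fun w hw => hL.smW _ (V.mem a) w hw i j)
        (fun j => fx k _ fun w hw => hL.smb _ (V.mem a) w hw j)
        (fun j => fx k _ fun w hw => hL.smb' _ (V.mem a) w hw j)
        (fx k _ fun w hw => hL.smc _ (V.mem a) w hw) (fx (k + 2) _ fun w hw => ch_sm V a hw) l2
      refine hF.congr _ _ _ _ _ ?_
        (hF.sub _ _ _ _ _ (hF.mul _ _ _ _ _ (fx k _ fun w hw => ch_sm V a hw) l1) l3)
      have hb : ball (V.c a) (3 * V.ρ a) ∈ 𝓝 y := isOpen_ball.mem_nhds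
        (closedBall_subset_ball (by have := V.pos a; linarith) hy)
      filter_upwards [hb, (V.e a).open_target.mem_nhds hyt] with z hz hzt t
      have hw : ContDiffAt ℝ ∞ t.1.2.2.1 z := t.2.2.1.contDiffAt
      have hw' : ContDiffAt ℝ ∞ (fun x => ((t.1.2.1 : ℂ))⁻¹ * t.1.2.2.1 x) z :=
        contDiffAt_const.mul hw
      have e1 : ((t.1.2.1 : ℂ))⁻¹ * L.ap (ext V m a t.1.2.2.1) (V.e a) z =
          ch V a z * (((t.1.2.1 : ℂ))⁻¹ * L0 (co V a L) t.1.2.2.1 z) +
          low (L.W (V.e a)) (L.b (V.e a)) (L.b' (V.e a)) (L.c (V.e a)) (ch V a)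
            (fun x => ((t.1.2.1 : ℂ))⁻¹ * t.1.2.2.1 x) z := by
        have e2 : L0 (co V a L) t.1.2.2.1 z = L0 (fun w => ra (L.W (V.e a) w)) t.1.2.2.1 z := by
          simp only [L0, co, bp_one V a (ball_subset_closedBall hz), one_mul, sub_add_cancel]
        rw [e2, ← L0_smul _ hw, ← hR.eq _ _ _ (hL.pos _ (V.mem a) z hzt).isHermitian hw',
          ← lop_mul (ch_sm V a hzt) hw', Op.ap,
          lop_congr (g := fun x => ch V a x * t.1.2.2.1 x)
            (((V.e a).open_target.eventually_mem hzt).mono fun x hx => ext_self V m a hT _ hx),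
          ← lop_smul _ ((ch_sm V a hzt).mul hw)]
        congr 1
        funext x
        ring
      simp only [Op.sh, mul_sub, e1, ext_self V m a hT _ hzt]
      ring
    · refine ⟨M.ch x, Mf.ch_mem x, Mf.mem_ch x, hF.congr _ _ _ _ _ ?_
        (hF.scal T k _ (fun _ => 0) 0 fun _ => by simp)⟩
      have h0 := ev_zero V m a (Mf.ch_tgt x) (by rwa [Mf.ch_symm])
      filter_upwards [h0.eventually_nhds] with z hz t
      simp only [Op.sh, Op.ap, lop_congr (g := fun _ => 0) (hz.mono fun y hy => hy t.1.2.2.1),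
        lop_zero, hz.self_of_nhds, mul_zero, sub_self]
  obtain ⟨C, hC0, H⟩ := hB.toGH M V T k _ hG
  exact ⟨C, hC0, fun τ B w g h1 h2 h3 h4 h5 c =>
    hK.unnrm h1 (sec_smO (sec τ w g h2 h3) c) (H ⟨(τ, B, w, g), h1, h2, h3, h4, h5⟩ c)⟩

theorem dat (hK : St_HK n) (hF : St_FAM n) (hB : St_BR n) (k : ℕ) : ∃ C, 0 < C ∧
    ∀ (f : M.Fam ℂ) (B : ℝ), 0 < B → M.Sec m f → GH V k f B →
      ContDiff ℝ ∞ (fun x => ((bp V a x : ℝ) : ℂ) * (ch V a x * f (V.e a) x)) ∧
      HO k univ (fun x => ((bp V a x : ℝ) : ℂ) * (ch V a x * f (V.e a) x)) (C * B) := by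
  let T := {p : M.Fam ℂ × ℝ // 0 < p.2 ∧ M.Sec m p.1 ∧ GH V k p.1 p.2}
  have hG : GB M k fun (t : T) e z => ((t.1.2 : ℂ))⁻¹ * t.1.1 e z := by
    refine hB.toGB M V T m k _ 1 (fun t => sec_smul t.2.2.1 _) fun t c => ?_
    refine hK.mono k _ _ _ _ _ Subset.rfl (le_of_eq ?_)
      (hK.smul k _ _ _ _ (sec_smO t.2.2.1 c) (t.2.2.2 c))
    rw [norm_inv, Complex.norm_real, Real.norm_of_nonneg t.2.1.le, inv_mul_cancel₀ t.2.1.ne']
  obtain ⟨C, hC, H⟩ := hF.cut T k _ (fun t x => ch V a x * (((t.1.2 : ℂ))⁻¹ * t.1.1 (V.e a) x))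
    (bp_sm V a) (bp_cs V a) fun z hz =>
      hF.mul _ _ _ _ _ (hF.fixO T k (V.e a).open_target (V.sub a (bp_ts V a hz))
        fun w hw => ch_sm V a hw) (hG _ (V.mem a) z (V.sub a (bp_ts V a hz)))
  refine ⟨C, hC, fun f B h1 h2 h3 => ?_⟩
  obtain ⟨H1, H2⟩ := H ⟨(f, B), h1, h2, h3⟩
  have hB' : (B : ℂ) ≠ 0 := by exact_mod_cast h1.ne'
  have sm : ContDiff ℝ ∞ (fun x => ((bp V a x : ℝ) : ℂ) * (ch V a x * f (V.e a) x)) := by
    have := contDiff_const (c := (B : ℂ)).mul H1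
    refine (congrArg _ (funext fun x => ?_)).mp this
    field_simp
  refine ⟨sm, hK.unnrm h1 (fun x _ => sm.contDiffAt) ?_⟩
  refine (congrArg (fun f => HO k univ f C) (funext fun x => ?_)).mp H2
  ring

theorem one (hK : St_HK n) (hI : St_INTP n) (hF : St_FAM n) (hF2 : St_FAM2 n) (hR : St_REAL n)
    (hS : St_RES n) (hD : St_DENSE n) (hB : St_BR n) (hT : St_TR) (hC : St_CHN) {L : Op M}
    (hL : L.Ok m) (k : ℕ) {δ : ℝ} (hδ : 0 < δ) : ∃ τ0 : ℝ, ∀ τ, τ0 ≤ τ →
      ∀ (f : M.Fam ℂ) (B : ℝ), 0 < B → M.Sec m f → GH V k f B → ∃ w, ContDiff ℝ ∞ w ∧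
        GH V k (fun e z => L.sh τ (ext V m a w) e z -
          ext V m a (fun x => ((bp V a x : ℝ) : ℂ) * (ch V a x * f (V.e a) x)) e z) (δ * B) := by
  obtain ⟨κ, K, hκ, he, hs, hh, hc⟩ := co_spec a hK hF hF2 hR hL k
  obtain ⟨C1, hC1, H1⟩ := dat (m := m) a hK hF hB k
  obtain ⟨C2, hC2, H2⟩ := hS k κ K hκ
  obtain ⟨C3, hC3, H3⟩ := err a hK hF hF2 hR hB hT hC hL k
  obtain ⟨η, hη, hη1, hη3⟩ : ∃ η : ℝ, 0 < η ∧ η ≤ 1 ∧ C3 * η ≤ δ :=
    ⟨min 1 (δ / C3), lt_min one_pos (by positivity), min_le_left _ _, by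
      rw [mul_comm, ← le_div_iff₀ hC3]; exact min_le_right _ _⟩
  obtain ⟨P, hP, hP1⟩ : ∃ P : ℝ, 0 < P ∧ C2 * (1 + C1) ≤ P := ⟨_, by positivity, le_add_of_nonneg_right zero_le_one⟩
  obtain ⟨C4, hC4, H4⟩ := hI.ipk k (η / (2 * P)) 1 (by positivity) one_pos
  refine ⟨max 1 (2 * C4 * P / η), fun τ hτ f B h1 h2 h3 => ?_⟩
  have t1 : 1 ≤ τ := (le_max_left _ _).trans hτ
  have t2 : 2 * C4 * P ≤ τ * η := (div_le_iff₀ hη).1 ((le_max_right _ _).trans hτ)
  obtain ⟨g1, g2⟩ := H1 f B h1 h2 h3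
  obtain ⟨w, hw, Hw⟩ := hD k κ _ hκ he hs hc τ t1 _ g1 (bp_cs V a).mul_right (η * B) (by positivity)
  have sm1 : SmO univ fun x => τ * w x - L0 (co V a L) w x := fun x _ =>
    (contDiffAt_const.mul hw.1.contDiffAt).sub
      (L0_smooth (fun i j => (hs i j).contDiffAt) hw.1.contDiffAt)
  have h5 := hK.add k _ _ _ _ _ (fun x hx => (sm1 x hx).sub g1.contDiffAt)
    (fun x _ => g1.contDiffAt) Hw g2
  simp only [sub_add_cancel] at h5
  obtain ⟨r1, r2⟩ := H2 _ he hs hh τ t1 w _ hw h5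
  have p1 : C2 * (η * B + C1 * B) ≤ P * B := by
    have : η * B + C1 * B ≤ (1 + C1) * B := by nlinarith
    nlinarith [mul_le_mul_of_nonneg_left this hC2, mul_le_mul_of_nonneg_right hP1 h1.le]
  have h6 := H4 univ univ w _ _ (fun x _ => subset_univ _) (fun x _ => hw.1.contDiffAt)
    (hK.mono _ _ _ _ _ _ Subset.rfl p1 r1)
    (hK.mono _ _ _ _ _ _ Subset.rfl (div_le_div_of_nonneg_right p1 (by positivity)) r2)
  have p2 : η / (2 * P) * (P * B) + C4 * (P * B / τ) ≤ η * B := by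
    have q1 : η / (2 * P) * (P * B) = η * B / 2 := by field_simp
    have q2 : C4 * (P * B / τ) ≤ η * B / 2 := by
      rw [← mul_div_assoc, div_le_iff₀ (by positivity)]
      nlinarith [mul_le_mul_of_nonneg_right t2 h1.le]
    linarith
  refine ⟨w, hw.1, fun c => hK.mono _ _ _ _ _ _ Subset.rfl ?_
    (H3 τ (η * B) w _ (by positivity) hw.1 g1 Hw (hK.mono _ _ _ _ _ _ Subset.rfl p2 h6) c)⟩
  nlinarith [mul_le_mul_of_nonneg_right hη3 h1.le]

end PAR

open PAR in
theorem st_PAR {n : ℕ} (hK : St_HK n) (hI : St_INTP n) (hF : St_FAM n) (hF2 : St_FAM2 n)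
    (hR : St_REAL n) (hS : St_RES n) (hN : St_DENS) (hD : St_DENSE n) (hB : St_BR n) (hT : St_TR)
    (hC : St_CHN) : St_PAR n := by
  intro M V m k L hL
  have hδ : (0 : ℝ) < 1 / (2 * (V.r + 1)) := by positivity
  choose τ0 H using fun a : Fin V.r => one (V := V) a hK hI hF hF2 hR hS hD hB hT hC hL k hδ
  obtain ⟨τ1, hτ1⟩ := (Set.finite_range τ0).bddAbove
  refine ⟨τ1, fun τ hτ => hN.approx _ _ _ _ _ _ (1 / 2) (hB.siz M V m k) (sh_lin hK hL τ)
    (by norm_num) fun f hf B hB0 hfB => ?_⟩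
  choose w hw Hw using fun a => H a τ ((hτ1 ⟨a, rfl⟩).trans hτ) f B hB0 hf hfB
  have s1 : ∀ a, M.Sec m (ext V m a (w a)) := fun a =>
    ext_sec V m a hT hC fun z _ => (hw a).contDiffAt
  have s2 : ∀ a, M.Sec m (ext V m a fun x => ((bp V a x : ℝ) : ℂ) * (ch V a x * f (V.e a) x)) :=
    fun a => ext_sec V m a hT hC fun z hz =>
      (bp_sm V a).contDiffAt.mul ((ch_sm V a hz).mul (Mf.Sec.sm hf _ (V.mem a) z hz))
  refine ⟨∑ a, ext V m a (w a), (secG M m).sum_mem fun a _ => s1 a, ?_⟩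
  have h1 : GH V k (fun e z => ∑ a, (L.sh τ (ext V m a (w a)) e z -
      ext V m a (fun x => ((bp V a x : ℝ) : ℂ) * (ch V a x * f (V.e a) x)) e z)) (1 / 2 * B) := by
    intro c
    refine hK.mono _ _ _ _ _ _ Subset.rfl ?_ (hK.sum k _ _ Finset.univ _ _
      (fun a _ => sec_smO (sec_sub (hL.sh τ (s1 a)) (s2 a)) c) fun a _ => Hw a c)
    rw [Finset.sum_const, Finset.card_univ, Fintype.card_fin, nsmul_eq_mul, ← mul_assoc]
    refine mul_le_mul_of_nonneg_right ?_ hB0.le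
    rw [mul_one_div, div_le_div_iff₀ (by positivity) two_pos]
    linarith
  refine h1.congr hK fun e he z hz => ?_
  have e1 := ext_sum V m hf (g := fun a x => ((bp V a x : ℝ) : ℂ) * (ch V a x * f (V.e a) x))
    (fun a z hz => by rw [← mul_assoc, bp_ch V a hz]) e he z hz
  have e2 := lop_sum (W := L.W e) (b := L.b e) (b' := L.b' e) (c := L.c e) Finset.univ
    fun a _ => (s1 a).sm e he z hz
  have e3 : (∑ a, ext V m a (w a)) e = fun y => ∑ a, ext V m a (w a) e y := by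
    funext y
    simp only [Finset.sum_apply]
  simp only [Finset.sum_sub_distrib, e1, Pi.sub_apply, Op.sh, Op.ap, e3, e2, Finset.mul_sum]

end Pool.Agent.Lib.HS21
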