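import Pool.Agent.Lib.HS21.LBlue
import Pool.Agent.Lib.HS92.Maxp

/-! First and second order conditions at a maximum of the real part. -/

open scoped ContDiff Topology
open Set Filter

noncomputable section

namespace Pool.Agent.Lib.HS21

open Pool.Agent.Lib.SV (E)

namespace MAXP

theorem D_re {n : ℕ} {f : E n → ℂ} {x : E n} (hf : DifferentiableAt ℝ f x) (i : Ix n) :
    Pool.Agent.HS92.D (bs n i) (fun y => (f y).re) x = (D i f x).re :=
  congrArg (fun L : E n →L[ℝ] ℝ => L (bs n i))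
    (Complex.reCLM.hasFDerivAt.comp x hf.hasFDerivAt).fderiv

theorem DD_re {n : ℕ} {f : E n → ℂ} {x : E n} (hf : ContDiffAt ℝ ∞ f x) (i j : Ix n) :
    Pool.Agent.HS92.D (bs n i) (Pool.Agent.HS92.D (bs n j) fun y => (f y).re) x =
      (D i (D j f) x).re := by
  have e : Pool.Agent.HS92.D (bs n j) (fun y => (f y).re) =ᶠ[𝓝 x] fun y => (D j f y).re :=
    (Pool.Agent.HS92.ev hf).mono fun y hy => D_re hy j
  rw [(Pool.Agent.HS92.D_congr _ e).eq_of_nhds]
  exact D_re (Pool.Agent.HS92.df (Pool.Agent.HS92.smD (bs n j) hf)) i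

end MAXP

theorem st_MAXP {n : ℕ} : St_MAXP n := by
  intro w x hw hm
  refine ⟨fun i => ?_, fun A hA => ?_⟩
  · rw [← MAXP.D_re (Pool.Agent.HS92.df hw)]
    exact Pool.Agent.HS92.max_D hm _
  · have := Pool.Agent.HS92.maxp (bs n) (Complex.reCLM.contDiff.contDiffAt.comp x hw) hm (A x)
      fun ξ => by simpa using hA ξ
    refine le_of_eq_of_le ?_ this
    simp only [L0, Complex.re_sum, Complex.re_ofReal_mul]
    exact Finset.sum_congr rfl fun i _ => Finset.sum_congr rfl fun j _ => by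
      rw [← MAXP.DD_re hw]; rfl

end Pool.Agent.Lib.HS21
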