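import Pool.Agent.Lib.HS21.LBlue
import Pool.Agent.Lib.HS92.V0

/-! The estimate for constant coefficients. -/

open Set

noncomputable section

namespace Pool.Agent.Lib.HS21

theorem st_T2 {n : ℕ} : St_T2 n := by
  intro κ K hκ
  obtain ⟨C, hC, H⟩ := Pool.Agent.HS92.t2v (F := ℂ) (bs n) hκ K
  refine ⟨C, hC, fun a ha hK w M hw ⟨M0, h0⟩ hM hL i j x _ y _ => ?_⟩
  refine H a w M M0 ha hK hw (fun x => h0.1.1 x trivial) hM (fun x y => ?_) i j x y
  simp only [Complex.real_smul]
  exact hL x trivial y trivial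

end Pool.Agent.Lib.HS21
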