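import Pool.Agent.Lib.HS21.LBlue
import Pool.Agent.Lib.HS92.V0

/-! The estimate for variable coefficients. -/

open Set

noncomputable section

namespace Pool.Agent.Lib.HS21

open Pool.Agent.Lib.SV (E)
open Pool.Agent.HS92 (HB H1 H2)

namespace V0

variable {n : ℕ} {f : E n → ℂ} {M : ℝ}

theorem hb : HO 0 univ f M ↔ HB f M M :=
  ⟨fun h => ⟨fun x => h.1 x trivial, fun x y => h.2 x trivial y trivial⟩,
    fun h => ⟨fun x _ => h.1 x, fun x _ y _ => h.2 x y⟩⟩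

theorem h2 : HO 2 univ f M ↔ H2 (bs n) f M :=
  ⟨fun h => ⟨hb.1 h.1, fun i => ⟨hb.1 (h.2 i).1, fun j => hb.1 ((h.2 i).2 j)⟩⟩,
    fun h => ⟨hb.2 h.1, fun i => ⟨hb.2 (h.2 i).1, fun j => hb.2 ((h.2 i).2 j)⟩⟩⟩

end V0

open V0

theorem st_V0 {n : ℕ} : St_V0 n := by
  intro κ K hκ
  obtain ⟨C, hC, H⟩ := Pool.Agent.HS92.v0 (F := ℂ) (bs n) hκ (abs_nonneg K)
  refine ⟨2 * C, by positivity, fun A ha hK w M hw ⟨M0, h0⟩ hL h1 => ?_⟩
  have hM := (hb.1 hL).nonneg
  have := H (fun i j x => A x i j) w M M M0 ha (fun i j => ?_) hw (h2.1 h0)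
    (fun x => h1.1.1 x trivial) hM fun N1 hN => ?_
  · rw [show 2 * C * M = C * (M + M) by ring]
    exact h2.2 this
  · have t := (hb.1 (hK i j)).mono (le_abs_self K) (le_abs_self K)
    refine ⟨fun x => ?_, fun x y => ?_⟩
    · simpa using t.1 x
    · have u := t.2 x y
      rwa [← Complex.ofReal_sub, Complex.norm_real] at u
  · have t : 0 ≤ |K| * N1 := mul_nonneg (abs_nonneg K) hN.1.nonneg
    simp only [Complex.real_smul]
    exact (hb.1 hL).mono (by linarith) (by linarith)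

end Pool.Agent.Lib.HS21
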